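import Pool.Agent.Lib.MP_afd87c_lc.BC.Stm

/-! # [BCN CNT] The counting argument -/

set_option autoImplicit false

namespace Pool.Agent.MPafd87c

/-- number of right neighbours -/
def CNT_R (E : Finset (ℕ × ℕ)) (v : ℕ) : ℕ := (E.filter fun e => e.1 = v).card

/-- number of left neighbours -/
def CNT_L (E : Finset (ℕ × ℕ)) (v : ℕ) : ℕ := (E.filter fun e => e.2 = v).card

theorem CNT_dg (E : Finset (ℕ × ℕ)) (v : ℕ) : dg E v = CNT_R E v + CNT_L E v := rfl

theorem CNT_mem_II {n : ℕ} {E : Finset (ℕ × ℕ)} {g : ℕ} :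
    g ∈ II n E ↔ g < n ∧ ∃ e ∈ E, e.2 = g + 1 ∧ e.1 < g := by
  rw [II, Finset.mem_filter, Finset.mem_range]

theorem CNT_mem_OO {n : ℕ} {E : Finset (ℕ × ℕ)} {g : ℕ} :
    g ∈ OO n E ↔ g < n ∧ ∃ e ∈ E, e.1 = g ∧ g + 1 < e.2 := by
  rw [OO, Finset.mem_filter, Finset.mem_range]

theorem CNT_L2 {n : ℕ} {E : Finset (ℕ × ℕ)} (hE : Ch n E) {v : ℕ} (h : 2 ≤ CNT_L E v) :
    1 ≤ v ∧ v - 1 ∈ II n E := by
  obtain ⟨e, he, f, hf, hef⟩ := Finset.one_lt_card.1 (show 1 < (E.filter fun e => e.2 = v).card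
    from h)
  rw [Finset.mem_filter] at he hf
  have h1 := hE.lt e he.1
  have h2 := hE.lt f hf.1
  have h3 := hE.le e he.1
  have h4 : e.1 ≠ f.1 := fun h5 => hef (Prod.ext h5 (he.2.trans hf.2.symm))
  have h6 := he.2
  have h7 := hf.2
  refine ⟨by omega, ?_⟩
  rw [CNT_mem_II]
  refine ⟨by omega, ?_⟩
  rcases lt_or_gt_of_ne h4 with h5 | h5
  · exact ⟨e, he.1, by omega, by omega⟩
  · exact ⟨f, hf.1, by omega, by omega⟩

theorem CNT_R2 {n : ℕ} {E : Finset (ℕ × ℕ)} (hE : Ch n E) {v : ℕ} (h : 2 ≤ CNT_R E v) :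
    v ∈ OO n E := by
  obtain ⟨e, he, f, hf, hef⟩ := Finset.one_lt_card.1 (show 1 < (E.filter fun e => e.1 = v).card
    from h)
  rw [Finset.mem_filter] at he hf
  have h1 := hE.lt e he.1
  have h2 := hE.lt f hf.1
  have h3 := hE.le e he.1
  have h4 : e.2 ≠ f.2 := fun h5 => hef (Prod.ext (he.2.trans hf.2.symm) h5)
  have h6 := he.2
  have h7 := hf.2
  rw [CNT_mem_OO]
  refine ⟨by omega, ?_⟩
  rcases lt_or_gt_of_ne h4 with h5 | h5
  · exact ⟨f, hf.1, hf.2, by omega⟩
  · exact ⟨e, he.1, he.2, by omega⟩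

theorem p_CNT : S_CNT := by
  classical
  intro n k E hE hdg h1 hII hOO
  -- the sets
  let AL := (Finset.range n).filter fun v => 2 ≤ CNT_L E v
  let AR := (Finset.range n).filter fun v => 2 ≤ CNT_R E v
  let T := (Finset.range n).filter fun v => dg E v = 3
  let D := (Finset.range n).filter fun v => dg E v = 2 ∧ (CNT_L E v = 2 ∨ CNT_R E v = 2)
  have hAL : AL.card = (AL.image fun v => v - 1).card := by
    rw [Finset.card_image_of_injOn]
    intro u hu v hv huv
    have h2 := (CNT_L2 hE (Finset.mem_filter.1 (Finset.mem_coe.1 hu)).2).1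
    have h3 := (CNT_L2 hE (Finset.mem_filter.1 (Finset.mem_coe.1 hv)).2).1
    have h4 : u - 1 = v - 1 := huv
    omega
  have hALs : (AL.image fun v => v - 1) ⊆ II n E := by
    intro g hg
    obtain ⟨v, hv, rfl⟩ := Finset.mem_image.1 hg
    exact (CNT_L2 hE (Finset.mem_filter.1 hv).2).2
  have hARs : AR ⊆ OO n E := by
    intro v hv
    exact CNT_R2 hE (Finset.mem_filter.1 hv).2
  have hALc : AL.card ≤ (II n E).card := by
    rw [hAL]
    exact Finset.card_le_card hALs
  have hARc : AR.card ≤ (OO n E).card := Finset.card_le_card hARs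
  have hTD : Disjoint T D := by
    rw [Finset.disjoint_left]
    intro v hv hv'
    have h2 := (Finset.mem_filter.1 hv).2
    have h3 := (Finset.mem_filter.1 hv').2.1
    omega
  have hTDs : T ∪ D ⊆ AL ∪ AR := by
    intro v hv
    rcases Finset.mem_union.1 hv with h | h
    · obtain ⟨h2, h3⟩ := Finset.mem_filter.1 h
      rw [CNT_dg] at h3
      by_cases h4 : 2 ≤ CNT_L E v
      · exact Finset.mem_union_left _ (Finset.mem_filter.2 ⟨h2, h4⟩)
      · exact Finset.mem_union_right _ (Finset.mem_filter.2 ⟨h2, by omega⟩)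
    · obtain ⟨h2, h3, h4⟩ := Finset.mem_filter.1 h
      rcases h4 with h4 | h4
      · exact Finset.mem_union_left _ (Finset.mem_filter.2 ⟨h2, by omega⟩)
      · exact Finset.mem_union_right _ (Finset.mem_filter.2 ⟨h2, by omega⟩)
  have hsum : T.card + D.card ≤ AL.card + AR.card := by
    rw [← Finset.card_union_of_disjoint hTD]
    exact (Finset.card_le_card hTDs).trans (Finset.card_union_le _ _)
  refine ⟨?_, ?_⟩
  · change T.card ≤ 2 * k
    omega
  intro hm hin
  have hm' : T.card = 2 * k := hm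
  have hD0 : D.card = 0 := by omega
  have hIIk : (II n E).card = k := by omega
  have hOOk : (OO n E).card = k := by omega
  have hALk : AL.card = k := by omega
  have hARk : AR.card = k := by omega
  have hin' := hin hIIk
  have hD : D = ∅ := Finset.card_eq_zero.1 hD0
  -- II and OO
  have hIIe : (AL.image fun v => v - 1) = II n E :=
    Finset.eq_of_subset_of_card_le hALs (by omega)
  have hOOe : AR = OO n E := Finset.eq_of_subset_of_card_le hARs (by omega)
  have hII2 : ∀ g ∈ II n E, 2 ≤ CNT_L E (g + 1) := by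
    intro g hg
    rw [← hIIe] at hg
    obtain ⟨v, hv, h2⟩ := Finset.mem_image.1 hg
    have h3 := (Finset.mem_filter.1 hv).2
    have h4 := (CNT_L2 hE h3).1
    have h5 : v - 1 = g := h2
    have h6 : g + 1 = v := by omega
    rw [h6]
    exact h3
  have hOO2 : ∀ g ∈ OO n E, 2 ≤ CNT_R E g := by
    intro g hg
    rw [← hOOe] at hg
    exact (Finset.mem_filter.1 hg).2
  -- the long chords
  let F := E.filter fun e => e.1 + 1 < e.2
  have hFI : F.image (fun e => e.2 - 1) = II n E := by
    ext g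
    rw [Finset.mem_image, CNT_mem_II]
    constructor
    · rintro ⟨e, he, h2⟩
      obtain ⟨h3, h4⟩ := Finset.mem_filter.1 he
      have h5 := hE.le e h3
      have h6 : e.2 - 1 = g := h2
      exact ⟨by omega, e, h3, by omega, by omega⟩
    · rintro ⟨h2, e, he, h3, h4⟩
      refine ⟨e, Finset.mem_filter.2 ⟨he, by omega⟩, ?_⟩
      change e.2 - 1 = g
      omega
  have hFinj : Set.InjOn (fun e : ℕ × ℕ => e.2 - 1) (F : Set (ℕ × ℕ)) := by
    intro e he f hf hef
    obtain ⟨h2, h3⟩ := Finset.mem_filter.1 (Finset.mem_coe.1 he)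
    obtain ⟨h4, h5⟩ := Finset.mem_filter.1 (Finset.mem_coe.1 hf)
    have h6 : e.2 - 1 = f.2 - 1 := hef
    have h7 : e.2 = f.2 := by omega
    have hk : ∀ p ∈ E, ∀ q ∈ E, p.2 = q.2 → q.1 + 1 < q.2 → ¬ p.1 < q.1 := by
      intro p hp q hq hpq h8 h9
      refine hin' p.1 q.1 (q.2 - 1) h9 (by omega) ?_ ?_
      · have h10 : (p.1, q.2 - 1 + 1) = p := Prod.ext rfl (by change q.2 - 1 + 1 = p.2; omega)
        rw [h10]
        exact hp
      · have h10 : (q.1, q.2 - 1 + 1) = q := Prod.ext rfl (by change q.2 - 1 + 1 = q.2; omega)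
        rw [h10]
        exact hq
    have h8 := hk e h2 f h4 h7 h5
    have h9 := hk f h4 e h2 h7.symm h3
    exact Prod.ext (by omega) h7
  have hFc : F.card = k := by
    rw [← hIIk, ← hFI, Finset.card_image_of_injOn hFinj]
  have hFO : F.image (fun e => e.1) = OO n E := by
    ext g
    rw [Finset.mem_image, CNT_mem_OO]
    constructor
    · rintro ⟨e, he, h2⟩
      obtain ⟨h3, h4⟩ := Finset.mem_filter.1 he
      have h5 := hE.le e h3
      have h6 : e.1 = g := h2
      exact ⟨by omega, e, h3, h6, by omega⟩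
    · rintro ⟨h2, e, he, h3, h4⟩
      exact ⟨e, Finset.mem_filter.2 ⟨he, by omega⟩, h3⟩
  have hFinj' : Set.InjOn (fun e : ℕ × ℕ => e.1) (F : Set (ℕ × ℕ)) := by
    rw [← Finset.card_image_iff, hFO, hFc, hOOk]
  -- bounds
  have hL2 : ∀ v, CNT_L E v ≤ 2 := by
    intro v
    by_contra hcon
    obtain ⟨e, f, g, he, hf, hg, hef, heg, hfg⟩ := Finset.two_lt_card_iff.1
      (show 2 < (E.filter fun e => e.2 = v).card by
        change 2 < CNT_L E v
        omega)
    rw [Finset.mem_filter] at he hf hg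
    have l1 := hE.lt e he.1
    have l2 := hE.lt f hf.1
    have l3 := hE.lt g hg.1
    have e1 := he.2
    have e2 := hf.2
    have e3 := hg.2
    have key : ∀ p ∈ E, ∀ q ∈ E, p.2 = v → q.2 = v → p ≠ q → p.1 + 1 < v → q.1 + 1 < v → False := by
      intro p hp q hq hpv hqv hpq h2 h3
      exact hpq (hFinj (Finset.mem_coe.2 (Finset.mem_filter.2 ⟨hp, by omega⟩))
        (Finset.mem_coe.2 (Finset.mem_filter.2 ⟨hq, by omega⟩)) (by
          change p.2 - 1 = q.2 - 1
          omega))
    have n1 : e.1 ≠ f.1 := fun h => hef (Prod.ext h (e1.trans e2.symm))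
    have n2 : e.1 ≠ g.1 := fun h => heg (Prod.ext h (e1.trans e3.symm))
    have n3 : f.1 ≠ g.1 := fun h => hfg (Prod.ext h (e2.trans e3.symm))
    by_cases c1 : e.1 + 1 < v
    · by_cases c2 : f.1 + 1 < v
      · exact key e he.1 f hf.1 e1 e2 hef c1 c2
      · exact key e he.1 g hg.1 e1 e3 heg c1 (by omega)
    · exact key f hf.1 g hg.1 e2 e3 hfg (by omega) (by omega)
  have hR2 : ∀ v, CNT_R E v ≤ 2 := by
    intro v
    by_contra hcon
    obtain ⟨e, f, g, he, hf, hg, hef, heg, hfg⟩ := Finset.two_lt_card_iff.1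
      (show 2 < (E.filter fun e => e.1 = v).card by
        change 2 < CNT_R E v
        omega)
    rw [Finset.mem_filter] at he hf hg
    have l1 := hE.lt e he.1
    have l2 := hE.lt f hf.1
    have l3 := hE.lt g hg.1
    have e1 := he.2
    have e2 := hf.2
    have e3 := hg.2
    have key : ∀ p ∈ E, ∀ q ∈ E, p.1 = v → q.1 = v → p ≠ q → v + 1 < p.2 → v + 1 < q.2 → False := by
      intro p hp q hq hpv hqv hpq h2 h3
      exact hpq (hFinj' (Finset.mem_coe.2 (Finset.mem_filter.2 ⟨hp, by omega⟩))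
        (Finset.mem_coe.2 (Finset.mem_filter.2 ⟨hq, by omega⟩)) (by
          change p.1 = q.1
          omega))
    have n1 : e.2 ≠ f.2 := fun h => hef (Prod.ext (e1.trans e2.symm) h)
    have n2 : e.2 ≠ g.2 := fun h => heg (Prod.ext (e1.trans e3.symm) h)
    have n3 : f.2 ≠ g.2 := fun h => hfg (Prod.ext (e2.trans e3.symm) h)
    by_cases c1 : v + 1 < e.2
    · by_cases c2 : v + 1 < f.2
      · exact key e he.1 f hf.1 e1 e2 hef c1 c2
      · exact key e he.1 g hg.1 e1 e3 heg c1 (by omega)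
    · exact key f hf.1 g hg.1 e2 e3 hfg (by omega) (by omega)
  intro v hv
  by_contra hcon
  -- `v` has no right neighbour
  have hR0 : CNT_R E v = 0 := by
    by_contra h2
    have h3 : 0 < (E.filter fun e => e.1 = v).card := Nat.pos_of_ne_zero h2
    obtain ⟨e, he⟩ := Finset.card_pos.1 h3
    rw [Finset.mem_filter] at he
    have h4 := hE.lt e he.1
    have h5 : e.2 ≠ v + 1 := by
      intro h6
      apply hcon
      have h7 : (v, v + 1) = e := Prod.ext he.2.symm h6.symm
      rw [h7]
      exact he.1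
    have e1 := he.2
    have h6 : v ∈ OO n E := CNT_mem_OO.2 ⟨by omega, e, he.1, he.2, by omega⟩
    obtain ⟨p, hp, q, hq, hpq⟩ := Finset.one_lt_card.1
      (show 1 < (E.filter fun e => e.1 = v).card from hOO2 v h6)
    rw [Finset.mem_filter] at hp hq
    have h7 := hE.lt p hp.1
    have h8 := hE.lt q hq.1
    have e2 := hp.2
    have e3 := hq.2
    have h9 : p.2 ≠ v + 1 := by
      intro h6
      apply hcon
      have h7 : (v, v + 1) = p := Prod.ext hp.2.symm h6.symm
      rw [h7]
      exact hp.1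
    have h10 : q.2 ≠ v + 1 := by
      intro h6
      apply hcon
      have h7 : (v, v + 1) = q := Prod.ext hq.2.symm h6.symm
      rw [h7]
      exact hq.1
    exact hpq (hFinj' (Finset.mem_coe.2 (Finset.mem_filter.2 ⟨hp.1, by omega⟩))
        (Finset.mem_coe.2 (Finset.mem_filter.2 ⟨hq.1, by omega⟩)) (by
          change p.1 = q.1
          omega))
  -- `v + 1` has no left neighbour
  have hL0 : CNT_L E (v + 1) = 0 := by
    by_contra h2
    have h3 : 0 < (E.filter fun e => e.2 = v + 1).card := Nat.pos_of_ne_zero h2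
    obtain ⟨e, he⟩ := Finset.card_pos.1 h3
    rw [Finset.mem_filter] at he
    have h4 := hE.lt e he.1
    have h5 : e.1 ≠ v := by
      intro h6
      apply hcon
      have h7 : (v, v + 1) = e := Prod.ext h6.symm he.2.symm
      rw [h7]
      exact he.1
    have e1 := he.2
    have h6 : v ∈ II n E := CNT_mem_II.2 ⟨by omega, e, he.1, he.2, by omega⟩
    obtain ⟨p, hp, q, hq, hpq⟩ := Finset.one_lt_card.1
      (show 1 < (E.filter fun e => e.2 = v + 1).card from hII2 v h6)
    rw [Finset.mem_filter] at hp hq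
    have h7 := hE.lt p hp.1
    have h8 := hE.lt q hq.1
    have e2 := hp.2
    have e3 := hq.2
    have h9 : p.1 ≠ v := by
      intro h6
      apply hcon
      have h7 : (v, v + 1) = p := Prod.ext h6.symm hp.2.symm
      rw [h7]
      exact hp.1
    have h10 : q.1 ≠ v := by
      intro h6
      apply hcon
      have h7 : (v, v + 1) = q := Prod.ext h6.symm hq.2.symm
      rw [h7]
      exact hq.1
    exact hpq (hFinj (Finset.mem_coe.2 (Finset.mem_filter.2 ⟨hp.1, by omega⟩))
        (Finset.mem_coe.2 (Finset.mem_filter.2 ⟨hq.1, by omega⟩)) (by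
          change p.2 - 1 = q.2 - 1
          omega))
  -- degree two is impossible for a vertex with neighbours on one side only
  have hDv : ∀ u < n, dg E u = 2 → CNT_L E u ≠ 2 ∧ CNT_R E u ≠ 2 := by
    intro u hu h2
    constructor
    · intro h3
      have h4 : u ∈ D := Finset.mem_filter.2 ⟨Finset.mem_range.2 hu, h2, Or.inl h3⟩
      rw [hD] at h4
      exact absurd h4 (Finset.notMem_empty u)
    · intro h3
      have h4 : u ∈ D := Finset.mem_filter.2 ⟨Finset.mem_range.2 hu, h2, Or.inr h3⟩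
      rw [hD] at h4
      exact absurd h4 (Finset.notMem_empty u)
  have hv1 : dg E v = 1 := by
    have a1 := hdg v (by omega)
    have a2 := hDv v (by omega)
    have a3 := hL2 v
    rw [CNT_dg] at a1 a2 ⊢
    by_contra h2
    have h3 : CNT_R E v + CNT_L E v = 2 := by omega
    exact (a2 h3).1 (by omega)
  have hv2 : dg E (v + 1) = 1 := by
    have a1 := hdg (v + 1) hv
    have a2 := hDv (v + 1) hv
    have a3 := hR2 (v + 1)
    rw [CNT_dg] at a1 a2 ⊢
    by_contra h2
    have h3 : CNT_R E (v + 1) + CNT_L E (v + 1) = 2 := by omega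
    exact (a2 h3).2 (by omega)
  have hL00 : CNT_L E 0 = 0 := by
    by_contra h2
    have h3 : 0 < (E.filter fun e => e.2 = 0).card := Nat.pos_of_ne_zero h2
    obtain ⟨e, he⟩ := Finset.card_pos.1 h3
    rw [Finset.mem_filter] at he
    have h4 := hE.lt e he.1
    have e1 := he.2
    omega
  have hv0 : v ≠ 0 := by
    intro h2
    have a1 := hdg v (by omega)
    rw [CNT_dg, hR0, h2, hL00] at a1
    omega
  have h0 : dg E 0 = 1 := by
    have a1 := hdg 0 (by omega)
    have a2 := hDv 0 (by omega)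
    have a3 := hR2 0
    rw [CNT_dg] at a1 a2 ⊢
    by_contra h2
    have h3 : CNT_R E 0 + CNT_L E 0 = 2 := by omega
    exact (a2 h3).2 (by omega)
  have h3 : ({0, v, v + 1} : Finset ℕ) ⊆ (Finset.range n).filter fun v => dg E v = 1 := by
    intro u hu
    rw [Finset.mem_insert, Finset.mem_insert, Finset.mem_singleton] at hu
    rw [Finset.mem_filter, Finset.mem_range]
    rcases hu with hu | hu | hu
    · rw [hu]
      exact ⟨by omega, h0⟩
    · rw [hu]
      exact ⟨by omega, hv1⟩
    · rw [hu]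
      exact ⟨hv, hv2⟩
  have h4 := Finset.card_le_card h3
  rw [h1] at h4
  have h5 : ({0, v, v + 1} : Finset ℕ).card = 3 := by
    rw [Finset.card_insert_of_notMem, Finset.card_insert_of_notMem, Finset.card_singleton]
    · rw [Finset.mem_singleton]
      omega
    · rw [Finset.mem_insert, Finset.mem_singleton]
      omega
  omega

end Pool.Agent.MPafd87c
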