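import Pool.Agent.Lib.MP_afd87c_lc.BC.Stm

/-!
# Piece DIM: the dimension argument
-/

set_option autoImplicit false

namespace Pool.Agent.MPafd87c

open Finset Module

private theorem DIM_D {n k : ℕ} {E : Finset (ℕ × ℕ)} {a c : Fin k → ℕ × ℕ → ℝ}
    {t : Fin k → ℕ → ℝ} (hE : Ch n E) (hF : Fac n E a c t) {g : ℕ} (hg : g + 1 < n)
    {e : ℕ × ℕ} (he : e ∈ E) : dd g e = ∑ b, a b e * (t b (g + 1) - t b g) := by
  have h1 := hF.star e he (g + 1) hg
  have h2 := hF.star e he g (by omega)
  have h3 : ∑ b, a b e * (t b (g + 1) - t b g)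
      = (if e.1 < g + 1 ∧ g + 1 < e.2 then (1 : ℝ) else 0)
        - (if e.1 < g ∧ g < e.2 then (1 : ℝ) else 0) := by
    rw [h1, h2, ← sum_sub_distrib]
    exact sum_congr rfl (fun b _ => by ring)
  rw [h3]
  have hlt := hE.lt e he
  unfold dd
  rcases lt_trichotomy e.1 g with h | h | h
  · rw [if_neg (by omega : ¬ e.1 = g)]
    by_cases h4 : e.2 = g + 1
    · rw [if_pos h4, if_neg (by omega), if_pos (by omega)]
    · rw [if_neg h4]
      by_cases h5 : g + 1 < e.2
      · rw [if_pos (by omega), if_pos (by omega)]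
        ring
      · rw [if_neg (by omega), if_neg (by omega)]
  · rw [if_pos h]
    by_cases h4 : e.2 = g + 1
    · rw [if_pos h4, if_neg (by omega), if_neg (by omega)]
      ring
    · rw [if_neg h4, if_pos (by omega), if_neg (by omega)]
  · rw [if_neg (by omega : ¬ e.1 = g), if_neg (by omega), if_neg (by omega), if_neg (by omega)]

private theorem DIM_card {n k : ℕ} {E : Finset (ℕ × ℕ)} {a c : Fin k → ℕ × ℕ → ℝ}
    {t : Fin k → ℕ → ℝ} (hE : Ch n E) (hF : Fac n E a c t) (J : Finset ℕ)
    (hJ : ∀ g ∈ J, g + 1 < n)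
    (hli : LinearIndependent ℝ (fun (g : {g // g ∈ J}) (e : {e // e ∈ E}) => dd g.1 e.1)) :
    J.card ≤ k ∧ (J.card = k → ∀ κ : ℕ × ℕ → ℝ, (∀ g ∈ J, ∑ e ∈ E, κ e * dd g e = 0) →
      ∀ b, ∑ e ∈ E, κ e * a b e = 0) := by
  classical
  set A : Fin k → ({e // e ∈ E} → ℝ) := fun b e => a b e.1 with hA
  set Dv : {g // g ∈ J} → ({e // e ∈ E} → ℝ) := fun g e => dd g.1 e.1 with hDv
  have hle : Submodule.span ℝ (Set.range Dv) ≤ Submodule.span ℝ (Set.range A) := by
    rw [Submodule.span_le]
    rintro _ ⟨g, rfl⟩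
    have h1 : Dv g = ∑ b, (t b (g.1 + 1) - t b g.1) • A b := by
      funext e
      rw [Finset.sum_apply]
      simp only [Pi.smul_apply, smul_eq_mul, hA, hDv]
      rw [DIM_D hE hF (hJ g.1 g.2) e.2]
      exact sum_congr rfl (fun b _ => by ring)
    rw [h1]
    exact Submodule.sum_mem _ (fun b _ => Submodule.smul_mem _ _
      (Submodule.subset_span ⟨b, rfl⟩))
  have h2 : finrank ℝ (Submodule.span ℝ (Set.range Dv)) = J.card := by
    rw [finrank_span_eq_card hli, Fintype.card_coe]
  have h3 : finrank ℝ (Submodule.span ℝ (Set.range A)) ≤ k := by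
    have := finrank_range_le_card (R := ℝ) A
    rw [Fintype.card_fin] at this
    exact this
  have h4 := Submodule.finrank_mono hle
  refine ⟨by omega, ?_⟩
  intro hk κ hκ b
  have h5 : Submodule.span ℝ (Set.range Dv) = Submodule.span ℝ (Set.range A) :=
    Submodule.eq_of_le_of_finrank_le hle (by omega)
  have h6 : A b ∈ Submodule.span ℝ (Set.range Dv) := by
    rw [h5]
    exact Submodule.subset_span ⟨b, rfl⟩
  have h7 : ∀ x ∈ Submodule.span ℝ (Set.range Dv), ∑ e : {e // e ∈ E}, κ e.1 * x e = 0 := by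
    intro x hx
    induction hx using Submodule.span_induction with
    | mem x hx =>
      obtain ⟨g, rfl⟩ := hx
      have := hκ g.1 g.2
      rw [← sum_coe_sort] at this
      exact this
    | zero => simp
    | add x y _ _ hx hy =>
      have : ∑ e : {e // e ∈ E}, κ e.1 * (x + y) e
          = ∑ e : {e // e ∈ E}, κ e.1 * x e + ∑ e : {e // e ∈ E}, κ e.1 * y e := by
        rw [← sum_add_distrib]
        exact sum_congr rfl (fun e _ => by rw [Pi.add_apply]; ring)
      rw [this, hx, hy, add_zero]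
    | smul r x _ hx =>
      have : ∑ e : {e // e ∈ E}, κ e.1 * (r • x) e
          = r * ∑ e : {e // e ∈ E}, κ e.1 * x e := by
        rw [mul_sum]
        exact sum_congr rfl (fun e _ => by rw [Pi.smul_apply, smul_eq_mul]; ring)
      rw [this, hx, mul_zero]
  have h8 := h7 _ h6
  rw [← sum_coe_sort]
  exact h8

private theorem DIM_II {n : ℕ} {E : Finset (ℕ × ℕ)} :
    LinearIndependent ℝ (fun (g : {g // g ∈ II n E}) (e : {e // e ∈ E}) => dd g.1 e.1) := by
  classical
  rw [Fintype.linearIndependent_iff]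
  intro x hx
  have key : ∀ m : ℕ, ∀ hm : m ∈ II n E, x ⟨m, hm⟩ = 0 := by
    intro m
    induction m using Nat.strong_induction_on with
    | _ m ih =>
      intro hm
      obtain ⟨e, he, he2, he1⟩ := (mem_filter.1 hm).2
      have h1 := congrFun hx ⟨e, he⟩
      rw [Finset.sum_apply, Pi.zero_apply] at h1
      rw [Finset.sum_eq_single (⟨m, hm⟩ : {g // g ∈ II n E})] at h1
      · simp only [Pi.smul_apply, smul_eq_mul] at h1
        unfold dd at h1
        rw [if_neg (by omega), if_pos (by omega)] at h1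
        linarith
      · rintro ⟨g', hg'⟩ _ hne
        have hne' : g' ≠ m := fun h => hne (by subst h; rfl)
        simp only [Pi.smul_apply, smul_eq_mul]
        rcases lt_or_gt_of_ne hne' with h | h
        · rw [ih g' h hg', zero_mul]
        · have : dd g' e = 0 := by
            unfold dd
            rw [if_neg (by omega), if_neg (by omega), sub_zero]
          rw [this, mul_zero]
      · intro h
        exact absurd (mem_univ _) h
  rintro ⟨m, hm⟩
  exact key m hm

private theorem DIM_OO {n : ℕ} {E : Finset (ℕ × ℕ)} :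
    LinearIndependent ℝ (fun (g : {g // g ∈ OO n E}) (e : {e // e ∈ E}) => dd g.1 e.1) := by
  classical
  rw [Fintype.linearIndependent_iff]
  intro x hx
  have key : ∀ d : ℕ, ∀ m : ℕ, n - m = d → ∀ hm : m ∈ OO n E, x ⟨m, hm⟩ = 0 := by
    intro d
    induction d using Nat.strong_induction_on with
    | _ d ih =>
      intro m hd hm
      have hmn : m < n := mem_range.1 (mem_filter.1 hm).1
      obtain ⟨e, he, he1, he2⟩ := (mem_filter.1 hm).2
      have h1 := congrFun hx ⟨e, he⟩
      rw [Finset.sum_apply, Pi.zero_apply] at h1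
      rw [Finset.sum_eq_single (⟨m, hm⟩ : {g // g ∈ OO n E})] at h1
      · simp only [Pi.smul_apply, smul_eq_mul] at h1
        unfold dd at h1
        rw [if_pos (by omega), if_neg (by omega)] at h1
        linarith
      · rintro ⟨g', hg'⟩ _ hne
        have hne' : g' ≠ m := fun h => hne (by subst h; rfl)
        simp only [Pi.smul_apply, smul_eq_mul]
        rcases lt_or_gt_of_ne hne' with h | h
        · have : dd g' e = 0 := by
            unfold dd
            rw [if_neg (by omega), if_neg (by omega), sub_zero]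
          rw [this, mul_zero]
        · rw [ih (n - g') (by omega) g' rfl hg', zero_mul]
      · intro h
        exact absurd (mem_univ _) h
  rintro ⟨m, hm⟩
  exact key _ m rfl hm

theorem p_DIM : S_DIM := by
  intro n k E a c t hE hF
  have hI : ∀ g ∈ II n E, g + 1 < n := by
    intro g hg
    obtain ⟨e, he, he2, _⟩ := (mem_filter.1 hg).2
    rw [← he2]
    exact hE.le e he
  have hO : ∀ g ∈ OO n E, g + 1 < n := by
    intro g hg
    obtain ⟨e, he, _, he2⟩ := (mem_filter.1 hg).2
    exact he2.trans (hE.le e he)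
  obtain ⟨h1, h2⟩ := DIM_card hE hF (II n E) hI DIM_II
  obtain ⟨h3, -⟩ := DIM_card hE hF (OO n E) hO DIM_OO
  refine ⟨h1, h3, ?_⟩
  intro hk κ hκ
  have h4 := h2 hk κ hκ
  constructor
  · intro g hg
    have h5 : ∑ e ∈ E, κ e * dd g e
        = ∑ b, (∑ e ∈ E, κ e * a b e) * (t b (g + 1) - t b g) := by
      rw [sum_congr rfl (fun e he => by rw [DIM_D hE hF hg he, mul_sum])]
      rw [sum_comm]
      refine sum_congr rfl (fun b _ => ?_)
      rw [sum_mul]
      exact sum_congr rfl (fun e _ => by ring)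
    rw [h5]
    exact sum_eq_zero (fun b _ => by rw [h4 b, zero_mul])
  · have h5 : ∑ e ∈ E, ∑ f ∈ E, κ e * κ f * cr e f
        = ∑ b, ((∑ e ∈ E, κ e * a b e) * (∑ f ∈ E, κ f * c b f)
          + (∑ e ∈ E, κ e * c b e) * (∑ f ∈ E, κ f * a b f)) := by
      have h6 : ∀ e ∈ E, ∀ f ∈ E, κ e * κ f * cr e f
          = ∑ b, ((κ e * a b e) * (κ f * c b f) + (κ e * c b e) * (κ f * a b f)) := by
        intro e he f hf
        rw [hF.cross e he f hf, mul_sum]
        exact sum_congr rfl (fun b _ => by ring)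
      rw [sum_congr rfl (fun e he => sum_congr rfl (fun f hf => h6 e he f hf))]
      rw [sum_congr rfl (fun e _ => sum_comm), sum_comm]
      refine sum_congr rfl (fun b _ => ?_)
      rw [sum_mul_sum, sum_mul_sum, ← sum_add_distrib]
      exact sum_congr rfl (fun e _ => by rw [← sum_add_distrib])
    rw [h5]
    refine sum_eq_zero (fun b _ => ?_)
    rw [h4 b]
    ring

end Pool.Agent.MPafd87c
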