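import Pool.Agent.Lib.MP_afd87c_lc.BC.Stm

/-!
# BCN FAC: numbering of the vertices and factorization of the crossing matrix
-/

set_option autoImplicit false

namespace Pool.Agent.MPafd87c

private theorem FAC_alt {V : Type} {pos : V → ℝ} {a b c d : V} (h1 : pos a < pos b)
    (h2 : pos c < pos d) :
    Alt pos s(a, b) s(c, d) ↔ pos a < pos c ∧ pos c < pos b ∧ pos b < pos d := by
  constructor
  · rintro ⟨a', b', c', d', e1, e2, h3, h4, h5⟩
    rw [Sym2.eq_iff] at e1 e2
    rcases e1 with ⟨rfl, rfl⟩ | ⟨rfl, rfl⟩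
    · rcases e2 with ⟨rfl, rfl⟩ | ⟨rfl, rfl⟩
      · exact ⟨h3, h4, h5⟩
      · linarith
    · rcases e2 with ⟨rfl, rfl⟩ | ⟨rfl, rfl⟩ <;> linarith
  · rintro ⟨h3, h4, h5⟩
    exact ⟨a, b, c, d, rfl, rfl, h3, h4, h5⟩

private theorem FAC_num {V : Type} [Fintype V] (z : V) (pos : V → ℝ)
    (hinj : Function.Injective pos) :
    ∃ (n : ℕ) (σ : ℕ → V), (∀ i < n, σ i ≠ z) ∧
      (∀ i < n, ∀ j < n, i < j → pos (σ i) < pos (σ j)) ∧
      (∀ v, v ≠ z → ∃ i < n, σ i = v) := by
  classical
  let S : Finset ℝ := (Finset.univ.filter (fun v => v ≠ z)).image pos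
  have hmem : ∀ i : Fin S.card, ∃ v, v ≠ z ∧ pos v = S.orderEmbOfFin rfl i := by
    intro i
    have h := S.orderEmbOfFin_mem rfl i
    obtain ⟨v, hv, hv2⟩ := Finset.mem_image.mp h
    exact ⟨v, (Finset.mem_filter.mp hv).2, hv2⟩
  choose τ hτ1 hτ2 using hmem
  refine ⟨S.card, fun i => if h : i < S.card then τ ⟨i, h⟩ else z, ?_, ?_, ?_⟩
  · intro i hi
    simp only [hi, dite_true]
    exact hτ1 _
  · intro i hi j hj hij
    simp only [hi, hj, dite_true, hτ2]
    exact (S.orderEmbOfFin rfl).strictMono (by exact hij)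
  · intro v hv
    have h : pos v ∈ S := Finset.mem_image_of_mem _ (by simp [hv])
    have h2 : pos v ∈ Set.range (S.orderEmbOfFin rfl) := by
      rw [Finset.range_orderEmbOfFin]
      exact h
    obtain ⟨i, hi⟩ := h2
    refine ⟨i, i.2, ?_⟩
    simp only [i.2, dite_true]
    exact hinj ((hτ2 _).trans hi)

private theorem FAC_sum {k : ℕ} (p : Fin k → Prop) (x : Fin k → ℝ) (h1 : ∃! b, p b)
    (hx : ∀ b, p b → x b = 1) (hx' : ∀ b, ¬ p b → x b = 0) : ∑ b, x b = 1 := by
  obtain ⟨b, hb, hb2⟩ := h1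
  rw [Finset.sum_eq_single b]
  · exact hx b hb
  · intro c _ hc
    exact hx' c (fun h => hc (hb2 c h))
  · intro h
    exact absurd (Finset.mem_univ b) h

theorem p_FAC : S_FAC := by
  classical
  intro V _ G z pos hinj hz hadj
  obtain ⟨n, σ, hσz, hσm, hσs⟩ := FAC_num z pos hinj
  have hlt : ∀ i < n, ∀ j < n, (pos (σ i) < pos (σ j) ↔ i < j) := by
    intro i hi j hj
    constructor
    · intro h
      by_contra hij
      rcases eq_or_lt_of_le (not_lt.mp hij) with h2 | h2
      · subst h2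
        exact lt_irrefl _ h
      · exact lt_asymm h (hσm j hj i hi h2)
    · exact hσm i hi j hj
  refine ⟨n, σ, ((Finset.range n) ×ˢ (Finset.range n)).filter
    (fun p => p.1 < p.2 ∧ G.Adj (σ p.1) (σ p.2)), ?_, hσz, ?_, hσs, ?_, ?_⟩
  · refine ⟨?_, ?_⟩
    · intro e he
      exact (Finset.mem_filter.mp he).2.1
    · intro e he
      have h := (Finset.mem_filter.mp he).1
      rw [Finset.mem_product, Finset.mem_range, Finset.mem_range] at h
      exact h.2
  · intro i hi j hj hij
    by_contra hne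
    rcases lt_or_gt_of_ne hne with h | h
    · have h2 := hσm i hi j hj h
      rw [hij] at h2
      exact lt_irrefl _ h2
    · have h2 := hσm j hj i hi h
      rw [hij] at h2
      exact lt_irrefl _ h2
  · intro i j
    rw [Finset.mem_filter, Finset.mem_product, Finset.mem_range, Finset.mem_range]
    constructor
    · rintro ⟨⟨h1, h2⟩, h3, h4⟩
      exact ⟨h3, h2, h4⟩
    · rintro ⟨h1, h2, h3⟩
      exact ⟨⟨h1.trans h2, h2⟩, h1, h3⟩
  · intro k hBP
    obtain ⟨P, Q, hPQ, huniq⟩ := hBP
    -- two stars do not alternate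
    have hstar : ∀ v w : V, v ≠ z → w ≠ z → ¬ Alt pos s(z, v) s(z, w) := by
      intro v w hv hw h
      rw [FAC_alt (hz v hv) (hz w hw)] at h
      exact lt_irrefl _ h.1
    have hself : ∀ i < n, ∀ j < n, i < j → ¬ Alt pos s(σ i, σ j) s(σ i, σ j) := by
      intro i hi j hj hij h
      rw [FAC_alt (hσm i hi j hj hij) (hσm i hi j hj hij)] at h
      exact lt_irrefl _ h.1
    let hp : Fin k → Prop := fun b => ∃ w < n, s(z, σ w) ∈ P b
    let S : Fin k → Set (Sym2 V) := fun b => if hp b then P b else Q b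
    let T : Fin k → Set (Sym2 V) := fun b => if hp b then Q b else P b
    have hTS : ∀ b, ∀ e ∈ T b, ∀ f ∈ S b,
        e ∈ G.edgeSet ∧ f ∈ G.edgeSet ∧ (Alt pos e f ∨ Alt pos f e) := by
      intro b e he f hf
      by_cases h : hp b
      · simp only [T, S, h, if_true] at he hf
        obtain ⟨h1, h2, h3⟩ := hPQ b f hf e he
        exact ⟨h2, h1, h3.symm⟩
      · simp only [T, S, h, if_false] at he hf
        exact hPQ b e he f hf
    have hiff : ∀ b e f, ((e ∈ P b ∧ f ∈ Q b) ∨ (f ∈ P b ∧ e ∈ Q b)) ↔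
        ((e ∈ T b ∧ f ∈ S b) ∨ (e ∈ S b ∧ f ∈ T b)) := by
      intro b e f
      by_cases h : hp b
      · simp only [T, S, h, if_true]
        tauto
      · simp only [T, S, h, if_false]
        tauto
    have hnoT : ∀ b, ∀ e ∈ S b, ∀ w < n, s(z, σ w) ∉ T b := by
      intro b e he w hw hT
      by_cases h : hp b
      · obtain ⟨w', hw', h2⟩ := h
        have h3 : s(z, σ w') ∈ S b := by
          have h : hp b := ⟨w', hw', h2⟩
          simp only [S, h, if_true]
          exact h2
        rcases (hTS b _ hT _ h3).2.2 with h4 | h4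
        · exact hstar _ _ (hσz w hw) (hσz w' hw') h4
        · exact hstar _ _ (hσz w' hw') (hσz w hw) h4
      · have h2 : s(z, σ w) ∈ P b := by
          simp only [T, h, if_false] at hT
          exact hT
        exact h ⟨w, hw, h2⟩
    have hchord : ∀ e : ℕ × ℕ, e ∈ ((Finset.range n) ×ˢ (Finset.range n)).filter
        (fun p => p.1 < p.2 ∧ G.Adj (σ p.1) (σ p.2)) →
        e.1 < n ∧ e.2 < n ∧ e.1 < e.2 ∧ s(σ e.1, σ e.2) ∈ G.edgeSet := by
      intro e he
      rw [Finset.mem_filter, Finset.mem_product, Finset.mem_range, Finset.mem_range] at he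
      exact ⟨he.1.1, he.1.2, he.2.1, he.2.2⟩
    refine ⟨fun b e => if s(σ e.1, σ e.2) ∈ T b then 1 else 0,
      fun b e => if s(σ e.1, σ e.2) ∈ S b then 1 else 0,
      fun b w => if s(z, σ w) ∈ S b then 1 else 0, ?_, ?_⟩
    · -- stars
      intro e he w hw
      obtain ⟨h1, h2, h3, h4⟩ := hchord e he
      have hwe : s(z, σ w) ∈ G.edgeSet := hadj _ (hσz w hw)
      have haltiff : (Alt pos s(z, σ w) s(σ e.1, σ e.2) ∨ Alt pos s(σ e.1, σ e.2) s(z, σ w)) ↔
          (e.1 < w ∧ w < e.2) := by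
        rw [FAC_alt (hz _ (hσz w hw)) (hσm _ h1 _ h2 h3),
          FAC_alt (hσm _ h1 _ h2 h3) (hz _ (hσz w hw)), hlt _ h1 _ hw, hlt _ hw _ h2]
        constructor
        · rintro (h | h)
          · exact h.2
          · exact absurd h.1 (lt_asymm (hz _ (hσz _ h1)))
        · intro h
          exact Or.inl ⟨hz _ (hσz _ h1), h⟩
      by_cases hc : e.1 < w ∧ w < e.2
      · rw [if_pos hc]
        symm
        have halt := haltiff.mpr hc
        have hex : ∃! b, s(σ e.1, σ e.2) ∈ T b ∧ s(z, σ w) ∈ S b := by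
          have hgen : ∃! b, (s(σ e.1, σ e.2) ∈ T b ∧ s(z, σ w) ∈ S b) ∨
              (s(σ e.1, σ e.2) ∈ S b ∧ s(z, σ w) ∈ T b) := by
            rcases halt with h | h
            · obtain ⟨b, hb, hb2⟩ := huniq _ hwe _ h4 h
              refine ⟨b, ?_, ?_⟩
              · exact (hiff _ _ _).mp hb.symm
              · intro b' hb'
                exact hb2 b' ((hiff _ _ _).mpr hb').symm
            · obtain ⟨b, hb, hb2⟩ := huniq _ h4 _ hwe h
              refine ⟨b, ?_, ?_⟩
              · exact (hiff _ _ _).mp hb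
              · intro b' hb'
                exact hb2 b' ((hiff _ _ _).mpr hb')
          obtain ⟨b, hb, hb2⟩ := hgen
          refine ⟨b, ?_, ?_⟩
          · rcases hb with hb | hb
            · exact hb
            · exact absurd hb.2 (hnoT b _ hb.1 w hw)
          · intro b' hb'
            exact hb2 b' (Or.inl hb')
        refine FAC_sum _ _ hex ?_ ?_
        · rintro b ⟨hb1, hb2⟩
          simp only [hb1, hb2, if_true, mul_one]
        · intro b hb
          by_cases hb1 : s(σ e.1, σ e.2) ∈ T b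
          · have hb2 : s(z, σ w) ∉ S b := fun h => hb ⟨hb1, h⟩
            simp only [hb2, if_false, mul_zero]
          · simp only [hb1, if_false, zero_mul]
      · rw [if_neg hc]
        symm
        refine Finset.sum_eq_zero ?_
        intro b _
        by_cases hb1 : s(σ e.1, σ e.2) ∈ T b
        · have hb2 : s(z, σ w) ∉ S b := by
            intro h
            exact hc (haltiff.mp ((hTS b _ hb1 _ h).2.2).symm)
          simp only [hb2, if_false, mul_zero]
        · simp only [hb1, if_false, zero_mul]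
    · -- chords
      intro e he f hf
      obtain ⟨h1, h2, h3, h4⟩ := hchord e he
      obtain ⟨g1, g2, g3, g4⟩ := hchord f hf
      have haltiff : (Alt pos s(σ e.1, σ e.2) s(σ f.1, σ f.2) ∨
          Alt pos s(σ f.1, σ f.2) s(σ e.1, σ e.2)) ↔
          ((e.1 < f.1 ∧ f.1 < e.2 ∧ e.2 < f.2) ∨ (f.1 < e.1 ∧ e.1 < f.2 ∧ f.2 < e.2)) := by
        rw [FAC_alt (hσm _ h1 _ h2 h3) (hσm _ g1 _ g2 g3),
          FAC_alt (hσm _ g1 _ g2 g3) (hσm _ h1 _ h2 h3), hlt _ h1 _ g1, hlt _ g1 _ h2,
          hlt _ h2 _ g2, hlt _ g1 _ h1, hlt _ h1 _ g2, hlt _ g2 _ h2]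
      by_cases hc : (e.1 < f.1 ∧ f.1 < e.2 ∧ e.2 < f.2) ∨ (f.1 < e.1 ∧ e.1 < f.2 ∧ f.2 < e.2)
      · rw [cr, if_pos hc]
        symm
        have halt := haltiff.mpr hc
        have hex : ∃! b, (s(σ e.1, σ e.2) ∈ T b ∧ s(σ f.1, σ f.2) ∈ S b) ∨
            (s(σ e.1, σ e.2) ∈ S b ∧ s(σ f.1, σ f.2) ∈ T b) := by
          rcases halt with h | h
          · obtain ⟨b, hb, hb2⟩ := huniq _ h4 _ g4 h
            refine ⟨b, ?_, ?_⟩
            · exact (hiff _ _ _).mp hb
            · intro b' hb'
              exact hb2 b' ((hiff _ _ _).mpr hb')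
          · obtain ⟨b, hb, hb2⟩ := huniq _ g4 _ h4 h
            refine ⟨b, ?_, ?_⟩
            · exact (hiff _ _ _).mp hb.symm
            · intro b' hb'
              exact hb2 b' ((hiff _ _ _).mpr hb').symm
        refine FAC_sum _ _ hex ?_ ?_
        · rintro b (⟨hb1, hb2⟩ | ⟨hb1, hb2⟩)
          · have hb3 : s(σ e.1, σ e.2) ∉ S b := by
              intro h
              rcases (hTS b _ hb1 _ h).2.2 with h5 | h5 <;> exact hself _ h1 _ h2 h3 h5
            simp only [hb1, hb2, hb3, if_true, if_false, mul_one, zero_mul, add_zero]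
          · have hb3 : s(σ e.1, σ e.2) ∉ T b := by
              intro h
              rcases (hTS b _ h _ hb1).2.2 with h5 | h5 <;> exact hself _ h1 _ h2 h3 h5
            simp only [hb1, hb2, hb3, if_true, if_false, mul_one, zero_mul, zero_add]
        · intro b hb
          have hb1 : (if s(σ e.1, σ e.2) ∈ T b then (1 : ℝ) else 0) *
              (if s(σ f.1, σ f.2) ∈ S b then (1 : ℝ) else 0) = 0 := by
            by_cases hb1 : s(σ e.1, σ e.2) ∈ T b
            · have hb2 : s(σ f.1, σ f.2) ∉ S b := fun h => hb (Or.inl ⟨hb1, h⟩)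
              simp only [hb2, if_false, mul_zero]
            · simp only [hb1, if_false, zero_mul]
          have hb2 : (if s(σ e.1, σ e.2) ∈ S b then (1 : ℝ) else 0) *
              (if s(σ f.1, σ f.2) ∈ T b then (1 : ℝ) else 0) = 0 := by
            by_cases hb1 : s(σ e.1, σ e.2) ∈ S b
            · have hb2 : s(σ f.1, σ f.2) ∉ T b := fun h => hb (Or.inr ⟨hb1, h⟩)
              simp only [hb2, if_false, mul_zero]
            · simp only [hb1, if_false, zero_mul]
          change _ * _ + _ * _ = (0 : ℝ)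
          rw [hb1, hb2, add_zero]
      · rw [cr, if_neg hc]
        symm
        refine Finset.sum_eq_zero ?_
        intro b _
        have hb1 : (if s(σ e.1, σ e.2) ∈ T b then (1 : ℝ) else 0) *
            (if s(σ f.1, σ f.2) ∈ S b then (1 : ℝ) else 0) = 0 := by
          by_cases hb1 : s(σ e.1, σ e.2) ∈ T b
          · have hb2 : s(σ f.1, σ f.2) ∉ S b := fun h =>
              hc (haltiff.mp (hTS b _ hb1 _ h).2.2)
            simp only [hb2, if_false, mul_zero]
          · simp only [hb1, if_false, zero_mul]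
        have hb2 : (if s(σ e.1, σ e.2) ∈ S b then (1 : ℝ) else 0) *
            (if s(σ f.1, σ f.2) ∈ T b then (1 : ℝ) else 0) = 0 := by
          by_cases hb1 : s(σ e.1, σ e.2) ∈ S b
          · have hb2 : s(σ f.1, σ f.2) ∉ T b := fun h =>
              hc (haltiff.mp (hTS b _ h _ hb1).2.2.symm)
            simp only [hb2, if_false, mul_zero]
          · simp only [hb1, if_false, zero_mul]
        change _ * _ + _ * _ = (0 : ℝ)
        rw [hb1, hb2, add_zero]

end Pool.Agent.MPafd87c
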