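import Pool.Agent.Lib.MP_afd87c_lc.BC.Stm

/-!
# MP_afd87c_lc: flows on a line (piece FLW)
-/

set_option autoImplicit false

namespace Pool.Agent.MPafd87c

/-- The paths ending at `u`, as weights on the chords. -/
private structure FLW_P (n : ℕ) (E : Finset (ℕ × ℕ)) (u : ℕ) (α : ℕ × ℕ → ℝ) : Prop where
  nn : ∀ e, 0 ≤ α e
  sup : ∀ e, α e ≠ 0 → e ∈ E ∧ e.1 + 1 < e.2 ∧ e.2 ≤ u + 1
  nest : ∀ e f, α e ≠ 0 → α f ≠ 0 → ¬ (e.1 < f.1 ∧ f.2 ≤ e.2)
  flow : ∀ h ∈ II n E, ∑ e ∈ E, α e * dd h e = if h = u then -1 else 0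

private theorem FLW_step (n : ℕ) (E : Finset (ℕ × ℕ)) (u g : ℕ) (hug : u < g)
    (hE : (u, g + 1) ∈ E) (α : ℕ × ℕ → ℝ) (hα : FLW_P n E u α) :
    ∃ β : ℕ × ℕ → ℝ, FLW_P n E g β ∧ 1 ≤ β (u, g + 1) := by
  classical
  have key : ∀ e : ℕ × ℕ, (α e + if e = (u, g + 1) then (1 : ℝ) else 0) ≠ 0 →
      α e ≠ 0 ∨ e = (u, g + 1) := by
    intro e he
    by_cases h : e = (u, g + 1)
    · exact Or.inr h
    · left
      rw [if_neg h, add_zero] at he
      exact he
  refine ⟨fun e => α e + if e = (u, g + 1) then 1 else 0, ⟨?_, ?_, ?_, ?_⟩, ?_⟩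
  · intro e
    have h1 := hα.nn e
    split_ifs <;> linarith
  · intro e he
    rcases key e he with h | h
    · obtain ⟨h1, h2, h3⟩ := hα.sup e h
      exact ⟨h1, h2, by omega⟩
    · subst h
      exact ⟨hE, by dsimp only; omega, le_rfl⟩
  · intro e f he hf hn
    rcases key e he with h | h
    · rcases key f hf with k | k
      · exact hα.nest e f h k hn
      · subst k
        have h1 := (hα.sup e h).2.2
        have h2 := hn.2
        dsimp only at h2
        omega
    · rcases key f hf with k | k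
      · subst h
        obtain ⟨_, h2, h3⟩ := hα.sup f k
        have h4 := hn.1
        dsimp only at h4
        omega
      · subst h
        subst k
        exact lt_irrefl _ hn.1
  · intro h hh
    have h1 : ∑ e ∈ E, (α e + if e = (u, g + 1) then (1 : ℝ) else 0) * dd h e =
        ∑ e ∈ E, α e * dd h e + dd h (u, g + 1) := by
      have h2 : ∀ e ∈ E, (α e + if e = (u, g + 1) then (1 : ℝ) else 0) * dd h e =
          α e * dd h e + if e = (u, g + 1) then dd h e else 0 := by
        intro e _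
        split_ifs <;> ring
      rw [Finset.sum_congr rfl h2, Finset.sum_add_distrib, Finset.sum_ite_eq' E, if_pos hE]
    rw [h1, hα.flow h hh, dd]
    dsimp only
    by_cases h3 : h = u
    · subst h3
      rw [if_pos rfl, if_pos rfl, if_neg (by omega), if_neg (by omega)]
      norm_num
    · rw [if_neg h3, if_neg (fun k => h3 k.symm)]
      by_cases h4 : h = g
      · subst h4
        rw [if_pos rfl, if_pos rfl]
        norm_num
      · rw [if_neg (by omega), if_neg h4]
        norm_num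
  · dsimp only
    rw [if_pos rfl]
    linarith [hα.nn (u, g + 1)]

private theorem FLW_ex (n : ℕ) (E : Finset (ℕ × ℕ)) (u : ℕ) :
    ∃ α : ℕ × ℕ → ℝ, FLW_P n E u α := by
  induction u using Nat.strong_induction_on with
  | _ u ih =>
    by_cases hu : u ∈ II n E
    · have hu' := hu
      rw [II, Finset.mem_filter] at hu'
      obtain ⟨_, ⟨i, j⟩, he, hj, hi⟩ := hu'
      dsimp only at hj hi
      subst hj
      obtain ⟨α, hα⟩ := ih i hi
      obtain ⟨β, hβ, _⟩ := FLW_step n E i u hi he α hα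
      exact ⟨β, hβ⟩
    · refine ⟨fun _ => 0, ⟨fun _ => le_rfl, fun e he => absurd rfl he,
        fun e f he => absurd rfl he, ?_⟩⟩
      intro h hh
      have h1 : h ≠ u := by
        rintro rfl
        exact hu hh
      rw [if_neg h1]
      apply Finset.sum_eq_zero
      intro e _
      rw [zero_mul]

/-- sum of the differences below `p` -/
private theorem FLW_dd (e : ℕ × ℕ) (he : e.1 < e.2) (p : ℕ) :
    ∑ h ∈ Finset.range p, dd h e = if e.1 < p ∧ p < e.2 then 1 else 0 := by
  induction p with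
  | zero => simp
  | succ p ih =>
    rw [Finset.sum_range_succ, ih, dd]
    by_cases h1 : e.1 < p
    · by_cases h2 : p < e.2
      · rw [if_pos ⟨h1, h2⟩, if_neg (by omega : ¬ e.1 = p)]
        by_cases h3 : e.2 = p + 1
        · rw [if_pos h3, if_neg (by omega)]
          norm_num
        · rw [if_neg h3, if_pos (by omega)]
          norm_num
      · rw [if_neg (by omega), if_neg (by omega), if_neg (by omega), if_neg (by omega)]
        norm_num
    · rw [if_neg (by omega)]
      by_cases h2 : e.1 = p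
      · rw [if_pos h2]
        by_cases h3 : e.2 = p + 1
        · rw [if_pos h3, if_neg (by omega)]
          norm_num
        · rw [if_neg h3, if_pos (by omega)]
          norm_num
      · rw [if_neg h2, if_neg (by omega), if_neg (by omega)]
        norm_num

/-- nesting -/
private def FLW_N (e f : ℕ × ℕ) : ℝ := if e.1 < f.1 ∧ f.2 ≤ e.2 then 1 else 0

private def FLW_x (e f : ℕ × ℕ) : ℝ := if e.1 < f.1 ∧ f.1 < e.2 ∧ e.2 < f.2 then 1 else 0

private theorem FLW_cr (e f : ℕ × ℕ) : cr e f = FLW_x e f + FLW_x f e := by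
  rw [cr, FLW_x, FLW_x]
  by_cases h1 : e.1 < f.1 ∧ f.1 < e.2 ∧ e.2 < f.2
  · rw [if_pos (Or.inl h1), if_pos h1, if_neg (by omega)]
    norm_num
  · by_cases h2 : f.1 < e.1 ∧ e.1 < f.2 ∧ f.2 < e.2
    · rw [if_pos (Or.inr h2), if_neg h1, if_pos h2]
      norm_num
    · rw [if_neg (by tauto), if_neg h1, if_neg h2]
      norm_num

private theorem FLW_xN (e f : ℕ × ℕ) (hf : f.1 < f.2) :
    FLW_x e f = (if e.1 < f.1 ∧ f.1 < e.2 then 1 else 0) - FLW_N e f := by
  rw [FLW_x, FLW_N]
  by_cases h1 : e.1 < f.1 ∧ f.1 < e.2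
  · rw [if_pos h1]
    by_cases h2 : e.2 < f.2
    · rw [if_pos ⟨h1.1, h1.2, h2⟩, if_neg (by omega)]
      norm_num
    · rw [if_neg (by omega), if_pos (by omega)]
      norm_num
  · rw [if_neg h1, if_neg (by omega), if_neg (by omega)]
    norm_num

private theorem FLW_main (n : ℕ) (E : Finset (ℕ × ℕ)) (hE : Ch n E) (κ : ℕ × ℕ → ℝ)
    (h0 : ∀ h, h + 1 < n → ∑ e ∈ E, κ e * dd h e = 0) :
    ∑ e ∈ E, ∑ f ∈ E, κ e * κ f * cr e f =
      - 2 * ∑ e ∈ E, ∑ f ∈ E, κ e * κ f * FLW_N e f := by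
  have h1 : ∀ h, ∑ e ∈ E, κ e * dd h e = 0 := by
    intro h
    by_cases hh : h + 1 < n
    · exact h0 h hh
    · apply Finset.sum_eq_zero
      intro e he
      have h2 := hE.lt e he
      have h3 := hE.le e he
      rw [dd, if_neg (by omega), if_neg (by omega)]
      ring
  have h2 : ∀ p, ∑ e ∈ E, κ e * (if e.1 < p ∧ p < e.2 then 1 else 0) = 0 := by
    intro p
    have h3 : ∑ e ∈ E, κ e * (if e.1 < p ∧ p < e.2 then (1 : ℝ) else 0) =
        ∑ h ∈ Finset.range p, ∑ e ∈ E, κ e * dd h e := by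
      rw [Finset.sum_comm]
      apply Finset.sum_congr rfl
      intro e he
      rw [← FLW_dd e (hE.lt e he) p, Finset.mul_sum]
    rw [h3]
    exact Finset.sum_eq_zero fun h _ => h1 h
  have h3 : ∀ f ∈ E, ∑ e ∈ E, κ e * FLW_x e f = - ∑ e ∈ E, κ e * FLW_N e f := by
    intro f hf
    have h4 : ∀ e ∈ E, κ e * FLW_x e f =
        κ e * (if e.1 < f.1 ∧ f.1 < e.2 then 1 else 0) - κ e * FLW_N e f := by
      intro e _
      rw [FLW_xN e f (hE.lt f hf)]
      ring
    rw [Finset.sum_congr rfl h4, Finset.sum_sub_distrib, h2 f.1, zero_sub]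
  have h4 : ∑ e ∈ E, ∑ f ∈ E, κ e * κ f * FLW_x e f =
      - ∑ e ∈ E, ∑ f ∈ E, κ e * κ f * FLW_N e f := by
    rw [Finset.sum_comm, Finset.sum_comm (f := fun e f => κ e * κ f * FLW_N e f),
      ← Finset.sum_neg_distrib]
    apply Finset.sum_congr rfl
    intro f hf
    have h5 := congrArg (fun x => κ f * x) (h3 f hf)
    rw [mul_neg, Finset.mul_sum, Finset.mul_sum] at h5
    calc ∑ e ∈ E, κ e * κ f * FLW_x e f = ∑ e ∈ E, κ f * (κ e * FLW_x e f) := by
          apply Finset.sum_congr rfl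
          intro e _
          ring
      _ = - ∑ e ∈ E, κ f * (κ e * FLW_N e f) := h5
      _ = - ∑ e ∈ E, κ e * κ f * FLW_N e f := by
          congr 1
          apply Finset.sum_congr rfl
          intro e _
          ring
  have h5 : ∑ e ∈ E, ∑ f ∈ E, κ e * κ f * FLW_x f e =
      ∑ e ∈ E, ∑ f ∈ E, κ e * κ f * FLW_x e f := by
    rw [Finset.sum_comm]
    apply Finset.sum_congr rfl
    intro e _
    apply Finset.sum_congr rfl
    intro f _
    ring
  have h6 : ∑ e ∈ E, ∑ f ∈ E, κ e * κ f * cr e f =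
      ∑ e ∈ E, ∑ f ∈ E, κ e * κ f * FLW_x e f + ∑ e ∈ E, ∑ f ∈ E, κ e * κ f * FLW_x f e := by
    rw [← Finset.sum_add_distrib]
    apply Finset.sum_congr rfl
    intro e _
    rw [← Finset.sum_add_distrib]
    apply Finset.sum_congr rfl
    intro f _
    rw [FLW_cr]
    ring
  rw [h6, h5, h4]
  ring

private theorem FLW_Nnn (e f : ℕ × ℕ) : 0 ≤ FLW_N e f := by
  rw [FLW_N]
  split_ifs <;> norm_num

theorem p_FLW : S_FLW := by
  intro n E hE a b g hab hbg ha hb
  obtain ⟨α₀, hα₀⟩ := FLW_ex n E a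
  obtain ⟨β₀, hβ₀⟩ := FLW_ex n E b
  obtain ⟨α, hα, hα1⟩ := FLW_step n E a g (hab.trans hbg) ha α₀ hα₀
  obtain ⟨β, hβ, hβ1⟩ := FLW_step n E b g hbg hb β₀ hβ₀
  refine ⟨fun e => α e - β e, ?_, ?_⟩
  · intro h hh
    have h1 : ∀ e ∈ E, (α e - β e) * dd h e = α e * dd h e - β e * dd h e := by
      intro e _
      ring
    rw [Finset.sum_congr rfl h1, Finset.sum_sub_distrib, hα.flow h hh, hβ.flow h hh, sub_self]
  · intro h0
    rw [FLW_main n E hE _ h0]
    have hAA : ∀ (γ : ℕ × ℕ → ℝ), FLW_P n E g γ → ∀ e f, γ e * γ f * FLW_N e f = 0 := by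
      intro γ hγ e f
      by_cases he : γ e = 0
      · rw [he, zero_mul, zero_mul]
      · by_cases hf : γ f = 0
        · rw [hf, mul_zero, zero_mul]
        · rw [FLW_N, if_neg (hγ.nest e f he hf), mul_zero]
    have h1 : ∀ e f, (α e - β e) * (α f - β f) * FLW_N e f =
        - (α e * β f * FLW_N e f + β e * α f * FLW_N e f) := by
      intro e f
      have h2 := hAA α hα e f
      have h3 := hAA β hβ e f
      linear_combination h2 + h3
    have h2 : ∑ e ∈ E, ∑ f ∈ E, (α e - β e) * (α f - β f) * FLW_N e f =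
        - ∑ e ∈ E, ∑ f ∈ E, (α e * β f * FLW_N e f + β e * α f * FLW_N e f) := by
      rw [← Finset.sum_neg_distrib]
      apply Finset.sum_congr rfl
      intro e _
      rw [← Finset.sum_neg_distrib]
      apply Finset.sum_congr rfl
      intro f _
      exact h1 e f
    have h3 : ∀ e f, 0 ≤ α e * β f * FLW_N e f + β e * α f * FLW_N e f := by
      intro e f
      have := hα.nn e
      have := hα.nn f
      have := hβ.nn e
      have := hβ.nn f
      have := FLW_Nnn e f
      positivity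
    have h4 : (1 : ℝ) ≤ α (a, g + 1) * β (b, g + 1) * FLW_N (a, g + 1) (b, g + 1) +
        β (a, g + 1) * α (b, g + 1) * FLW_N (a, g + 1) (b, g + 1) := by
      have h5 : FLW_N (a, g + 1) (b, g + 1) = 1 := by
        rw [FLW_N, if_pos ⟨hab, le_rfl⟩]
      rw [h5]
      have h6 := mul_nonneg (hβ.nn (a, g + 1)) (hα.nn (b, g + 1))
      have h7 : (1 : ℝ) ≤ α (a, g + 1) * β (b, g + 1) := one_le_mul_of_one_le_of_one_le hα1 hβ1
      linarith
    have h5 : (1 : ℝ) ≤ ∑ e ∈ E, ∑ f ∈ E,
        (α e * β f * FLW_N e f + β e * α f * FLW_N e f) := by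
      refine h4.trans ?_
      refine le_trans ?_ (Finset.single_le_sum (f := fun e => ∑ f ∈ E,
        (α e * β f * FLW_N e f + β e * α f * FLW_N e f))
        (fun e _ => Finset.sum_nonneg fun f _ => h3 e f) ha)
      exact Finset.single_le_sum (f := fun f =>
        (α (a, g + 1) * β f * FLW_N (a, g + 1) f + β (a, g + 1) * α f * FLW_N (a, g + 1) f))
        (fun f _ => h3 (a, g + 1) f) hb
    rw [h2]
    intro h6
    linarith

end Pool.Agent.MPafd87c
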