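import Pool.Agent.Lib.MP_afd87c_lc.BC.Stm2

/-!
# Bundled crossings, piece FP: the reduction can be computed in polynomial time
-/

set_option autoImplicit false

namespace Pool.Agent.MPafd87c

open Function CookLevin HerCo N68a2faeb
open Pool.Agent.Lib.MP_e32f22_lc (wd nv pl)

/-! ### The list of edges in terms of numbers -/

/-- the slots below `n` with the literal `l` -/
def FP_oc (L : List (ℕ × Bool)) (n : ℕ) (l : ℕ × Bool) : List ℕ :=
  (List.range n).filter fun t => decide (L.getD t (0, true) = l)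

/-- the slots after `t` with the same literal -/
def FP_oa (M : ℕ) (L : List (ℕ × Bool)) (t : ℕ) : List ℕ :=
  (List.range (3 * M)).filter fun t' =>
    decide (t < t' ∧ L.getD t' (0, true) = L.getD t (0, true))

/-- the first slot of a literal -/
def FP_fst (M : ℕ) (L : List (ℕ × Bool)) (l : ℕ × Bool) : ℕ := (FP_oc L (3 * M) l).getD 0 0

/-- the last slot of a literal -/
def FP_lst (M : ℕ) (L : List (ℕ × Bool)) (l : ℕ × Bool) : ℕ :=
  (FP_oc L (3 * M) l).getD ((FP_oc L (3 * M) l).length - 1) 0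

/-- the vertex before the ladder `t` on its route -/
def FP_prv (L : List (ℕ × Bool)) (t : ℕ) : ℕ :=
  if (FP_oc L t (L.getD t (0, true))).length = 0 then 16 * (L.getD t (0, true)).1 + 3
  else 16 * (4 * (FP_oc L t (L.getD t (0, true))).getD
    ((FP_oc L t (L.getD t (0, true))).length - 1) 0 + 3) + 14

/-- the vertex after the ladder `t` on its route -/
def FP_nxt (M : ℕ) (L : List (ℕ × Bool)) (t : ℕ) : ℕ :=
  if (FP_oa M L t).length = 0 then 16 * (L.getD t (0, true)).1 + 4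
  else 16 * (4 * (FP_oa M L t).getD 0 0 + 0) + 14

/-- the edges at a vertex -/
def FP_pt (u : ℕ) (l : List ℕ) : List (ℕ × ℕ) := (0, u) :: l.map fun v => (u, v)

/-- the edges at the vertices of a variable -/
def FP_b1 (N M : ℕ) (L : List (ℕ × Bool)) (i : ℕ) : List (ℕ × ℕ) :=
  FP_pt (16 * i + 3) [if i = 0 then 1 else 16 * (i - 1) + 5,
      16 * (4 * FP_fst M L (i, true) + 0) + 14, 16 * (4 * FP_fst M L (i, false) + 0) + 14] ++
    (FP_pt (16 * i + 4) [16 * i + 5, 16 * (4 * FP_lst M L (i, true) + 3) + 14,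
      16 * (4 * FP_lst M L (i, false) + 3) + 14] ++
    FP_pt (16 * i + 5) [16 * i + 4, if i + 1 < N then 16 * (i + 1) + 3 else 16 * 0 + 6])

/-- the edges at the vertices of a triple -/
def FP_b2 (N M : ℕ) (j : ℕ) : List (ℕ × ℕ) :=
  FP_pt (16 * j + 6) [if j = 0 then 16 * (N - 1) + 5 else 16 * (j - 1) + 8,
      16 * (4 * (3 * j) + 3) + 15, 16 * j + 12] ++
    (FP_pt (16 * j + 7) [16 * j + 9, 16 * j + 10, 16 * j + 8] ++
    (FP_pt (16 * j + 8) [16 * j + 7, if j + 1 < M then 16 * (j + 1) + 6 else 2] ++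
    (FP_pt (16 * j + 9) [16 * (4 * (3 * j + 1) + 3) + 15, 16 * j + 7, 16 * j + 12] ++
    (FP_pt (16 * j + 10) [16 * (4 * (3 * j + 2) + 3) + 15, 16 * j + 7, 16 * j + 12] ++
    (FP_pt (16 * j + 11) [16 * (4 * (3 * j) + 0) + 15, 16 * (4 * (3 * j + 1) + 0) + 15,
      16 * (4 * (3 * j + 2) + 0) + 15] ++
    FP_pt (16 * j + 12) [16 * j + 6, 16 * j + 9, 16 * j + 10])))))

/-- the edges at the vertices of a ladder -/
def FP_b3 (M : ℕ) (L : List (ℕ × Bool)) (t k : ℕ) : List (ℕ × ℕ) :=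
  FP_pt (16 * (4 * t + k) + 13) [16 * (4 * t + k) + 14, 16 * (4 * t + k) + 15] ++
    (FP_pt (16 * (4 * t + k) + 14) [if k = 0 then FP_prv L t else 16 * (4 * t + (k - 1)) + 14,
      if k = 3 then FP_nxt M L t else 16 * (4 * t + (k + 1)) + 14, 16 * (4 * t + k) + 13] ++
    FP_pt (16 * (4 * t + k) + 15) [if k = 0 then 16 * (t / 3) + 11
      else 16 * (4 * t + (k - 1)) + 15,
      if k = 3 then (if t % 3 = 0 then 16 * (t / 3) + 6 else if t % 3 = 1
        then 16 * (t / 3) + 9 else 16 * (t / 3) + 10) else 16 * (4 * t + (k + 1)) + 15,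
      16 * (4 * t + k) + 13])

/-- the list of edges -/
def FP_all (N M : ℕ) (L : List (ℕ × Bool)) : List (ℕ × ℕ) :=
  FP_pt 1 [3] ++ (List.range N).flatMap (fun i => FP_b1 N M L i) ++
    (List.range M).flatMap (fun j => FP_b2 N M j) ++
    (List.range (3 * M)).flatMap (fun t => (List.range 4).flatMap fun k => FP_b3 M L t k) ++
    FP_pt 2 [16 * (M - 1) + 8]

private theorem FP_e_s : code .s = 1 := rfl

private theorem FP_e_e : code .e = 2 := rfl

private theorem FP_e_A (i : ℕ) : code (.A i) = 16 * i + 3 := rfl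

private theorem FP_e_B (i : ℕ) : code (.B i) = 16 * i + 4 := rfl

private theorem FP_e_m (i : ℕ) : code (.m i) = 16 * i + 5 := rfl

private theorem FP_e_X (j : ℕ) : code (.X j) = 16 * j + 6 := rfl

private theorem FP_e_Y (j : ℕ) : code (.Y j) = 16 * j + 7 := rfl

private theorem FP_e_w (j : ℕ) : code (.w j) = 16 * j + 8 := rfl

private theorem FP_e_a (j : ℕ) : code (.a j) = 16 * j + 9 := rfl

private theorem FP_e_b (j : ℕ) : code (.b j) = 16 * j + 10 := rfl

private theorem FP_e_c (j : ℕ) : code (.c j) = 16 * j + 11 := rfl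

private theorem FP_e_d (j : ℕ) : code (.d j) = 16 * j + 12 := rfl

private theorem FP_e_r (t k : ℕ) : code (.r t k) = 16 * (4 * t + k) + 13 := rfl

private theorem FP_e_x (t k : ℕ) : code (.x t k) = 16 * (4 * t + k) + 14 := rfl

private theorem FP_e_y (t k : ℕ) : code (.y t k) = 16 * (4 * t + k) + 15 := rfl

theorem FP_prv_eq (I : X3) (t : ℕ) : code (I.prv t) = FP_prv I.lit t := by
  show code (if _ then _ else _) = _
  rw [apply_ite code]
  rfl

theorem FP_nxt_eq (I : X3) (t : ℕ) : code (I.nxt t) = FP_nxt I.M I.lit t := by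
  show code (if _ then _ else _) = _
  rw [apply_ite code]
  rfl

theorem FP_all_eq (I : X3) : lst I.vs I.nb code = FP_all I.N I.M I.lit := by
  have key : ∀ u, ((0, code u) :: (I.nb u).map fun v => (code u, code v))
      = FP_pt (code u) ((I.nb u).map code) := by
    intro u
    unfold FP_pt
    rw [List.map_map]
    rfl
  unfold lst X3.vs FP_all
  simp only [List.flatMap_append, List.flatMap_assoc]
  congr 1
  · congr 1
    · congr 1
      · congr 1
        refine List.flatMap_congr fun i _ => ?_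
        simp only [List.flatMap_cons, List.flatMap_nil, List.append_nil, key]
        unfold FP_b1
        simp only [X3.nb, List.map_cons, List.map_nil, apply_ite code, FP_e_s, FP_e_e, FP_e_A, FP_e_B, FP_e_m, FP_e_X, FP_e_Y, FP_e_w,
          FP_e_a, FP_e_b, FP_e_c, FP_e_d, FP_e_r, FP_e_x, FP_e_y]
        rfl
      · refine List.flatMap_congr fun j _ => ?_
        simp only [List.flatMap_cons, List.flatMap_nil, List.append_nil, key]
        unfold FP_b2
        simp only [X3.nb, List.map_cons, List.map_nil, apply_ite code, FP_e_s, FP_e_e, FP_e_A, FP_e_B, FP_e_m, FP_e_X, FP_e_Y, FP_e_w,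
          FP_e_a, FP_e_b, FP_e_c, FP_e_d, FP_e_r, FP_e_x, FP_e_y]
    · refine List.flatMap_congr fun t _ => List.flatMap_congr fun k _ => ?_
      simp only [List.flatMap_cons, List.flatMap_nil, List.append_nil, key]
      unfold FP_b3
      simp only [X3.nb, List.map_cons, List.map_nil, apply_ite code, FP_prv_eq, FP_nxt_eq, FP_e_s, FP_e_e, FP_e_A, FP_e_B, FP_e_m, FP_e_X, FP_e_Y, FP_e_w,
          FP_e_a, FP_e_b, FP_e_c, FP_e_d, FP_e_r, FP_e_x, FP_e_y]

/-! ### Computability -/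

variable {α : Type} [Enc α] {m : Mode}

@[fun_prop]
theorem FP_c_oc {L : α → List (ℕ × Bool)} {n : α → ℕ} {l : α → ℕ × Bool} (hL : FP m L)
    (hn : FP m n) (hl : FP m l) : FP m (fun a => FP_oc (L a) (n a) (l a)) := by
  unfold FP_oc
  fun_prop

@[fun_prop]
theorem FP_c_oa {M : α → ℕ} {L : α → List (ℕ × Bool)} {t : α → ℕ} (hM : FP m M)
    (hL : FP m L) (ht : FP m t) : FP m (fun a => FP_oa (M a) (L a) (t a)) := by
  unfold FP_oa
  fun_prop

@[fun_prop]
theorem FP_c_fst {M : α → ℕ} {L : α → List (ℕ × Bool)} {l : α → ℕ × Bool} (hM : FP m M)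
    (hL : FP m L) (hl : FP m l) : FP m (fun a => FP_fst (M a) (L a) (l a)) := by
  unfold FP_fst
  fun_prop

@[fun_prop]
theorem FP_c_lst {M : α → ℕ} {L : α → List (ℕ × Bool)} {l : α → ℕ × Bool} (hM : FP m M)
    (hL : FP m L) (hl : FP m l) : FP m (fun a => FP_lst (M a) (L a) (l a)) := by
  unfold FP_lst
  fun_prop

@[fun_prop]
theorem FP_c_prv {L : α → List (ℕ × Bool)} {t : α → ℕ}
    (hL : FP m L) (ht : FP m t) : FP m (fun a => FP_prv (L a) (t a)) := by
  unfold FP_prv
  fun_prop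

@[fun_prop]
theorem FP_c_nxt {M : α → ℕ} {L : α → List (ℕ × Bool)} {t : α → ℕ} (hM : FP m M)
    (hL : FP m L) (ht : FP m t) : FP m (fun a => FP_nxt (M a) (L a) (t a)) := by
  unfold FP_nxt
  fun_prop

@[fun_prop]
theorem FP_c_pt {u : α → ℕ} {l : α → List ℕ} (hu : FP m u) (hl : FP m l) :
    FP m (fun a => FP_pt (u a) (l a)) := by
  unfold FP_pt
  fun_prop

@[fun_prop]
theorem FP_c_b1 {N M : α → ℕ} {L : α → List (ℕ × Bool)} {i : α → ℕ} (hN : FP m N)
    (hM : FP m M) (hL : FP m L) (hi : FP m i) : FP m (fun a => FP_b1 (N a) (M a) (L a) (i a)) := by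
  unfold FP_b1
  fun_prop

@[fun_prop]
theorem FP_c_b2 {N M : α → ℕ} {j : α → ℕ} (hN : FP m N)
    (hM : FP m M) (hj : FP m j) : FP m (fun a => FP_b2 (N a) (M a) (j a)) := by
  unfold FP_b2
  fun_prop

@[fun_prop]
theorem FP_c_b3 {M : α → ℕ} {L : α → List (ℕ × Bool)} {t k : α → ℕ}
    (hM : FP m M) (hL : FP m L) (ht : FP m t) (hk : FP m k) :
    FP m (fun a => FP_b3 (M a) (L a) (t a) (k a)) := by
  have h1 : FP m (fun a => t a / 3) := FP.div ht (FP.const 3)
  have h2 : FP m (fun a => t a % 3) := FP.mod ht (FP.const 3)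
  unfold FP_b3
  fun_prop

@[fun_prop]
theorem FP_c_all {N M : α → ℕ} {L : α → List (ℕ × Bool)} (hN : FP m N)
    (hM : FP m M) (hL : FP m L) : FP m (fun a => FP_all (N a) (M a) (L a)) := by
  unfold FP_all
  fun_prop

@[fun_prop]
theorem FP_c_pl {φ : α → Cnf} {j i : α → ℕ} (hφ : FP m φ) (hj : FP m j) (hi : FP m i) :
    FP m (fun a => pl (φ a) (j a) (i a)) := by
  unfold pl
  fun_prop

@[fun_prop]
theorem FP_c_slot {w n j i : α → ℕ} {l : α → ℕ × Bool} (hw : FP m w) (hn : FP m n)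
    (hl : FP m l) (hj : FP m j) (hi : FP m i) :
    FP m (fun a => slot (w a) (n a) (l a) (j a) (i a)) := by
  unfold slot
  fun_prop

@[fun_prop]
theorem FP_c_nvar {φ : α → Cnf} (hφ : FP m φ) : FP m (fun a => nvar (φ a)) := by
  have h1 : FP m (fun a => nv (φ a)) := Pool.Agent.Lib.MP_e32f22_lc.FP.nv hφ
  have h2 : FP m (fun a => wd (φ a)) := Pool.Agent.Lib.MP_e32f22_lc.FP.wd hφ
  unfold nvar
  fun_prop

theorem FP_c_lit {φ : α → Cnf} (hφ : FP m φ) : FP m (fun a => (x3 (φ a)).lit) := by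
  have h1 : FP m (fun a => nv (φ a)) := Pool.Agent.Lib.MP_e32f22_lc.FP.nv hφ
  have h2 : FP m (fun a => wd (φ a)) := Pool.Agent.Lib.MP_e32f22_lc.FP.wd hφ
  unfold x3
  fun_prop

theorem FP_c_M {φ : α → Cnf} (hφ : FP m φ) : FP m (fun a => (x3 (φ a)).M) := by
  have h2 : FP m (fun a => wd (φ a)) := Pool.Agent.Lib.MP_e32f22_lc.FP.wd hφ
  unfold x3
  fun_prop

theorem FP_c_N {φ : α → Cnf} (hφ : FP m φ) : FP m (fun a => (x3 (φ a)).N) := by
  unfold x3
  fun_prop

theorem p_FP : S_FP := by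
  intro f hf
  constructor
  · have h1 : FP .poly (fun x => (lst (x3 (f x)).vs (x3 (f x)).nb code).map
        fun p => (BN.mk p.1, BN.mk p.2)) := by
      simp only [FP_all_eq]
      have h2 := FP_c_N hf
      have h3 := FP_c_M hf
      have h4 := FP_c_lit hf
      fun_prop
    exact HerCo.Cp.toTM2 (HerCo.Cp.of_eq h1 (fun x => (HerCo.encode_list x).symm)
      fun x => agree_list (agree_pair (f := BN.mk) (g := BN.mk) (fun _ => rfl) fun _ => rfl) _)
  · have h1 : FP .poly (fun x => (x3 (f x)).N + 15 * (x3 (f x)).M) := by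
      have h2 := FP_c_N hf
      have h3 := FP_c_M hf
      fun_prop
    exact HerCo.Cp.toTM2 (HerCo.Cp.of_eq (FP.bn h1)
      (fun x => (HerCo.encode_list x).symm) fun _ => rfl)

end Pool.Agent.MPafd87c
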