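import Pool.Agent.Lib.MP_afd87c_lc.BC.Stm

/-!
# MP_afd87c_lc, piece HSK: the number of edges which are not in the path
-/

set_option autoImplicit false

namespace Pool.Agent.MPafd87c

open Finset

private theorem HSK_ncard {V : Type} (n : ℕ) (σ : ℕ → V)
    (hinj : ∀ i < n, ∀ j < n, σ i = σ j → i = j) (S : Set V) (I : Finset ℕ)
    (hI : ∀ i ∈ I, i < n) (hS : ∀ v, v ∈ S ↔ ∃ i ∈ I, σ i = v) : S.ncard = I.card := by
  classical
  have h1 : S = ((I.image σ : Finset V) : Set V) := by
    ext v
    rw [hS v]
    simp
  rw [h1, Set.ncard_coe_finset, Finset.card_image_of_injOn]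
  intro i hi j hj hij
  exact hinj i (hI i hi) j (hI j hj) hij

private theorem HSK_count (n k : ℕ) (A : ℕ → ℕ → Prop) [∀ i j, Decidable (A i j)]
    (hs : ∀ i j, A i j → A j i) (hirr : ∀ i, ¬ A i i) (hp : ∀ i, i + 1 < n → A i (i + 1))
    (hd : ∀ i < n, 1 ≤ ((range n).filter (A i)).card ∧ ((range n).filter (A i)).card ≤ 3)
    (h1 : ((range n).filter fun i => ((range n).filter (A i)).card = 1).card = 2)
    (h3 : ((range n).filter fun i => ((range n).filter (A i)).card = 3).card = 2 * k) :
    ∑ i ∈ range n, ∑ j ∈ range n, (if i + 1 < j ∧ A i j then 1 else 0) = k := by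
  -- the sum of the degrees
  have hdeg : ∀ i, ((range n).filter (A i)).card = ∑ j ∈ range n, if A i j then 1 else 0 := by
    intro i
    rw [Finset.card_filter]
  have hsum1 : (∑ i ∈ range n, (((range n).filter (A i)).card : ℤ)) = 2 * n + 2 * k - 2 := by
    have h4 : ∀ i ∈ range n, (((range n).filter (A i)).card : ℤ)
        = 2 + (if ((range n).filter (A i)).card = 3 then 1 else 0)
          - (if ((range n).filter (A i)).card = 1 then 1 else 0) := by
      intro i hi
      obtain ⟨h5, h6⟩ := hd i (mem_range.1 hi)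
      generalize ((range n).filter (A i)).card = c at h5 h6
      interval_cases c <;> simp
    rw [Finset.sum_congr rfl h4, Finset.sum_sub_distrib, Finset.sum_add_distrib]
    have h7 : (∑ i ∈ range n, (if ((range n).filter (A i)).card = 3 then (1 : ℤ) else 0))
        = 2 * k := by
      rw [← Finset.sum_filter, Finset.sum_const, h3]
      simp
    have h8 : (∑ i ∈ range n, (if ((range n).filter (A i)).card = 1 then (1 : ℤ) else 0))
        = 2 := by
      rw [← Finset.sum_filter, Finset.sum_const, h1]
      simp
    rw [h7, h8, Finset.sum_const, card_range]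
    simp
    ring
  have hsplit : ∀ i j, (if A i j then 1 else 0 : ℕ)
      = (if i + 1 = j ∧ A i j then 1 else 0) + (if i + 1 < j ∧ A i j then 1 else 0)
        + ((if j + 1 = i ∧ A j i then 1 else 0) + (if j + 1 < i ∧ A j i then 1 else 0)) := by
    intro i j
    by_cases hA : A i j
    · have hA' : A j i := hs i j hA
      have hne : i ≠ j := by
        rintro rfl
        exact hirr i hA
      simp only [hA, hA', and_true, if_true]
      rcases lt_or_gt_of_ne hne with h | h
      · by_cases h' : i + 1 = j
        · simp [h', show ¬ (j < i) by omega, show ¬ (i + 1 < j) by omega,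
            show ¬ (j + 1 = i) by omega, show ¬ (j + 1 < i) by omega]
        · simp [h', show (i + 1 < j) by omega, show ¬ (j + 1 = i) by omega,
            show ¬ (j + 1 < i) by omega]
      · by_cases h' : j + 1 = i
        · simp [h', show ¬ (i + 1 = j) by omega, show ¬ (i + 1 < j) by omega,
            show ¬ (j + 1 < i) by omega]
        · simp [h', show ¬ (i + 1 = j) by omega, show ¬ (i + 1 < j) by omega,
            show (j + 1 < i) by omega]
    · have hA' : ¬ A j i := fun h => hA (hs j i h)
      simp [hA, hA']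
  have hpath : ∑ i ∈ range n, ∑ j ∈ range n, (if i + 1 = j ∧ A i j then 1 else 0) = n - 1 := by
    have h5 : ∀ i ∈ range n, ∑ j ∈ range n, (if i + 1 = j ∧ A i j then 1 else 0)
        = if i + 1 < n then 1 else 0 := by
      intro i _
      by_cases h : i + 1 < n
      · rw [if_pos h, Finset.sum_eq_single (i + 1)]
        · rw [if_pos ⟨rfl, hp i h⟩]
        · intro j _ hj
          rw [if_neg]
          exact fun h' => hj h'.1.symm
        · intro h'
          exact absurd (mem_range.2 h) h'
      · rw [if_neg h]
        apply Finset.sum_eq_zero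
        intro j hj
        rw [if_neg]
        rintro ⟨h', -⟩
        rw [← h'] at hj
        exact h (mem_range.1 hj)
    rw [Finset.sum_congr rfl h5, ← Finset.sum_filter, Finset.sum_const, smul_eq_mul, mul_one]
    have h6 : (range n).filter (fun i => i + 1 < n) = range (n - 1) := by
      ext i
      simp only [mem_filter, mem_range]
      omega
    rw [h6, card_range]
  have hcomm : ∀ B : ℕ → ℕ → ℕ, ∑ i ∈ range n, ∑ j ∈ range n, B j i
      = ∑ i ∈ range n, ∑ j ∈ range n, B i j := fun B => Finset.sum_comm
  have htot : ∑ i ∈ range n, ((range n).filter (A i)).card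
      = 2 * (n - 1) + 2 * ∑ i ∈ range n, ∑ j ∈ range n, (if i + 1 < j ∧ A i j then 1 else 0) := by
    have h9 : ∀ i ∈ range n, ((range n).filter (A i)).card
        = ∑ j ∈ range n, (if i + 1 = j ∧ A i j then 1 else 0)
          + ∑ j ∈ range n, (if i + 1 < j ∧ A i j then 1 else 0)
          + (∑ j ∈ range n, (if j + 1 = i ∧ A j i then 1 else 0)
            + ∑ j ∈ range n, (if j + 1 < i ∧ A j i then 1 else 0)) := by
      intro i _
      rw [hdeg i, ← Finset.sum_add_distrib, ← Finset.sum_add_distrib, ← Finset.sum_add_distrib]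
      exact Finset.sum_congr rfl fun j _ => hsplit i j
    rw [Finset.sum_congr rfl h9, Finset.sum_add_distrib, Finset.sum_add_distrib,
      Finset.sum_add_distrib, hcomm (fun i j => if i + 1 = j ∧ A i j then 1 else 0),
      hcomm (fun i j => if i + 1 < j ∧ A i j then 1 else 0), hpath]
    ring
  have hn : 1 ≤ n := by
    by_contra h
    have h' : n = 0 := by omega
    subst h'
    simp at h1
  have hcast : ((∑ i ∈ range n, ((range n).filter (A i)).card : ℕ) : ℤ) = 2 * n + 2 * k - 2 := by
    push_cast
    exact hsum1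
  rw [htot] at hcast
  push_cast [Nat.cast_sub hn] at hcast
  have hfin : ((∑ i ∈ range n, ∑ j ∈ range n, (if i + 1 < j ∧ A i j then 1 else 0) : ℕ) : ℤ)
      = k := by
    push_cast
    linarith
  exact_mod_cast hfin

/-- The number of edges which are not in the path. -/
theorem p_HSK : S_HSK := by
  classical
  intro V _ G z k hyp n σ hz hinj hsurj hpath
  have hnb : ∀ i < n, (G.neighborSet (σ i)).ncard
      = ((range n).filter fun j => G.Adj (σ i) (σ j)).card + 1 := by
    intro i hi
    have h1 : G.neighborSet (σ i) = insert z {v | v ≠ z ∧ G.Adj (σ i) v} := by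
      ext v
      simp only [SimpleGraph.mem_neighborSet, Set.mem_insert_iff, Set.mem_ofPred_eq]
      constructor
      · intro h
        by_cases hv : v = z
        · exact Or.inl hv
        · exact Or.inr ⟨hv, h⟩
      · rintro (h | h)
        · rw [h]
          exact (hyp.univ _ (hz i hi)).symm
        · exact h.2
    rw [h1, Set.ncard_insert_of_notMem (fun h => h.1 rfl) (Set.toFinite _)]
    congr 1
    apply HSK_ncard n σ hinj
    · intro j hj
      exact mem_range.1 (mem_filter.1 hj).1
    · intro v
      constructor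
      · rintro ⟨h2, h3⟩
        obtain ⟨j, hj, rfl⟩ := hsurj v h2
        exact ⟨j, mem_filter.2 ⟨mem_range.2 hj, h3⟩, rfl⟩
      · rintro ⟨j, hj, rfl⟩
        obtain ⟨h2, h3⟩ := mem_filter.1 hj
        exact ⟨hz j (mem_range.1 h2), h3⟩
  have hcl : ∀ c : ℕ, {v | v ≠ z ∧ (G.neighborSet v).ncard = c + 1}.ncard
      = ((range n).filter fun i =>
          ((range n).filter fun j => G.Adj (σ i) (σ j)).card = c).card := by
    intro c
    apply HSK_ncard n σ hinj
    · intro j hj
      exact mem_range.1 (mem_filter.1 hj).1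
    · intro v
      constructor
      · rintro ⟨h2, h3⟩
        obtain ⟨j, hj, rfl⟩ := hsurj v h2
        refine ⟨j, mem_filter.2 ⟨mem_range.2 hj, ?_⟩, rfl⟩
        rw [hnb j hj] at h3
        omega
      · rintro ⟨j, hj, rfl⟩
        obtain ⟨h2, h3⟩ := mem_filter.1 hj
        refine ⟨hz j (mem_range.1 h2), ?_⟩
        rw [hnb j (mem_range.1 h2), h3]
  have hset : {p : ℕ × ℕ | p.1 + 1 < p.2 ∧ p.2 < n ∧ G.Adj (σ p.1) (σ p.2)}
      = (((range n ×ˢ range n).filter fun p => p.1 + 1 < p.2 ∧ G.Adj (σ p.1) (σ p.2) :
          Finset (ℕ × ℕ)) : Set (ℕ × ℕ)) := by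
    ext p
    simp only [Set.mem_ofPred_eq, Finset.coe_filter, Finset.mem_product, mem_range]
    constructor
    · rintro ⟨h1, h2, h3⟩
      exact ⟨⟨by omega, h2⟩, h1, h3⟩
    · rintro ⟨⟨_, h2⟩, h1, h3⟩
      exact ⟨h1, h2, h3⟩
  rw [hset, Set.ncard_coe_finset, Finset.card_filter, Finset.sum_product]
  apply HSK_count n k (fun i j => G.Adj (σ i) (σ j))
  · intro i j h
    exact h.symm
  · intro i h
    exact G.loopless.irrefl _ h
  · exact hpath
  · intro i hi
    have h := hyp.deg (σ i) (hz i hi)
    rw [hnb i hi] at h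
    omega
  · rw [← hcl 1]
    exact hyp.leaves
  · rw [← hcl 3]
    exact hyp.three

end Pool.Agent.MPafd87c
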