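import Pool.Agent.Lib.MP_afd87c_lc.BC.Stm

/-!
# The lower bound (assembly)
-/

set_option autoImplicit false

namespace Pool.Agent.MPafd87c

/-- A partition into bundled crossings gives a partition of the alternating pairs. -/
private theorem LOW_bp {V : Type} {G : SimpleGraph V} (D : Layout G) (pos : V → ℝ) (k : ℕ)
    (hpos : ∀ e f, D.Cross e f ↔ e ∈ G.edgeSet ∧ f ∈ G.edgeSet ∧ (Alt pos e f ∨ Alt pos f e))
    (hD : D.BcLe k) : BP G pos k := by
  obtain ⟨P, Q, h1, h2⟩ := hD
  refine ⟨P, Q, ?_, ?_⟩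
  · intro i e he f hf
    exact (hpos e f).1 ((h1 i).2.2.2.1 e he f hf)
  · intro e he f hf hA
    exact h2 e f ((hpos e f).2 ⟨he, hf, Or.inl hA⟩)

/-- The degrees. -/
private theorem LOW_deg {V : Type} [Fintype V] (G : SimpleGraph V) (z : V) (n : ℕ) (σ : ℕ → V)
    (E : Finset (ℕ × ℕ)) (hE : Ch n E) (hz : ∀ i < n, σ i ≠ z)
    (hinj : ∀ i < n, ∀ j < n, σ i = σ j → i = j) (hsur : ∀ v, v ≠ z → ∃ i < n, σ i = v)
    (hadj : ∀ i j, (i, j) ∈ E ↔ i < j ∧ j < n ∧ G.Adj (σ i) (σ j))
    (huniv : ∀ v, v ≠ z → G.Adj z v) (i : ℕ) (hi : i < n) :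
    (G.neighborSet (σ i)).ncard = dg E i + 1 := by
  classical
  have hS : G.neighborSet (σ i) = insert z
      (σ '' (((Finset.range n).filter fun j => (i, j) ∈ E ∨ (j, i) ∈ E : Finset ℕ) : Set ℕ)) := by
    ext v
    simp only [SimpleGraph.mem_neighborSet, Set.mem_insert_iff, Set.mem_image, Finset.coe_filter,
      Finset.mem_range, Set.mem_ofPred_eq]
    constructor
    · intro hv
      by_cases hvz : v = z
      · exact Or.inl hvz
      · right
        obtain ⟨j, hj, rfl⟩ := hsur v hvz
        refine ⟨j, ⟨hj, ?_⟩, rfl⟩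
        rcases lt_trichotomy i j with h | h | h
        · exact Or.inl ((hadj i j).2 ⟨h, hj, hv⟩)
        · subst h
          exact absurd hv (G.irrefl)
        · exact Or.inr ((hadj j i).2 ⟨h, hi, hv.symm⟩)
    · rintro (rfl | ⟨j, ⟨hj, h | h⟩, rfl⟩)
      · exact (huniv _ (hz i hi)).symm
      · exact ((hadj i j).1 h).2.2
      · exact ((hadj j i).1 h).2.2.symm
  rw [hS, Set.ncard_insert_of_notMem, Set.InjOn.ncard_image, Set.ncard_coe_finset]
  · congr 1
    rw [Finset.filter_or, Finset.card_union_of_disjoint]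
    · unfold dg
      congr 1
      · refine Finset.card_bij (fun j _ => (i, j)) ?_ ?_ ?_
        · intro j hj
          simp only [Finset.mem_filter, Finset.mem_range] at hj
          simp only [Finset.mem_filter, and_true]
          exact hj.2
        · intro j _ j' _ h
          simpa using h
        · intro e he
          simp only [Finset.mem_filter] at he
          refine ⟨e.2, ?_, ?_⟩
          · simp only [Finset.mem_filter, Finset.mem_range]
            refine ⟨hE.le e he.1, ?_⟩
            rw [← he.2]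
            exact he.1
          · rw [← he.2]
      · refine Finset.card_bij (fun j _ => (j, i)) ?_ ?_ ?_
        · intro j hj
          simp only [Finset.mem_filter, Finset.mem_range] at hj
          simp only [Finset.mem_filter, and_true]
          exact hj.2
        · intro j _ j' _ h
          simpa using h
        · intro e he
          simp only [Finset.mem_filter] at he
          refine ⟨e.1, ?_, ?_⟩
          · simp only [Finset.mem_filter, Finset.mem_range]
            refine ⟨lt_trans (hE.lt e he.1) (hE.le e he.1), ?_⟩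
            rw [← he.2]
            exact he.1
          · rw [← he.2]
    · rw [Finset.disjoint_left]
      intro j hj hj'
      simp only [Finset.mem_filter] at hj hj'
      have h1 := hE.lt _ hj.2
      have h2 := hE.lt _ hj'.2
      simp only at h1 h2
      omega
  · intro a ha b hb h
    simp only [Finset.coe_filter, Finset.mem_range, Set.mem_ofPred_eq] at ha hb
    exact hinj a ha.1 b hb.1 h
  · rintro ⟨j, hj, h⟩
    simp only [Finset.coe_filter, Finset.mem_range, Set.mem_ofPred_eq] at hj
    exact hz j hj.1 h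

/-- The numbers of vertices of given degree. -/
private theorem LOW_cnt {V : Type} [Fintype V] (G : SimpleGraph V) (z : V) (n : ℕ) (σ : ℕ → V)
    (E : Finset (ℕ × ℕ)) (hz : ∀ i < n, σ i ≠ z)
    (hinj : ∀ i < n, ∀ j < n, σ i = σ j → i = j) (hsur : ∀ v, v ≠ z → ∃ i < n, σ i = v)
    (hdeg : ∀ i < n, (G.neighborSet (σ i)).ncard = dg E i + 1) (d : ℕ) :
    {v | v ≠ z ∧ (G.neighborSet v).ncard = d + 1}.ncard =
      ((Finset.range n).filter fun v => dg E v = d).card := by
  have hS : {v | v ≠ z ∧ (G.neighborSet v).ncard = d + 1} =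
      σ '' (((Finset.range n).filter fun v => dg E v = d : Finset ℕ) : Set ℕ) := by
    ext v
    simp only [Set.mem_ofPred_eq, Set.mem_image, Finset.coe_filter, Finset.mem_range]
    constructor
    · rintro ⟨hv, hd⟩
      obtain ⟨i, hi, rfl⟩ := hsur v hv
      refine ⟨i, ⟨hi, ?_⟩, rfl⟩
      have := hdeg i hi
      omega
    · rintro ⟨i, ⟨hi, hd⟩, rfl⟩
      refine ⟨hz i hi, ?_⟩
      rw [hdeg i hi, hd]
  rw [hS, Set.InjOn.ncard_image, Set.ncard_coe_finset]
  intro i hi j hj h
  simp only [Finset.coe_filter, Finset.mem_range, Set.mem_ofPred_eq] at hi hj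
  exact hinj i hi.1 j hj.1 h

/-- The Hamiltonian path. -/
private theorem LOW_path {V : Type} (G : SimpleGraph V) (z : V) (n : ℕ) (σ : ℕ → V)
    (hz : ∀ i < n, σ i ≠ z)
    (hinj : ∀ i < n, ∀ j < n, σ i = σ j → i = j) (hsur : ∀ v, v ≠ z → ∃ i < n, σ i = v)
    (h : ∀ v, v + 1 < n → G.Adj (σ v) (σ (v + 1))) : HP G z := by
  refine ⟨(List.range n).map σ, ?_, ?_, ?_⟩
  · refine List.Nodup.map_on ?_ List.nodup_range
    intro i hi j hj hij
    exact hinj i (List.mem_range.1 hi) j (List.mem_range.1 hj) hij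
  · intro v
    simp only [List.mem_map, List.mem_range]
    constructor
    · rintro ⟨i, hi, rfl⟩
      exact hz i hi
    · intro hv
      exact hsur v hv
  · rw [List.isChain_iff_getElem]
    intro i hi
    simp only [List.length_map, List.length_range] at hi
    simp only [List.getElem_map, List.getElem_range]
    exact h i hi

/-- The lower bound. -/
theorem p_LOW (h1 : S_TOP) (h2 : S_FAC) (h3 : S_DIM) (h4 : S_FLW) (h5 : S_CNT) : S_LOW := by
  intro V _ G z m hyp D k hD
  obtain ⟨pos, hp1, hp2, hp3⟩ := h1 D z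
  have hBP := LOW_bp D pos k hp3 hD
  obtain ⟨n, σ, E, hE, hz, hinj, hsur, hadj, hfac⟩ := h2 G z pos hp1 hp2 hyp.univ
  obtain ⟨a, c, t, hF⟩ := hfac k hBP
  obtain ⟨hI, hO, hκ⟩ := h3 n k E a c t hE hF
  have hdeg := LOW_deg G z n σ E hE hz hinj hsur hadj hyp.univ
  have hcnt := LOW_cnt G z n σ E hz hinj hsur hdeg
  have hd : ∀ v < n, 1 ≤ dg E v ∧ dg E v ≤ 3 := by
    intro v hv
    have h := hyp.deg (σ v) (hz v hv)
    rw [hdeg v hv] at h
    omega
  have hl : ((Finset.range n).filter fun v => dg E v = 1).card = 2 := by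
    rw [← hcnt 1]
    exact hyp.leaves
  have hm : ((Finset.range n).filter fun v => dg E v = 3).card = m := by
    rw [← hcnt 3]
    exact hyp.three
  obtain ⟨hA, hB⟩ := h5 n k E hE hd hl hI hO
  rw [hm] at hA hB
  refine ⟨hA, fun hmk => ?_⟩
  have hpath := hB hmk (fun hIk a' b g hab hbg hae hbe => by
    obtain ⟨κ, hκ1, hκ2⟩ := h4 n E hE a' b g hab hbg hae hbe
    obtain ⟨hκ3, hκ4⟩ := hκ hIk κ hκ1
    exact hκ2 hκ3 hκ4)
  exact LOW_path G z n σ hz hinj hsur fun v hv => ((hadj v (v + 1)).1 (hpath v hv)).2.2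

end Pool.Agent.MPafd87c
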