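import Pool.Agent.Lib.MP_afd87c_lc.BC.Stm
import Pool.Agent.Lib.MP_b2c03c_co.Miranda

/-!
# Two paths in the disk which join alternating points of the circle meet
-/

set_option autoImplicit false

namespace Pool.Agent.MPafd87c

/-- the extension of a path to the disk of radius `2` -/
noncomputable def MEET_ext (a b ta tb : ℝ) (γ : unitInterval → ℂ) (x : ℝ) : ℂ :=
  ((1 + max (-x) 0 + max (x - 1) 0 : ℝ) : ℂ) *
    Complex.exp (((max (-x) 0 * (ta - a) + max (x - 1) 0 * (tb - b) : ℝ) : ℂ) * Complex.I) *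
    γ (Set.projIcc 0 1 zero_le_one x)

theorem MEET_cont (a b ta tb : ℝ) (γ : unitInterval → ℂ) (h : Continuous γ) :
    Continuous (MEET_ext a b ta tb γ) := by
  unfold MEET_ext
  have h1 : Continuous fun x : ℝ => γ (Set.projIcc 0 1 zero_le_one x) :=
    h.comp continuous_projIcc
  have h2 : Continuous fun x : ℝ => ((1 + max (-x) 0 + max (x - 1) 0 : ℝ) : ℂ) := by
    apply Complex.continuous_ofReal.comp
    fun_prop
  have h3 : Continuous fun x : ℝ =>
      ((max (-x) 0 * (ta - a) + max (x - 1) 0 * (tb - b) : ℝ) : ℂ) := by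
    apply Complex.continuous_ofReal.comp
    fun_prop
  exact (h2.mul (Complex.continuous_exp.comp (h3.mul continuous_const))).mul h1

theorem MEET_neg {a b ta tb : ℝ} {γ : unitInterval → ℂ}
    (h0 : γ 0 = Complex.exp (a * Complex.I)) {x : ℝ} (hx : x ≤ 0) :
    MEET_ext a b ta tb γ x =
      ((1 - x : ℝ) : ℂ) * Complex.exp ((((1 + x) * a + (-x) * ta : ℝ) : ℂ) * Complex.I) := by
  unfold MEET_ext
  rw [Set.projIcc_of_le_left zero_le_one hx, max_eq_left (by linarith : (0 : ℝ) ≤ -x),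
    max_eq_right (by linarith : x - 1 ≤ 0)]
  have : γ ⟨0, Set.left_mem_Icc.2 zero_le_one⟩ = Complex.exp (a * Complex.I) := h0
  rw [this, mul_assoc, ← Complex.exp_add]
  congr 1
  · push_cast; ring
  · congr 1
    push_cast; ring

theorem MEET_pos {a b ta tb : ℝ} {γ : unitInterval → ℂ}
    (h1 : γ 1 = Complex.exp (b * Complex.I)) {x : ℝ} (hx : 1 ≤ x) :
    MEET_ext a b ta tb γ x =
      ((x : ℝ) : ℂ) * Complex.exp ((((2 - x) * b + (x - 1) * tb : ℝ) : ℂ) * Complex.I) := by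
  unfold MEET_ext
  rw [Set.projIcc_of_right_le zero_le_one hx, max_eq_right (by linarith : -x ≤ (0 : ℝ)),
    max_eq_left (by linarith : 0 ≤ x - 1)]
  have : γ ⟨1, Set.right_mem_Icc.2 zero_le_one⟩ = Complex.exp (b * Complex.I) := h1
  rw [this, mul_assoc, ← Complex.exp_add]
  congr 1
  · push_cast; ring
  · congr 1
    push_cast; ring

theorem MEET_mid {a b ta tb : ℝ} {γ : unitInterval → ℂ} {x : ℝ} (hx0 : 0 ≤ x) (hx1 : x ≤ 1) :
    MEET_ext a b ta tb γ x = γ ⟨x, hx0, hx1⟩ := by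
  unfold MEET_ext
  rw [Set.projIcc_of_mem zero_le_one ⟨hx0, hx1⟩, max_eq_right (by linarith : -x ≤ (0 : ℝ)),
    max_eq_right (by linarith : x - 1 ≤ 0)]
  simp

theorem MEET_norm_exp (t : ℝ) : ‖Complex.exp ((t : ℂ) * Complex.I)‖ = 1 :=
  Complex.norm_exp_ofReal_mul_I t

theorem MEET_norm_neg {a b ta tb : ℝ} {γ : unitInterval → ℂ}
    (h0 : γ 0 = Complex.exp (a * Complex.I)) {x : ℝ} (hx : x ≤ 0) :
    ‖MEET_ext a b ta tb γ x‖ = 1 - x := by
  rw [MEET_neg h0 hx, norm_mul, MEET_norm_exp, mul_one, Complex.norm_real, Real.norm_eq_abs,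
    abs_of_nonneg (by linarith)]

theorem MEET_norm_pos {a b ta tb : ℝ} {γ : unitInterval → ℂ}
    (h1 : γ 1 = Complex.exp (b * Complex.I)) {x : ℝ} (hx : 1 ≤ x) :
    ‖MEET_ext a b ta tb γ x‖ = x := by
  rw [MEET_pos h1 hx, norm_mul, MEET_norm_exp, mul_one, Complex.norm_real, Real.norm_eq_abs,
    abs_of_nonneg (by linarith)]

theorem MEET_norm_mid {a b ta tb : ℝ} {γ : unitInterval → ℂ} (hγ : ∀ t, ‖γ t‖ ≤ 1) {x : ℝ}
    (hx0 : 0 ≤ x) (hx1 : x ≤ 1) : ‖MEET_ext a b ta tb γ x‖ ≤ 1 := by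
  rw [MEET_mid hx0 hx1]
  exact hγ _

/-- the norm is less than `2` inside the interval -/
theorem MEET_norm_lt {a b ta tb : ℝ} {γ : unitInterval → ℂ} (hγ : ∀ t, ‖γ t‖ ≤ 1)
    (h0 : γ 0 = Complex.exp (a * Complex.I)) (h1 : γ 1 = Complex.exp (b * Complex.I)) {x : ℝ}
    (hx0 : -1 < x) (hx1 : x < 2) : ‖MEET_ext a b ta tb γ x‖ < 2 := by
  rcases le_or_gt x 0 with h | h
  · rw [MEET_norm_neg h0 h]; linarith
  · rcases le_or_gt x 1 with h' | h'
    · exact (MEET_norm_mid hγ h.le h').trans_lt (by norm_num)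
    · rw [MEET_norm_pos h1 h'.le]; exact hx1

theorem MEET_neg_one {a b ta tb : ℝ} {γ : unitInterval → ℂ}
    (h0 : γ 0 = Complex.exp (a * Complex.I)) :
    MEET_ext a b ta tb γ (-1) = 2 * Complex.exp ((ta : ℂ) * Complex.I) := by
  rw [MEET_neg h0 (by norm_num)]
  congr 1
  · norm_num
  · congr 1; push_cast; ring

theorem MEET_two {a b ta tb : ℝ} {γ : unitInterval → ℂ}
    (h1 : γ 1 = Complex.exp (b * Complex.I)) :
    MEET_ext a b ta tb γ 2 = 2 * Complex.exp ((tb : ℂ) * Complex.I) := by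
  rw [MEET_pos h1 (by norm_num)]
  congr 1
  congr 1; push_cast; ring

/-- angles which differ by less than `2 π` -/
theorem MEET_angle {l A B ta tb al be : ℝ} (hl0 : 0 < l) (hl1 : l ≤ 1)
    (h : ((1 + l : ℝ) : ℂ) * Complex.exp ((((1 - l) * al + l * ta : ℝ) : ℂ) * Complex.I) =
      ((1 + l : ℝ) : ℂ) * Complex.exp ((((1 - l) * be + l * tb : ℝ) : ℂ) * Complex.I))
    (hA : A = 0 ∧ B = 2 * Real.pi ∨ A = -(2 * Real.pi) ∧ B = 0)
    (h1 : A < al - be ∧ al - be < B) (h2 : A < ta - tb ∧ ta - tb < B) : False := by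
  have hne : ((1 + l : ℝ) : ℂ) ≠ 0 := by
    rw [Complex.ofReal_ne_zero]; linarith
  have h3 := mul_left_cancel₀ hne h
  rw [Complex.exp_eq_exp_iff_exists_int] at h3
  obtain ⟨n, hn⟩ := h3
  have h4 : ((((1 - l) * al + l * ta : ℝ) : ℂ)) * Complex.I =
      (((1 - l) * be + l * tb + n * (2 * Real.pi) : ℝ) : ℂ) * Complex.I := by
    rw [hn]; push_cast; ring
  have h5 := Complex.ofReal_injective (mul_right_cancel₀ Complex.I_ne_zero h4)
  have h6 : (1 - l) * (al - be) + l * (ta - tb) = n * (2 * Real.pi) := by linarith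
  have h7 : A < (1 - l) * (al - be) + l * (ta - tb) := by nlinarith [h1.1, h2.1]
  have h8 : (1 - l) * (al - be) + l * (ta - tb) < B := by nlinarith [h1.2, h2.2]
  have hpi := Real.pi_pos
  rw [h6] at h7 h8
  rcases hA with ⟨rfl, rfl⟩ | ⟨rfl, rfl⟩
  · have a1 : (0 : ℝ) < n := by
      by_contra hc
      push Not at hc
      nlinarith
    have a2 : (n : ℝ) < 1 := by
      by_contra hc
      push Not at hc
      nlinarith
    have b1 : (0 : ℤ) < n := by exact_mod_cast a1
    have b2 : n < (1 : ℤ) := by exact_mod_cast a2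
    omega
  · have a1 : (n : ℝ) < 0 := by
      by_contra hc
      push Not at hc
      nlinarith
    have a2 : (-1 : ℝ) < n := by
      by_contra hc
      push Not at hc
      nlinarith
    have b1 : n < (0 : ℤ) := by exact_mod_cast a1
    have b2 : (-1 : ℤ) < n := by exact_mod_cast a2
    omega

theorem p_MEET : S_MEET := by
  intro p q r s hpq hqr hrs hsp γ δ hγc hδc hγ hδ hγ0 hγ1 hδ0 hδ1
  have hpi := Real.pi_pos
  set Γ := MEET_ext p r (-Real.pi) 0 γ with hΓ
  set Δ := MEET_ext q s (-(Real.pi / 2)) (Real.pi / 2) δ with hΔ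
  have cΓ : Continuous Γ := MEET_cont _ _ _ _ _ hγc
  have cΔ : Continuous Δ := MEET_cont _ _ _ _ _ hδc
  have gm : Γ (-1) = -2 := by
    rw [hΓ, MEET_neg_one hγ0]
    have : Complex.exp (((-Real.pi : ℝ) : ℂ) * Complex.I) = -1 := by
      rw [Complex.exp_mul_I, ← Complex.ofReal_cos, ← Complex.ofReal_sin]
      simp
    rw [this]; ring
  have gp : Γ 2 = 2 := by
    rw [hΓ, MEET_two hγ1]
    simp
  have dm : Δ (-1) = -2 * Complex.I := by
    rw [hΔ, MEET_neg_one hδ0]
    have : Complex.exp (((-(Real.pi / 2) : ℝ) : ℂ) * Complex.I) = -Complex.I := by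
      rw [Complex.exp_mul_I, ← Complex.ofReal_cos, ← Complex.ofReal_sin]
      simp
    rw [this]; ring
  have dp : Δ 2 = 2 * Complex.I := by
    rw [hΔ, MEET_two hδ1]
    have : Complex.exp (((Real.pi / 2 : ℝ) : ℂ) * Complex.I) = Complex.I := by
      rw [Complex.exp_mul_I, ← Complex.ofReal_cos, ← Complex.ofReal_sin]
      simp
    rw [this]
  have bΔ : ∀ y, -1 ≤ y → y ≤ 2 → |(Δ y).re| < 2 := by
    intro y h1 h2
    rcases eq_or_lt_of_le h1 with h | h
    · rw [← h, dm]; simp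
    · rcases eq_or_lt_of_le h2 with h' | h'
      · rw [h', dp]; simp
      · exact (Complex.abs_re_le_norm _).trans_lt (MEET_norm_lt hδ hδ0 hδ1 h h')
  have bΓ : ∀ x, -1 ≤ x → x ≤ 2 → |(Γ x).im| < 2 := by
    intro y h1 h2
    rcases eq_or_lt_of_le h1 with h | h
    · rw [← h, gm]; simp
    · rcases eq_or_lt_of_le h2 with h' | h'
      · rw [h', gp]; simp
      · exact (Complex.abs_im_le_norm _).trans_lt (MEET_norm_lt hγ hγ0 hγ1 h h')
  let Φ : (Fin 3 → ℝ) → (Fin 3 → ℝ) := fun x =>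
    ![(Γ (3 * x 0 - 1)).re - (Δ (3 * x 1 - 1)).re, (Δ (3 * x 1 - 1)).im - (Γ (3 * x 0 - 1)).im,
      x 2 - 1 / 2]
  have cΦ : Continuous Φ := by
    have c0 : Continuous fun x : Fin 3 → ℝ => Γ (3 * x 0 - 1) := cΓ.comp (by fun_prop)
    have c1 : Continuous fun x : Fin 3 → ℝ => Δ (3 * x 1 - 1) := cΔ.comp (by fun_prop)
    apply continuous_pi
    intro i
    fin_cases i
    · exact (Complex.continuous_re.comp c0).sub (Complex.continuous_re.comp c1)
    · exact (Complex.continuous_im.comp c1).sub (Complex.continuous_im.comp c0)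
    · exact (continuous_apply 2).sub continuous_const
  obtain ⟨x, hx, hx0⟩ := Pool.Agent.Lib.MP_b2c03c_co.poincare_miranda Φ cΦ
    (by
      intro x hx i hi
      have hb : ∀ j, 0 ≤ x j ∧ x j ≤ 1 := fun j => ⟨hx.1 j, hx.2 j⟩
      fin_cases i
      · have h1 := (abs_lt.1 (bΔ (3 * x 1 - 1) (by linarith [(hb 1).1]) (by linarith [(hb 1).2]))).1
        have hi' : x 0 = 0 := hi
        change (Γ (3 * x 0 - 1)).re - (Δ (3 * x 1 - 1)).re < 0
        rw [hi', mul_zero, zero_sub, gm]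
        have : ((-2 : ℂ)).re = -2 := by simp
        rw [this]; linarith
      · have h1 := (abs_lt.1 (bΓ (3 * x 0 - 1) (by linarith [(hb 0).1]) (by linarith [(hb 0).2]))).1
        have hi' : x 1 = 0 := hi
        change (Δ (3 * x 1 - 1)).im - (Γ (3 * x 0 - 1)).im < 0
        rw [hi', mul_zero, zero_sub, dm]
        have : ((-2 * Complex.I : ℂ)).im = -2 := by simp
        rw [this]; linarith
      · have hi' : x 2 = 0 := hi
        change x 2 - 1 / 2 < 0
        rw [hi']; norm_num)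
    (by
      intro x hx i hi
      have hb : ∀ j, 0 ≤ x j ∧ x j ≤ 1 := fun j => ⟨hx.1 j, hx.2 j⟩
      fin_cases i
      · have h1 := (abs_lt.1 (bΔ (3 * x 1 - 1) (by linarith [(hb 1).1]) (by linarith [(hb 1).2]))).2
        have hi' : x 0 = 1 := hi
        change 0 < (Γ (3 * x 0 - 1)).re - (Δ (3 * x 1 - 1)).re
        rw [hi', show (3 * 1 - 1 : ℝ) = 2 by norm_num, gp]
        have : ((2 : ℂ)).re = 2 := by simp
        rw [this]; linarith
      · have h1 := (abs_lt.1 (bΓ (3 * x 0 - 1) (by linarith [(hb 0).1]) (by linarith [(hb 0).2]))).2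
        have hi' : x 1 = 1 := hi
        change 0 < (Δ (3 * x 1 - 1)).im - (Γ (3 * x 0 - 1)).im
        rw [hi', show (3 * 1 - 1 : ℝ) = 2 by norm_num, dp]
        have : ((2 * Complex.I : ℂ)).im = 2 := by simp
        rw [this]; linarith
      · have hi' : x 2 = 1 := hi
        change 0 < x 2 - 1 / 2
        rw [hi']; norm_num)
  have e0 : (Γ (3 * x 0 - 1)).re - (Δ (3 * x 1 - 1)).re = 0 := congrFun hx0 0
  have e1 : (Δ (3 * x 1 - 1)).im - (Γ (3 * x 0 - 1)).im = 0 := congrFun hx0 1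
  have hb : ∀ j, 0 ≤ x j ∧ x j ≤ 1 := fun j => ⟨hx.1 j, hx.2 j⟩
  obtain ⟨X, hX⟩ : ∃ X, X = 3 * x 0 - 1 := ⟨_, rfl⟩
  obtain ⟨Y, hY⟩ : ∃ Y, Y = 3 * x 1 - 1 := ⟨_, rfl⟩
  have hX0 : -1 ≤ X := by linarith [(hb 0).1]
  have hX1 : X ≤ 2 := by linarith [(hb 0).2]
  have hY0 : -1 ≤ Y := by linarith [(hb 1).1]
  have hY1 : Y ≤ 2 := by linarith [(hb 1).2]
  rw [← hX, ← hY] at e0 e1
  have heq : Γ X = Δ Y := Complex.ext (by linarith) (by linarith)
  have hn := congrArg norm heq
  rcases lt_or_ge X 0 with x0 | x0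
  · -- outer part at `p`
    have n1 : ‖Γ X‖ = 1 - X := MEET_norm_neg hγ0 x0.le
    rcases lt_or_ge Y 0 with y0 | y0
    · have n2 : ‖Δ Y‖ = 1 - Y := MEET_norm_neg hδ0 y0.le
      have hXY : Y = X := by linarith
      exfalso
      have a1 : Γ X = _ := MEET_neg hγ0 x0.le
      have a2 : Δ Y = _ := MEET_neg hδ0 y0.le
      rw [a1, a2, hXY] at heq
      refine MEET_angle (l := -X) (al := p) (be := q) (ta := -Real.pi) (tb := -(Real.pi / 2))
        (A := -(2 * Real.pi)) (B := 0) (by linarith) (by linarith) ?_ (Or.inr ⟨rfl, rfl⟩)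
        ⟨by linarith, by linarith⟩ ⟨by linarith, by linarith⟩
      rw [show (1 + -X : ℝ) = 1 - X by ring, show (1 - -X : ℝ) = 1 + X by ring]
      exact heq
    · rcases le_or_gt Y 1 with y1 | y1
      · exfalso
        have := MEET_norm_mid (a := q) (b := s) (ta := -(Real.pi / 2)) (tb := Real.pi / 2) hδ y0 y1
        rw [n1] at hn
        have h3 : ‖Δ Y‖ ≤ 1 := this
        linarith
      · have n2 : ‖Δ Y‖ = Y := MEET_norm_pos hδ1 y1.le
        have hXY : Y = 1 - X := by linarith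
        exfalso
        have a1 : Γ X = _ := MEET_neg hγ0 x0.le
        have a2 : Δ Y = _ := MEET_pos hδ1 y1.le
        rw [a1, a2, hXY] at heq
        refine MEET_angle (l := -X) (al := p) (be := s) (ta := -Real.pi) (tb := Real.pi / 2)
          (A := -(2 * Real.pi)) (B := 0) (by linarith) (by linarith) ?_ (Or.inr ⟨rfl, rfl⟩)
          ⟨by linarith, by linarith⟩ ⟨by linarith, by linarith⟩
        rw [show (1 + -X : ℝ) = 1 - X by ring, show (1 - -X : ℝ) = 1 + X by ring]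
        rw [show (2 - (1 - X) : ℝ) = 1 + X by ring, show (1 - X - 1 : ℝ) = -X by ring] at heq
        exact heq
  · rcases le_or_gt X 1 with x1 | x1
    · have n1 : ‖Γ X‖ ≤ 1 := MEET_norm_mid hγ x0 x1
      rcases lt_or_ge Y 0 with y0 | y0
      · exfalso
        have n2 : ‖Δ Y‖ = 1 - Y := MEET_norm_neg hδ0 y0.le
        linarith
      · rcases le_or_gt Y 1 with y1 | y1
        · have a1 : Γ X = γ ⟨X, x0, x1⟩ := MEET_mid x0 x1
          have a2 : Δ Y = δ ⟨Y, y0, y1⟩ := MEET_mid y0 y1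
          exact ⟨⟨X, x0, x1⟩, ⟨Y, y0, y1⟩, by rw [← a1, ← a2, heq]⟩
        · exfalso
          have n2 : ‖Δ Y‖ = Y := MEET_norm_pos hδ1 y1.le
          linarith
    · -- outer part at `r`
      have n1 : ‖Γ X‖ = X := MEET_norm_pos hγ1 x1.le
      rcases lt_or_ge Y 0 with y0 | y0
      · have n2 : ‖Δ Y‖ = 1 - Y := MEET_norm_neg hδ0 y0.le
        have hXY : X = 1 - Y := by linarith
        exfalso
        have a1 : Γ X = _ := MEET_pos hγ1 x1.le
        have a2 : Δ Y = _ := MEET_neg hδ0 y0.le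
        rw [a1, a2, hXY] at heq
        refine MEET_angle (l := -Y) (al := r) (be := q) (ta := 0) (tb := -(Real.pi / 2))
          (A := 0) (B := 2 * Real.pi) (by linarith) (by linarith) ?_ (Or.inl ⟨rfl, rfl⟩)
          ⟨by linarith, by linarith⟩ ⟨by linarith, by linarith⟩
        rw [show (1 + -Y : ℝ) = 1 - Y by ring, show (1 - -Y : ℝ) = 1 + Y by ring]
        rw [show (2 - (1 - Y) : ℝ) = 1 + Y by ring, show (1 - Y - 1 : ℝ) = -Y by ring] at heq
        exact heq
      · rcases le_or_gt Y 1 with y1 | y1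
        · exfalso
          have := MEET_norm_mid (a := q) (b := s) (ta := -(Real.pi / 2)) (tb := Real.pi / 2)
            hδ y0 y1
          have h3 : ‖Δ Y‖ ≤ 1 := this
          linarith
        · have n2 : ‖Δ Y‖ = Y := MEET_norm_pos hδ1 y1.le
          have hXY : Y = X := by linarith
          exfalso
          have a1 : Γ X = _ := MEET_pos hγ1 x1.le
          have a2 : Δ Y = _ := MEET_pos hδ1 y1.le
          rw [a1, a2, hXY] at heq
          refine MEET_angle (l := X - 1) (al := r) (be := s) (ta := 0) (tb := Real.pi / 2)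
            (A := -(2 * Real.pi)) (B := 0) (by linarith) (by linarith) ?_ (Or.inr ⟨rfl, rfl⟩)
            ⟨by linarith, by linarith⟩ ⟨by linarith, by linarith⟩
          rw [show (1 + (X - 1) : ℝ) = X by ring, show (1 - (X - 1) : ℝ) = 2 - X by ring]
          exact heq

end Pool.Agent.MPafd87c
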