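import Pool.Agent.Lib.MP_afd87c_lc.BC.Stm

/-!
# Piece MT: common points of two chords
-/

set_option autoImplicit false

namespace Pool.Agent.MPafd87c

private theorem MT_ht (a b t : ℝ) (h1 : a ≤ t) (h2 : t ≤ b) : t * t ≤ (a + b) * t - a * b := by
  nlinarith [mul_nonneg (sub_nonneg.mpr h1) (sub_nonneg.mpr h2)]

theorem p_MT (h1 : S_PSI) : S_MT := by
  obtain ⟨hn, _, hlt, hinj, hab, hseg⟩ := h1
  intro a b c d hac hcd p
  have key : ∀ a b : ℝ, a < b → segment ℝ (pp a) (pp b) = cp a b '' Set.Icc a b := by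
    intro a b h
    rw [hseg a b h a b le_rfl h.le le_rfl, (hab a b).1, (hab a b).2]
  rw [key a b hac, key c d hcd]
  constructor
  · rintro ⟨⟨t, ⟨ht1, ht2⟩, rfl⟩, ⟨t', ⟨ht3, ht4⟩, hp⟩, hlt1⟩
    have e := hinj t' ((c + d) * t' - c * d) t ((a + b) * t - a * b) (MT_ht c d t' ht3 ht4)
      (MT_ht a b t ht1 ht2) hp
    obtain ⟨rfl, e2⟩ := e
    have n1 : t' ≠ a := by
      intro h
      rw [h, (hab a b).1, hn] at hlt1
      exact lt_irrefl _ hlt1
    have n2 : t' ≠ b := by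
      intro h
      rw [h, (hab a b).2, hn] at hlt1
      exact lt_irrefl _ hlt1
    rw [← hp] at hlt1
    have n3 : t' ≠ c := by
      intro h
      rw [h, (hab c d).1, hn] at hlt1
      exact lt_irrefl _ hlt1
    have n4 : t' ≠ d := by
      intro h
      rw [h, (hab c d).2, hn] at hlt1
      exact lt_irrefl _ hlt1
    exact ⟨t', lt_of_le_of_ne ht1 n1.symm, lt_of_le_of_ne ht2 n2, lt_of_le_of_ne ht3 n3.symm,
      lt_of_le_of_ne ht4 n4, e2.symm, rfl⟩
  · rintro ⟨t, h1, h2, h3, h4, he, rfl⟩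
    refine ⟨⟨t, ⟨h1.le, h2.le⟩, rfl⟩, ⟨t, ⟨h3.le, h4.le⟩, ?_⟩, ?_⟩
    · unfold cp
      rw [he]
    · unfold cp
      apply hlt
      nlinarith [mul_pos (sub_pos.mpr h1) (sub_pos.mpr h2)]

end Pool.Agent.MPafd87c
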