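import Pool.Agent.Lib.MP_afd87c_lc.BC.Stm

/-!
# MP_afd87c_lc, piece NO: a Hamiltonian path gives a solution
-/

set_option autoImplicit false

namespace Pool.Agent.MPafd87c

private theorem NO_two {T : Type} {U : T → T → Prop} {u a b : T}
    (h : ∃ p q, p ≠ q ∧ ∀ v, U u v ↔ v = p ∨ v = q) (hn : ∀ v, U u v → v ∈ [a, b]) :
    U u a ∧ U u b := by
  obtain ⟨p, q, hpq, h⟩ := h
  have hp := hn p ((h p).2 (Or.inl rfl))
  have hq := hn q ((h q).2 (Or.inr rfl))
  simp only [List.mem_cons, List.not_mem_nil, or_false] at hp hq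
  rcases hp with rfl | rfl <;> rcases hq with rfl | rfl
  · exact absurd rfl hpq
  · exact ⟨(h _).2 (Or.inl rfl), (h _).2 (Or.inr rfl)⟩
  · exact ⟨(h _).2 (Or.inr rfl), (h _).2 (Or.inl rfl)⟩
  · exact absurd rfl hpq

private theorem NO_three {T : Type} {U : T → T → Prop} {u a b c : T}
    (h : ∃ p q, p ≠ q ∧ ∀ v, U u v ↔ v = p ∨ v = q) (hn : ∀ v, U u v → v ∈ [a, b, c])
    (hd : [a, b, c].Nodup) :
    (U u a ∧ U u b ∧ ¬ U u c) ∨ (U u a ∧ ¬ U u b ∧ U u c) ∨ (¬ U u a ∧ U u b ∧ U u c) := by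
  obtain ⟨p, q, hpq, h⟩ := h
  have hp := hn p ((h p).2 (Or.inl rfl))
  have hq := hn q ((h q).2 (Or.inr rfl))
  simp only [List.mem_cons, List.not_mem_nil, or_false, List.nodup_cons, not_or,
    List.nodup_nil, not_false_eq_true, and_true] at hp hq hd
  obtain ⟨⟨hab, hac⟩, hbc⟩ := hd
  rw [h a, h b, h c]
  rcases hp with rfl | rfl | rfl <;> rcases hq with rfl | rfl | rfl <;> tauto

private theorem NO_memA (I : X3) {i : ℕ} (h : i < I.N) : Tk.A i ∈ I.vs := by
  simp [X3.vs, h]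

private theorem NO_memm (I : X3) {i : ℕ} (h : i < I.N) : Tk.m i ∈ I.vs := by
  simp [X3.vs, h]

private theorem NO_memc (I : X3) {i : ℕ} (h : i < I.M) : Tk.c i ∈ I.vs := by
  simp [X3.vs, h]

private theorem NO_memr (I : X3) {t k : ℕ} (h : t < 3 * I.M) (hk : k < 4) :
    Tk.r t k ∈ I.vs ∧ Tk.x t k ∈ I.vs ∧ Tk.y t k ∈ I.vs := by
  simp [X3.vs, h, hk]

private theorem NO_mems (I : X3) : Tk.s ∈ I.vs ∧ Tk.e ∈ I.vs := by
  simp [X3.vs]

/-- what we use about the path -/
private structure NO_U (I : X3) (U : Tk → Tk → Prop) : Prop where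
  symm : ∀ u v, U u v → U v u
  mem : ∀ u v, U u v → v ∈ I.nb u
  two : ∀ u ∈ I.vs, u ≠ .s → u ≠ .e → ∃ p q, p ≠ q ∧ ∀ v, U u v ↔ v = p ∨ v = q
  s : ∃ a, U .s a
  cyc : ∀ a b c d f g : Tk, [a, b, c, d, f, g].Nodup → U a b → U b c → U c d → U d f → U f g →
      U g a → False

private theorem NO_symm {I : X3} {U : Tk → Tk → Prop} (h : NO_U I U) (u v : Tk) :
    U u v ↔ U v u := ⟨h.symm u v, h.symm v u⟩

/-- one side of a ladder -/
private theorem NO_x {I : X3} {U : Tk → Tk → Prop} (h : NO_U I U) (hL : Lok I.vs I.nb code)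
    {t : ℕ} (ht : t < 3 * I.M) :
    (U (.x t 0) (.x t 1) ↔ ¬ U (.x t 0) (I.prv t)) ∧
    (U (.x t 1) (.x t 2) ↔ U (.x t 0) (I.prv t)) ∧
    (U (.x t 3) (I.nxt t) ↔ U (.x t 0) (I.prv t)) := by
  have hr : ∀ k < 4, U (.x t k) (.r t k) := fun k hk =>
    h.symm _ _ (NO_two (h.two _ (NO_memr I ht hk).1 (by simp) (by simp)) (h.mem _)).1
  have h0 := NO_three (h.two (.x t 0) (NO_memr I ht (by omega)).2.1 (by simp) (by simp))
    (h.mem _) (hL.nbd _ (NO_memr I ht (by omega)).2.1)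
  have h1 := NO_three (h.two (.x t 1) (NO_memr I ht (by omega)).2.1 (by simp) (by simp))
    (h.mem _) (hL.nbd _ (NO_memr I ht (by omega)).2.1)
  have h2 := NO_three (h.two (.x t 2) (NO_memr I ht (by omega)).2.1 (by simp) (by simp))
    (h.mem _) (hL.nbd _ (NO_memr I ht (by omega)).2.1)
  have h3 := NO_three (h.two (.x t 3) (NO_memr I ht (by omega)).2.1 (by simp) (by simp))
    (h.mem _) (hL.nbd _ (NO_memr I ht (by omega)).2.1)
  have r0 := hr 0 (by omega)
  have r1 := hr 1 (by omega)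
  have r2 := hr 2 (by omega)
  have r3 := hr 3 (by omega)
  have s1 := NO_symm h (.x t 0) (.x t 1)
  have s2 := NO_symm h (.x t 1) (.x t 2)
  have s3 := NO_symm h (.x t 2) (.x t 3)
  simp at h0 h1 h2 h3
  tauto

/-- the other side of a ladder -/
private theorem NO_y {I : X3} {U : Tk → Tk → Prop} (h : NO_U I U) (hL : Lok I.vs I.nb code)
    {t : ℕ} (ht : t < 3 * I.M) :
    (U (.y t 0) (.y t 1) ↔ ¬ U (.y t 0) (.c (t / 3))) ∧
    (U (.y t 1) (.y t 2) ↔ U (.y t 0) (.c (t / 3))) := by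
  have hr : ∀ k < 4, U (.y t k) (.r t k) := fun k hk =>
    h.symm _ _ (NO_two (h.two _ (NO_memr I ht hk).1 (by simp) (by simp)) (h.mem _)).2
  have h0 := NO_three (h.two (.y t 0) (NO_memr I ht (by omega)).2.2 (by simp) (by simp))
    (h.mem _) (hL.nbd _ (NO_memr I ht (by omega)).2.2)
  have h1 := NO_three (h.two (.y t 1) (NO_memr I ht (by omega)).2.2 (by simp) (by simp))
    (h.mem _) (hL.nbd _ (NO_memr I ht (by omega)).2.2)
  have r0 := hr 0 (by omega)
  have r1 := hr 1 (by omega)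
  have s1 := NO_symm h (.y t 0) (.y t 1)
  simp at h0 h1
  tauto

/-- exactly one of the two sides is used -/
private theorem NO_xy {I : X3} {U : Tk → Tk → Prop} (h : NO_U I U) (hL : Lok I.vs I.nb code)
    {t : ℕ} (ht : t < 3 * I.M) :
    U (.x t 0) (I.prv t) ↔ ¬ U (.y t 0) (.c (t / 3)) := by
  have hr : ∀ k < 4, U (.r t k) (.x t k) ∧ U (.r t k) (.y t k) := fun k hk =>
    NO_two (h.two _ (NO_memr I ht hk).1 (by simp) (by simp)) (h.mem _)
  obtain ⟨x1, x2, -⟩ := NO_x h hL ht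
  obtain ⟨y1, y2⟩ := NO_y h hL ht
  have r0 := hr 0 (by omega)
  have r1 := hr 1 (by omega)
  have r2 := hr 2 (by omega)
  constructor
  · intro hp hq
    exact h.cyc (.x t 1) (.r t 1) (.y t 1) (.y t 2) (.r t 2) (.x t 2) (by simp)
      (h.symm _ _ r1.1) r1.2 (y2.2 hq) (h.symm _ _ r2.2) r2.1 (h.symm _ _ (x2.2 hp))
  · intro hq
    by_contra hp
    exact h.cyc (.x t 0) (.r t 0) (.y t 0) (.y t 1) (.r t 1) (.x t 1) (by simp)
      (h.symm _ _ r0.1) r0.2 (y1.2 hq) (h.symm _ _ r1.2) r1.1 (h.symm _ _ (x1.2 hp))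

private theorem NO_getD {L : List ℕ} {k : ℕ} (h : k < L.length) : L.getD k 0 ∈ L := by
  rw [List.getD_eq_getElem _ _ h]
  exact List.getElem_mem h

private theorem NO_fst {I : X3} (hI : I.Ok) {i : ℕ} (hi : i < I.N) (b : Bool) :
    I.at' (I.fst (i, b)) = (i, b) := by
  obtain ⟨t, ht, htb⟩ := hI.occ i hi b
  have h1 : t ∈ I.oc (3 * I.M) (i, b) := by
    simp [X3.oc, ht, htb]
  have h2 : 0 < (I.oc (3 * I.M) (i, b)).length := List.length_pos_of_mem h1
  have h3 : I.fst (i, b) ∈ I.oc (3 * I.M) (i, b) := NO_getD h2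
  simp only [X3.oc, List.mem_filter, decide_eq_true_eq] at h3
  exact h3.2

/-- the routes -/
private theorem NO_route {I : X3} {U : Tk → Tk → Prop} (h : NO_U I U) (hI : I.Ok)
    (hL : Lok I.vs I.nb code) (t : ℕ) : t < 3 * I.M →
    (U (.x t 0) (I.prv t) ↔ U (.A (I.at' t).1) (.x (I.fst (I.at' t)) 0)) := by
  induction t using Nat.strong_induction_on with
  | _ t ih =>
    intro ht
    have hx : Tk.x t 0 ∈ I.vs := (NO_memr I ht (by omega)).2.1
    have hp : I.prv t ∈ I.nb (.x t 0) := by simp [X3.nb]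
    by_cases h0 : (I.oc t (I.at' t)).length = 0
    · have e1 : I.prv t = .A (I.at' t).1 := by
        unfold X3.prv
        rw [if_pos h0]
      rw [e1] at hp ⊢
      have h2 := hL.symm _ hx _ hp
      have hN := hI.lt t ht
      have h3 : t = I.fst (I.at' t) := by
        simp only [X3.nb, List.mem_cons, List.not_mem_nil, or_false, Tk.x.injEq, and_true] at h2
        rcases h2 with h2 | h2 | h2
        · split_ifs at h2
        · have h4 := NO_fst hI hN true
          rw [← h2] at h4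
          rw [h4]
          exact h2
        · have h4 := NO_fst hI hN false
          rw [← h2] at h4
          rw [h4]
          exact h2
      rw [← h3]
      exact NO_symm h _ _
    · have h1 : (I.oc t (I.at' t)).getD ((I.oc t (I.at' t)).length - 1) 0 ∈ I.oc t (I.at' t) :=
        NO_getD (by omega)
      have e1 : I.prv t = .x ((I.oc t (I.at' t)).getD ((I.oc t (I.at' t)).length - 1) 0) 3 := by
        unfold X3.prv
        rw [if_neg h0]
      generalize (I.oc t (I.at' t)).getD ((I.oc t (I.at' t)).length - 1) 0 = t' at h1 e1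
      rw [e1] at hp ⊢
      simp only [X3.oc, List.mem_filter, List.mem_range, decide_eq_true_eq] at h1
      obtain ⟨ht', ha⟩ := h1
      have h2 := hL.symm _ hx _ hp
      have h3 : I.nxt t' = .x t 0 := by
        simp [X3.nb] at h2
        exact h2.symm
      rw [NO_symm h, ← h3, (NO_x h hL (by omega : t' < 3 * I.M)).2.2, ih t' ht' (by omega), ha]

theorem p_NO (h1 : S_OK) (h2 : S_PTH) : S_NO := by
  intro I hI l hl hch
  obtain ⟨hL, -⟩ := h1 I hI
  obtain ⟨U, u1, u2, u3, u4, -, u6⟩ := h2 I.vs l I.nb .s .e hL.nodup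
    (fun u hu v hv => ⟨hL.sub u hu v hv, hL.symm u hu v hv⟩) hl hch (NO_mems I).1 (NO_mems I).2
    (by simp) ⟨_, rfl⟩ ⟨_, rfl⟩
  have h : NO_U I U := ⟨u1, u2, u3, u4, u6⟩
  classical
  refine ⟨fun i => decide (U (.A i) (.x (I.fst (i, true)) 0)), ?_⟩
  -- the two routes of a variable
  have hv : ∀ i < I.N, ∀ b : Bool, U (.A i) (.x (I.fst (i, b)) 0) ↔
      decide (U (.A i) (.x (I.fst (i, true)) 0)) = b := by
    intro i hi b
    have h3 := NO_three (h.two (.A i) (NO_memA I hi) (by simp) (by simp)) (h.mem _)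
      (hL.nbd _ (NO_memA I hi))
    have h4 : U (.A i) (if i = 0 then .s else .m (i - 1)) := by
      split_ifs with h0
      · obtain ⟨a, ha⟩ := h.s
        have h5 := h.mem _ _ ha
        simp only [X3.nb, List.mem_cons, List.not_mem_nil, or_false] at h5
        rw [h5] at ha
        rw [h0]
        exact h.symm _ _ ha
      · have h5 := (NO_two (h.two (.m (i - 1)) (NO_memm I (by omega)) (by simp) (by simp))
          (h.mem _)).2
        rw [show i - 1 + 1 = i by omega, if_pos hi] at h5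
        exact h.symm _ _ h5
    cases b
    · rw [decide_eq_false_iff_not]
      tauto
    · rw [decide_eq_true_iff]
  -- the slots
  have hs : ∀ t < 3 * I.M, (decide (U (.A (I.at' t).1) (.x (I.fst ((I.at' t).1, true)) 0))
      = (I.at' t).2 ↔ ¬ U (.y t 0) (.c (t / 3))) := by
    intro t ht
    rw [← hv _ (hI.lt t ht), ← NO_xy h hL ht, NO_route h hI hL t ht]
  intro j hj
  have h3 := NO_three (h.two (.c j) (NO_memc I hj) (by simp) (by simp)) (h.mem _)
    (hL.nbd _ (NO_memc I hj))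
  have s0 := hs (3 * j) (by omega)
  have s1 := hs (3 * j + 1) (by omega)
  have s2 := hs (3 * j + 2) (by omega)
  rw [show 3 * j / 3 = j by omega, NO_symm h (.y (3 * j) 0) (.c j)] at s0
  rw [show (3 * j + 1) / 3 = j by omega, NO_symm h (.y (3 * j + 1) 0) (.c j)] at s1
  rw [show (3 * j + 2) / 3 = j by omega, NO_symm h (.y (3 * j + 2) 0) (.c j)] at s2
  rcases h3 with ⟨a, b, c⟩ | ⟨a, b, c⟩ | ⟨a, b, c⟩
  · refine ⟨2, ⟨by omega, s2.2 c⟩, ?_⟩
    rintro r ⟨hr, hr2⟩
    obtain rfl | rfl | rfl : r = 0 ∨ r = 1 ∨ r = 2 := by omega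
    · exact absurd a (s0.1 hr2)
    · exact absurd b (s1.1 hr2)
    · rfl
  · refine ⟨1, ⟨by omega, s1.2 b⟩, ?_⟩
    rintro r ⟨hr, hr2⟩
    obtain rfl | rfl | rfl : r = 0 ∨ r = 1 ∨ r = 2 := by omega
    · exact absurd a (s0.1 hr2)
    · rfl
    · exact absurd c (s2.1 hr2)
  · refine ⟨0, ⟨by omega, s0.2 a⟩, ?_⟩
    rintro r ⟨hr, hr2⟩
    obtain rfl | rfl | rfl : r = 0 ∨ r = 1 ∨ r = 2 := by omega
    · rfl
    · exact absurd b (s1.1 hr2)
    · exact absurd c (s2.1 hr2)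

end Pool.Agent.MPafd87c
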