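import Pool.Agent.Lib.MP_afd87c_lc.BC.Stm

set_option autoImplicit false

namespace Pool.Agent.MPafd87c

private theorem OK_first (n : ℕ) (p : ℕ → Prop) [DecidablePred p]
    (h : ∃ t < n, p t) :
    ((List.range n).filter fun t => p t).getD 0 0 < n ∧
    p (((List.range n).filter fun t => p t).getD 0 0) ∧
    ∀ t < n, p t → ((List.range n).filter fun t => p t).getD 0 0 ≤ t := by
  have hs : ((List.range n).filter fun t => p t).Pairwise (· < ·) :=
    List.Pairwise.filter _ List.pairwise_lt_range
  have hm : ∀ t, t ∈ ((List.range n).filter fun t => p t) ↔ t < n ∧ p t := by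
    intro t; simp
  generalize ((List.range n).filter fun t => p t) = L at hs hm
  cases L with
  | nil =>
    obtain ⟨t, ht, hp⟩ := h
    have := (hm t).2 ⟨ht, hp⟩
    simp at this
  | cons a L =>
    have ha := (hm a).1 (by simp)
    refine ⟨ha.1, ha.2, ?_⟩
    intro t ht hp
    have h1 := (hm t).2 ⟨ht, hp⟩
    rw [List.pairwise_cons] at hs
    rcases List.mem_cons.1 h1 with h2 | h2
    · simp [h2]
    · exact (hs.1 t h2).le

private theorem OK_last (n : ℕ) (p : ℕ → Prop) [DecidablePred p]
    (h : ∃ t < n, p t) :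
    ((List.range n).filter fun t => p t).getD
      (((List.range n).filter fun t => p t).length - 1) 0 < n ∧
    p (((List.range n).filter fun t => p t).getD
      (((List.range n).filter fun t => p t).length - 1) 0) ∧
    ∀ t < n, p t → t ≤ ((List.range n).filter fun t => p t).getD
      (((List.range n).filter fun t => p t).length - 1) 0 := by
  have hs : ((List.range n).filter fun t => p t).Pairwise (· < ·) :=
    List.Pairwise.filter _ List.pairwise_lt_range
  have hm : ∀ t, t ∈ ((List.range n).filter fun t => p t) ↔ t < n ∧ p t := by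
    intro t; simp
  generalize ((List.range n).filter fun t => p t) = L at hs hm
  rcases List.eq_nil_or_concat L with h0 | ⟨L', a, h0⟩
  · subst h0
    obtain ⟨t, ht, hp⟩ := h
    have := (hm t).2 ⟨ht, hp⟩
    simp at this
  · subst h0
    have e : (L'.concat a).getD ((L'.concat a).length - 1) 0 = a := by
      simp
    rw [e]
    have ha := (hm a).1 (by simp)
    refine ⟨ha.1, ha.2, ?_⟩
    intro t ht hp
    have h1 := (hm t).2 ⟨ht, hp⟩
    rw [List.concat_eq_append] at hs h1
    rw [List.pairwise_append] at hs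
    rcases List.mem_append.1 h1 with h2 | h2
    · exact (hs.2.2 t h2 a (by simp)).le
    · simp at h2
      exact h2.le

private theorem OK_len (n : ℕ) (p : ℕ → Prop) [DecidablePred p] :
    ((List.range n).filter fun t => p t).length = 0 ↔ ∀ t < n, ¬ p t := by
  rw [List.length_eq_zero_iff, List.filter_eq_nil_iff]
  simp

namespace X3

variable {I : X3}

private theorem OK_fst (hI : I.Ok) (i : ℕ) (hi : i < I.N) (b : Bool) :
    I.fst (i, b) < 3 * I.M ∧ I.at' (I.fst (i, b)) = (i, b) ∧
    ∀ t < 3 * I.M, I.at' t = (i, b) → I.fst (i, b) ≤ t :=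
  OK_first (3 * I.M) (fun t => I.at' t = (i, b)) (hI.occ i hi b)

private theorem OK_lst (hI : I.Ok) (i : ℕ) (hi : i < I.N) (b : Bool) :
    I.lst (i, b) < 3 * I.M ∧ I.at' (I.lst (i, b)) = (i, b) ∧
    ∀ t < 3 * I.M, I.at' t = (i, b) → t ≤ I.lst (i, b) :=
  OK_last (3 * I.M) (fun t => I.at' t = (i, b)) (hI.occ i hi b)

/-- `t` is directly before `t'` -/
private def Nx (I : X3) (t t' : ℕ) : Prop :=
  t < t' ∧ t' < 3 * I.M ∧ I.at' t = I.at' t' ∧ ∀ u, t < u → u < t' → I.at' u ≠ I.at' t

private theorem OK_prv (t : ℕ) (ht : t < 3 * I.M) :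
    (I.prv t = .A (I.at' t).1 ∧ ∀ u < t, I.at' u ≠ I.at' t) ∨
    ∃ t', I.Nx t' t ∧ I.prv t = .x t' 3 := by
  by_cases h : ∀ u < t, I.at' u ≠ I.at' t
  · left
    refine ⟨?_, h⟩
    have : (I.oc t (I.at' t)).length = 0 := (OK_len t (fun u => I.at' u = I.at' t)).2 h
    simp [prv, this]
  · right
    have h' : ∃ u < t, I.at' u = I.at' t := by
      push Not at h
      exact h
    have h0 : (I.oc t (I.at' t)).length ≠ 0 := fun h1 =>
      h ((OK_len t (fun u => I.at' u = I.at' t)).1 h1)
    obtain ⟨h1, h2, h3⟩ := OK_last t (fun u => I.at' u = I.at' t) h'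
    refine ⟨_, ⟨h1, ht, h2, ?_⟩, by
      unfold prv
      rw [if_neg h0]
      rfl⟩
    intro u hu hut hh
    have := h3 u hut (hh.trans h2)
    omega

private theorem OK_nxt (t : ℕ) (ht : t < 3 * I.M) :
    (I.nxt t = .B (I.at' t).1 ∧ ∀ u < 3 * I.M, t < u → I.at' u ≠ I.at' t) ∨
    ∃ t', I.Nx t t' ∧ I.nxt t = .x t' 0 := by
  by_cases h : ∀ u < 3 * I.M, t < u → I.at' u ≠ I.at' t
  · left
    refine ⟨?_, h⟩
    have : (I.oa t).length = 0 :=
      (OK_len (3 * I.M) (fun t' => t < t' ∧ I.at' t' = I.at' t)).2
        (fun u hu hh => h u hu hh.1 hh.2)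
    simp [nxt, this]
  · right
    have h' : ∃ u < 3 * I.M, t < u ∧ I.at' u = I.at' t := by
      push Not at h
      exact h
    have h0 : (I.oa t).length ≠ 0 := fun h1 =>
      h (fun u hu h2 h3 => (OK_len (3 * I.M) (fun t' => t < t' ∧ I.at' t' = I.at' t)).1 h1 u hu
        ⟨h2, h3⟩)
    obtain ⟨h1, h2, h3⟩ := OK_first (3 * I.M) (fun t' => t < t' ∧ I.at' t' = I.at' t) h'
    refine ⟨_, ⟨h2.1, h1, h2.2.symm, ?_⟩, by
      unfold nxt
      rw [if_neg h0]
      rfl⟩
    intro u hu hut hh
    have := h3 u (by omega) ⟨hu, hh⟩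
    omega

private theorem OK_Nx1 {t t' s : ℕ} (h : I.Nx t t') (h' : I.Nx s t') : t = s := by
  obtain ⟨a1, a2, a3, a4⟩ := h
  obtain ⟨b1, b2, b3, b4⟩ := h'
  rcases lt_trichotomy t s with h | h | h
  · exact absurd (b3.trans a3.symm) (a4 s h b1)
  · exact h
  · exact absurd (a3.trans b3.symm) (b4 t h a1)

private theorem OK_Nx2 {t t' s : ℕ} (h : I.Nx t t') (h' : I.Nx t s) : t' = s := by
  obtain ⟨a1, a2, a3, a4⟩ := h
  obtain ⟨b1, b2, b3, b4⟩ := h'
  rcases lt_trichotomy t' s with h | h | h
  · exact absurd a3.symm (b4 t' a1 h)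
  · exact h
  · exact absurd b3.symm (a4 s b1 h)

private theorem OK_Nxp {t t' : ℕ} (h : I.Nx t t') : I.prv t' = .x t 3 := by
  rcases OK_prv t' h.2.1 with h1 | ⟨s, h1, h2⟩
  · exact absurd h.2.2.1 (h1.2 t h.1)
  · rw [h2, OK_Nx1 h h1]

private theorem OK_Nxn {t t' : ℕ} (h : I.Nx t t') : I.nxt t = .x t' 0 := by
  rcases OK_nxt t (h.1.trans h.2.1) with h1 | ⟨s, h1, h2⟩
  · exact absurd h.2.2.1.symm (h1.2 t' h.2.1 h.1)
  · rw [h2, OK_Nx2 h h1]

private theorem OK_fst_prv (hI : I.Ok) (i : ℕ) (hi : i < I.N) (b : Bool) :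
    I.prv (I.fst (i, b)) = .A i := by
  obtain ⟨h1, h2, h3⟩ := OK_fst hI i hi b
  rcases OK_prv _ h1 with h | ⟨t', h, -⟩
  · rw [h.1, h2]
  · have := h3 t' (h.1.trans h.2.1) (h.2.2.1.trans h2)
    have := h.1
    omega

private theorem OK_lst_nxt (hI : I.Ok) (i : ℕ) (hi : i < I.N) (b : Bool) :
    I.nxt (I.lst (i, b)) = .B i := by
  obtain ⟨h1, h2, h3⟩ := OK_lst hI i hi b
  rcases OK_nxt _ h1 with h | ⟨t', h, -⟩
  · rw [h.1, h2]
  · have := h3 t' h.2.1 (h.2.2.1.symm.trans h2)
    have := h.1
    omega

private theorem OK_eq_fst (hI : I.Ok) (t : ℕ) (ht : t < 3 * I.M)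
    (h : ∀ u < t, I.at' u ≠ I.at' t) : I.fst (I.at' t) = t := by
  obtain ⟨h1, h2, h3⟩ := OK_fst hI (I.at' t).1 (hI.lt t ht) (I.at' t).2
  have := h3 t ht rfl
  rcases this.lt_or_eq with h4 | h4
  · exact absurd h2 (h _ h4)
  · exact h4

private theorem OK_eq_lst (hI : I.Ok) (t : ℕ) (ht : t < 3 * I.M)
    (h : ∀ u < 3 * I.M, t < u → I.at' u ≠ I.at' t) : I.lst (I.at' t) = t := by
  obtain ⟨h1, h2, h3⟩ := OK_lst hI (I.at' t).1 (hI.lt t ht) (I.at' t).2
  have := h3 t ht rfl
  rcases this.lt_or_eq with h4 | h4
  · exact absurd h2 (h _ h1 h4)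
  · exact h4.symm

/-- the condition for membership in `vs` -/
private def In (I : X3) : Tk → Prop
  | .s => True
  | .e => True
  | .A i => i < I.N
  | .B i => i < I.N
  | .m i => i < I.N
  | .X j => j < I.M
  | .Y j => j < I.M
  | .w j => j < I.M
  | .a j => j < I.M
  | .b j => j < I.M
  | .c j => j < I.M
  | .d j => j < I.M
  | .r t k => t < 3 * I.M ∧ k < 4
  | .x t k => t < 3 * I.M ∧ k < 4
  | .y t k => t < 3 * I.M ∧ k < 4

private theorem OK_mem (u : Tk) : u ∈ I.vs ↔ I.In u := by
  cases u <;> simp [vs, In]

private theorem OK_nodup : I.vs.Nodup := by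
  have h1 : ((List.range I.N).flatMap (fun i => [Tk.A i, Tk.B i, Tk.m i])).Nodup := by
    rw [List.nodup_flatMap]
    refine ⟨fun i _ => by simp, ?_⟩
    refine List.Pairwise.imp ?_ List.pairwise_lt_range
    intro a b hab
    simp only [Function.onFun, List.Disjoint]
    intro c hc hd
    have : a ≠ b := hab.ne
    cases c <;> simp_all
  have h2 : ((List.range I.M).flatMap
      (fun j => [Tk.X j, .Y j, .w j, .a j, .b j, .c j, .d j])).Nodup := by
    rw [List.nodup_flatMap]
    refine ⟨fun i _ => by simp, ?_⟩
    refine List.Pairwise.imp ?_ List.pairwise_lt_range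
    intro a b hab
    simp only [Function.onFun, List.Disjoint]
    intro c hc hd
    have : a ≠ b := hab.ne
    cases c <;> simp_all
  have h3 : ((List.range (3 * I.M)).flatMap (fun t => (List.range 4).flatMap fun k =>
      [Tk.r t k, .x t k, .y t k])).Nodup := by
    rw [List.nodup_flatMap]
    constructor
    · intro t _
      rw [List.nodup_flatMap]
      refine ⟨fun i _ => by simp, ?_⟩
      refine List.Pairwise.imp ?_ List.pairwise_lt_range
      intro a b hab
      simp only [Function.onFun, List.Disjoint]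
      intro c hc hd
      have : a ≠ b := hab.ne
      cases c <;> simp_all
    · refine List.Pairwise.imp ?_ List.pairwise_lt_range
      intro a b hab
      simp only [Function.onFun, List.Disjoint]
      intro c hc hd
      have : a ≠ b := hab.ne
      rw [List.mem_flatMap] at hc hd
      obtain ⟨k, -, hk⟩ := hc
      obtain ⟨k', -, hk'⟩ := hd
      cases c <;> simp_all
  unfold vs
  rw [List.nodup_append, List.nodup_append, List.nodup_append, List.nodup_append]
  refine ⟨⟨⟨⟨by simp, h1, ?_⟩, h2, ?_⟩, h3, ?_⟩, by simp, ?_⟩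
  · intro a ha b hb
    cases b <;> simp_all
  · intro a ha b hb
    cases b <;> cases a <;> simp_all
  · intro a ha b hb
    cases b <;> cases a <;> simp_all
  · intro a ha b hb
    cases b <;> cases a <;> simp_all

private theorem OK_inj (u : Tk) (hu : I.In u) (v : Tk) (hv : I.In v) (h : code u = code v) :
    u = v := by
  cases u <;> cases v <;> simp only [code, In] at h hu hv <;>
    first
    | rfl
    | (exfalso; omega)
    | (congr 1 <;> omega)

private theorem OK_pos (u : Tk) : code u ≠ 0 := by
  cases u <;> simp [code]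

private theorem OK_prvIn (hI : I.Ok) (t : ℕ) (ht : t < 3 * I.M) : I.In (I.prv t) := by
  rcases OK_prv t ht with h | ⟨t', h, h'⟩
  · rw [h.1]
    exact hI.lt t ht
  · rw [h']
    exact ⟨h.1.trans h.2.1, by norm_num⟩

private theorem OK_nxtIn (hI : I.Ok) (t : ℕ) (ht : t < 3 * I.M) : I.In (I.nxt t) := by
  rcases OK_nxt t ht with h | ⟨t', h, h'⟩
  · rw [h.1]
    exact hI.lt t ht
  · rw [h']
    exact ⟨h.2.1, by norm_num⟩

private theorem OK_sub (hI : I.Ok) (u : Tk) (hu : I.In u) (v : Tk) (hv : v ∈ I.nb u) :
    I.In v := by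
  have hN := hI.N_pos
  have hM := hI.M_pos
  cases u <;> simp only [nb, List.mem_cons, List.not_mem_nil, or_false, In] at hv hu
  case s => subst hv; exact hN
  case e => subst hv; simp only [In]; omega
  case A i =>
    rcases hv with rfl | rfl | rfl
    · split_ifs with h
      · trivial
      · simp only [In]; omega
    · exact ⟨(OK_fst hI i hu true).1, by norm_num⟩
    · exact ⟨(OK_fst hI i hu false).1, by norm_num⟩
  case B i =>
    rcases hv with rfl | rfl | rfl
    · exact hu
    · exact ⟨(OK_lst hI i hu true).1, by norm_num⟩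
    · exact ⟨(OK_lst hI i hu false).1, by norm_num⟩
  case m i =>
    rcases hv with rfl | rfl
    · exact hu
    · split_ifs with h
      · exact h
      · exact hM
  case X j =>
    rcases hv with rfl | rfl | rfl
    · split_ifs with h
      · simp only [In]; omega
      · simp only [In]; omega
    · simp only [In]; omega
    · exact hu
  case Y j =>
    rcases hv with rfl | rfl | rfl <;> exact hu
  case w j =>
    rcases hv with rfl | rfl
    · exact hu
    · split_ifs with h
      · exact h
      · trivial
  case a j =>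
    rcases hv with rfl | rfl | rfl
    · simp only [In]; omega
    · exact hu
    · exact hu
  case b j =>
    rcases hv with rfl | rfl | rfl
    · simp only [In]; omega
    · exact hu
    · exact hu
  case c j =>
    rcases hv with rfl | rfl | rfl <;> simp only [In] <;> omega
  case d j =>
    rcases hv with rfl | rfl | rfl <;> exact hu
  case r t k =>
    rcases hv with rfl | rfl <;> exact hu
  case x t k =>
    rcases hv with rfl | rfl | rfl
    · split_ifs with h
      · exact OK_prvIn hI t hu.1
      · simp only [In]; omega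
    · split_ifs with h
      · exact OK_nxtIn hI t hu.1
      · simp only [In]; omega
    · exact hu
  case y t k =>
    rcases hv with rfl | rfl | rfl
    · split_ifs with h
      · simp only [In]; omega
      · simp only [In]; omega
    · split_ifs with h
      · simp only [In]; omega
      · simp only [In]; omega
      · simp only [In]; omega
      · simp only [In]; omega
    · exact hu

private theorem OK_symm (hI : I.Ok) (u : Tk) (hu : I.In u) (v : Tk) (hv : v ∈ I.nb u) :
    u ∈ I.nb v := by
  have hN := hI.N_pos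
  have hM := hI.M_pos
  cases u <;> simp only [nb, List.mem_cons, List.not_mem_nil, or_false, In] at hv hu
  case s => subst hv; simp [nb]
  case e =>
    subst hv
    have : ¬ (I.M - 1 + 1 < I.M) := by omega
    simp [nb, this]
  case A i =>
    rcases hv with rfl | rfl | rfl
    · by_cases h : i = 0
      · subst h; simp [nb]
      · have h1 : i - 1 + 1 = i := by omega
        simp [nb, h, h1, hu]
    · simp [nb, OK_fst_prv hI i hu true]
    · simp [nb, OK_fst_prv hI i hu false]
  case B i =>
    rcases hv with rfl | rfl | rfl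
    · simp [nb]
    · simp [nb, OK_lst_nxt hI i hu true]
    · simp [nb, OK_lst_nxt hI i hu false]
  case m i =>
    rcases hv with rfl | rfl
    · simp [nb]
    · by_cases h : i + 1 < I.N
      · simp [nb, h]
      · have h1 : i = I.N - 1 := by omega
        rw [if_neg h]
        simp [nb, h1]
  case X j =>
    rcases hv with rfl | rfl | rfl
    · by_cases h : j = 0
      · have h1 : ¬ (I.N - 1 + 1 < I.N) := by omega
        simp [nb, h, h1]
      · have h1 : j - 1 + 1 = j := by omega
        simp [nb, h, h1, hu]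
    · have h1 : 3 * j % 3 = 0 := by omega
      have h2 : 3 * j / 3 = j := by omega
      simp [nb, h1, h2]
    · simp [nb]
  case Y j =>
    rcases hv with rfl | rfl | rfl <;> simp [nb]
  case w j =>
    rcases hv with rfl | rfl
    · simp [nb]
    · by_cases h : j + 1 < I.M
      · simp [nb, h]
      · have h1 : j = I.M - 1 := by omega
        rw [if_neg h]
        simp [nb, h1]
  case a j =>
    rcases hv with rfl | rfl | rfl
    · have h1 : (3 * j + 1) % 3 = 1 := by omega
      have h2 : (3 * j + 1) / 3 = j := by omega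
      simp [nb, h1, h2]
    · simp [nb]
    · simp [nb]
  case b j =>
    rcases hv with rfl | rfl | rfl
    · have h1 : (3 * j + 2) % 3 = 2 := by omega
      have h2 : (3 * j + 2) / 3 = j := by omega
      simp [nb, h1, h2]
    · simp [nb]
    · simp [nb]
  case c j =>
    have h1 : (3 * j + 1) / 3 = j := by omega
    have h2 : (3 * j + 2) / 3 = j := by omega
    have h3 : (3 * j) / 3 = j := by omega
    rcases hv with rfl | rfl | rfl <;> simp [nb, h1, h2, h3]
  case d j =>
    rcases hv with rfl | rfl | rfl <;> simp [nb]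
  case r t k =>
    rcases hv with rfl | rfl <;> simp [nb]
  case x t k =>
    rcases hv with rfl | rfl | rfl
    · split_ifs with h
      · subst h
        rcases OK_prv t hu.1 with h | ⟨t', h, h'⟩
        · rw [h.1]
          have h1 := OK_eq_fst hI t hu.1 h.2
          rcases hb : (I.at' t).2 with _ | _
          · have h2 : I.fst ((I.at' t).1, false) = t := by rw [← hb]; exact h1
            simp [nb, h2]
          · have h2 : I.fst ((I.at' t).1, true) = t := by rw [← hb]; exact h1
            simp [nb, h2]
        · rw [h']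
          simp [nb, OK_Nxn h]
      · have h1 : k - 1 + 1 = k := by omega
        have h2 : k - 1 ≠ 3 := by omega
        simp [nb, h1, h2]
    · split_ifs with h
      · subst h
        rcases OK_nxt t hu.1 with h | ⟨t', h, h'⟩
        · rw [h.1]
          have h1 := OK_eq_lst hI t hu.1 h.2
          rcases hb : (I.at' t).2 with _ | _
          · have h2 : I.lst ((I.at' t).1, false) = t := by rw [← hb]; exact h1
            simp [nb, h2]
          · have h2 : I.lst ((I.at' t).1, true) = t := by rw [← hb]; exact h1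
            simp [nb, h2]
        · rw [h']
          simp [nb, OK_Nxp h]
      · simp [nb]
    · simp [nb]
  case y t k =>
    rcases hv with rfl | rfl | rfl
    · split_ifs with h
      · subst h
        have : t = 3 * (t / 3) ∨ t = 3 * (t / 3) + 1 ∨ t = 3 * (t / 3) + 2 := by omega
        simp only [nb, List.mem_cons, List.not_mem_nil, or_false, Tk.y.injEq, and_true]
        exact this
      · have h1 : k - 1 + 1 = k := by omega
        have h2 : k - 1 ≠ 3 := by omega
        simp [nb, h1, h2]
    · split_ifs with h h1 h2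
      · subst h
        have : 3 * (t / 3) = t := by omega
        simp [nb, this]
      · subst h
        have : 3 * (t / 3) + 1 = t := by omega
        simp [nb, this]
      · subst h
        have : 3 * (t / 3) + 2 = t := by omega
        simp [nb, this]
      · simp [nb]
    · simp [nb]

private theorem OK_prvne (t k : ℕ) (ht : t < 3 * I.M) (s : ℕ) (hk : k ≠ 3) :
    I.prv t ≠ .x s k := by
  rcases OK_prv t ht with h | ⟨t', h, h'⟩
  · rw [h.1]; simp
  · rw [h']
    intro h1
    injection h1 with _ h2
    exact hk h2.symm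

private theorem OK_nxtne (t k : ℕ) (ht : t < 3 * I.M) (s : ℕ) (hk : k ≠ 0) :
    I.nxt t ≠ .x s k := by
  rcases OK_nxt t ht with h | ⟨t', h, h'⟩
  · rw [h.1]; simp
  · rw [h']
    intro h1
    injection h1 with _ h2
    exact hk h2.symm

private theorem OK_prvr (t k : ℕ) (ht : t < 3 * I.M) (s : ℕ) :
    I.prv t ≠ .r s k := by
  rcases OK_prv t ht with h | ⟨t', h, h'⟩
  · rw [h.1]; simp
  · rw [h']; simp

private theorem OK_nxtr (t k : ℕ) (ht : t < 3 * I.M) (s : ℕ) :
    I.nxt t ≠ .r s k := by
  rcases OK_nxt t ht with h | ⟨t', h, h'⟩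
  · rw [h.1]; simp
  · rw [h']; simp

private theorem OK_irr (u : Tk) (hu : I.In u) : u ∉ I.nb u := by
  cases u <;> simp only [nb, List.mem_cons, List.not_mem_nil, or_false, In] at hu ⊢
  case x t k =>
    rintro (h | h | h)
    · split_ifs at h with h1
      · exact OK_prvne t k hu.1 t (by omega) h.symm
      · injection h with _ h2
        omega
    · split_ifs at h with h1
      · exact OK_nxtne t k hu.1 t (by omega) h.symm
      · injection h with _ h2
        omega
    · cases h
  case y t k =>
    rintro (h | h | h)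
    · split_ifs at h with h1
      injection h with _ h2
      omega
    · split_ifs at h with h1
      injection h with _ h2
      omega
    · cases h
  all_goals
    try split_ifs
  all_goals simp

private theorem OK_nbd (hI : I.Ok) (u : Tk) (hu : I.In u) : (I.nb u).Nodup := by
  have hf : ∀ i < I.N, I.fst (i, true) ≠ I.fst (i, false) := by
    intro i hi h
    have h1 := (OK_fst hI i hi true).2.1
    rw [h, (OK_fst hI i hi false).2.1] at h1
    simp at h1
  have hl : ∀ i < I.N, I.lst (i, true) ≠ I.lst (i, false) := by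
    intro i hi h
    have h1 := (OK_lst hI i hi true).2.1
    rw [h, (OK_lst hI i hi false).2.1] at h1
    simp at h1
  cases u <;> simp only [nb, List.nodup_cons, List.mem_cons, List.not_mem_nil, or_false, In,
    not_false_eq_true, List.nodup_nil, and_true, not_or, ← ne_eq] at hu ⊢
  case A i =>
    refine ⟨⟨?_, ?_⟩, ?_⟩
    · split_ifs <;> simp
    · split_ifs <;> simp
    · simpa using hf i hu
  case B i =>
    refine ⟨⟨by simp, by simp⟩, ?_⟩
    simpa using hl i hu
  case x t k =>
    refine ⟨⟨?_, ?_⟩, ?_⟩
    · split_ifs with h h1 h2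
      · omega
      · exact OK_prvne t _ hu.1 t (by omega)
      · exact (OK_nxtne t _ hu.1 t (by omega)).symm
      · simp
    · split_ifs with h
      · exact OK_prvr t k hu.1 t
      · simp
    · split_ifs with h
      · exact OK_nxtr t k hu.1 t
      · simp
  case y t k =>
    refine ⟨⟨?_, ?_⟩, ?_⟩
    · split_ifs <;> simp
    · split_ifs <;> simp
    · split_ifs <;> simp
  all_goals
    try split_ifs
  all_goals simp

private theorem OK_nblen (u : Tk) : (I.nb u).length = match u with
    | .s => 1 | .e => 1 | .m _ => 2 | .w _ => 2 | .r _ _ => 2 | _ => 3 := by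
  cases u <;> rfl

end X3

theorem p_OK : S_OK := by
  intro I hI
  refine ⟨⟨X3.OK_nodup, ?_, ?_, ?_, ?_, ?_, ?_⟩, ?_, ?_, ?_, ?_⟩
  · intro u hu v hv
    rw [X3.OK_mem] at hu ⊢
    exact X3.OK_sub hI u hu v hv
  · intro u hu v hv
    rw [X3.OK_mem] at hu
    exact X3.OK_symm hI u hu v hv
  · intro u hu
    rw [X3.OK_mem] at hu
    exact X3.OK_irr u hu
  · intro u hu
    rw [X3.OK_mem] at hu
    exact X3.OK_nbd hI u hu
  · intro u hu v hv h
    rw [X3.OK_mem] at hu hv
    exact X3.OK_inj u hu v hv h
  · intro u _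
    exact X3.OK_pos u
  · simp [X3.vs]
  · intro u _
    rw [X3.OK_nblen]
    cases u <;> simp
  · simp only [X3.vs, List.countP_append, List.countP_flatMap, X3.OK_nblen]
    simp [Function.comp_def, List.range_succ]
  · simp only [X3.vs, List.countP_append, List.countP_flatMap, X3.OK_nblen]
    simp [Function.comp_def, List.range_succ]
    ring

end Pool.Agent.MPafd87c
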