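import Pool.Agent.Lib.MP_afd87c_lc.BC.Stm

/-!
# The order of the crossings on a chord (piece ORD)
-/

set_option autoImplicit false

namespace Pool.Agent.MPafd87c

theorem p_ORD : S_ORD := by
  refine ⟨?_, ?_, ?_⟩
  · intro L A K B t hK hKL hLB hBA h
    have hD : 0 < L + A - K - B := by linarith
    have h1 : t * (L + A - K - B) = L * A - K * B := by linear_combination h
    have h2 : t * (L + A - K - B) < 2 * L * (L + A - K - B) := by
      rw [h1]
      have hL : 0 < L := by linarith
      have hB : 0 < B := by linarith
      have a1 : 0 < L * (L - K) := mul_pos hL (by linarith)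
      have a2 : 0 < L * (A - 4 * B) := mul_pos hL (by linarith)
      have a3 : 0 < L * B := mul_pos hL hB
      have a4 : 0 < K * B := mul_pos hK hB
      nlinarith
    exact lt_of_mul_lt_mul_right h2 hD.le
  · intro L A y W t hL hLW hWA hy h
    have hA : 0 < A := by linarith
    have hD : 0 < L + A - y - W := by linarith
    have h1 : t * (L + A - y - W) = L * A - y * W := by linear_combination h
    have h2 : 2 * L * (L + A - y - W) < t * (L + A - y - W) := by
      rw [h1]
      have a1 : 0 ≤ (-A - y) * (W - 2 * L) := mul_nonneg (by linarith) (by linarith)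
      have a2 : 0 < A * (W - 4 * L) := mul_pos hA (by linarith)
      have a3 : 0 < L * (W - 4 * L) := mul_pos hL (by linarith)
      have a4 : 0 < L * A := mul_pos hL hA
      have a5 : 0 < L * L := mul_pos hL hL
      nlinarith
    exact lt_of_mul_lt_mul_right h2 hD.le
  · intro L A I J t hL hLI hIA hAJ h
    have hI : 0 < I := by linarith
    have hJ : 0 < J := by linarith
    have hD : 0 < I + J - L - A := by linarith
    have h1 : t * (I + J - L - A) = I * J - L * A := by linear_combination -h
    have h2 : 2 * L * (I + J - L - A) < t * (I + J - L - A) := by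
      rw [h1]
      have a1 : 0 < J * (I - 4 * L) := mul_pos hJ (by linarith)
      have a2 : 0 < L * (A - I) := mul_pos hL (by linarith)
      have a3 : 0 < L * (J - I) := mul_pos hL (by linarith)
      have a4 : 0 < L * L := mul_pos hL hL
      have a5 : 0 < L * J := mul_pos hL hJ
      nlinarith
    exact lt_of_mul_lt_mul_right h2 hD.le

end Pool.Agent.MPafd87c
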