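import Pool.Agent.Lib.MP_afd87c_lc.BC.Stm

set_option autoImplicit false

namespace Pool.Agent.MPafd87c

private def POS_D5 (a b c d e : ℝ) : Prop :=
  (a ≠ b ∧ a ≠ c ∧ a ≠ d ∧ a ≠ e) ∧ (b ≠ c ∧ b ≠ d ∧ b ≠ e) ∧ (c ≠ d ∧ c ≠ e) ∧ d ≠ e

private def POS_Gen (F : Set ℝ) : Prop :=
  ∀ a ∈ F, ∀ b ∈ F, ∀ c ∈ F, ∀ d ∈ F, ∀ e ∈ F, ∀ f ∈ F, POS_D5 a b c d e →
    a ≠ f → b ≠ f → c ≠ f → d ≠ f → e ≠ f → conc a b c d e f ≠ 0

private theorem POS_sub {a b c d e : ℝ} (h : POS_D5 a b c d e) :
    {x | conc a b c d e x = 0}.Subsingleton := by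
  intro x hx y hy
  rw [Set.mem_ofPred_eq] at hx hy
  by_contra hxy
  have h1 : (x - y) * ((e - a) * (e - b) - (e - c) * (e - d)) = 0 := by
    have : (x - y) * ((e - a) * (e - b) - (e - c) * (e - d)) =
        conc a b c d e x - conc a b c d e y := by
      unfold conc
      ring
    rw [this, hx, hy, sub_zero]
  have h2 : (e - a) * (e - b) - (e - c) * (e - d) = 0 := by
    rcases mul_eq_zero.mp h1 with h | h
    · exact absurd (sub_eq_zero.mp h) hxy
    · exact h
  have h3 : e * (a * b - c * d) + (a + b) * (c * d) - a * b * (c + d) = 0 := by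
    have : conc a b c d e x = x * ((e - a) * (e - b) - (e - c) * (e - d)) +
        (e * (a * b - c * d) + (a + b) * (c * d) - a * b * (c + d)) := rfl
    rw [h2] at this
    rw [hx] at this
    linarith
  have h4 : (e - b) * (a - c) * (a - d) = 0 := by
    have : (e - b) * (a - c) * (a - d) = -(a * ((e - a) * (e - b) - (e - c) * (e - d)) +
        (e * (a * b - c * d) + (a + b) * (c * d) - a * b * (c + d))) := by ring
    rw [this, h2, h3]
    ring
  obtain ⟨⟨hab, hac, had, hae⟩, ⟨hbc, hbd, hbe⟩, ⟨hcd, hce⟩, hde⟩ := h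
  rcases mul_eq_zero.mp h4 with h | h
  · rcases mul_eq_zero.mp h with h | h
    · exact hbe (sub_eq_zero.mp h).symm
    · exact hac (sub_eq_zero.mp h)
  · exact had (sub_eq_zero.mp h)

private theorem POS_ext (F : Set ℝ) (hF : F.Finite) (hG : POS_Gen F) (X : Set ℝ)
    (hX : X.Infinite) : ∃ x ∈ X, x ∉ F ∧ POS_Gen (insert x F) := by
  have hB : (F ∪ ⋃ a ∈ F, ⋃ b ∈ F, ⋃ c ∈ F, ⋃ d ∈ F, ⋃ e ∈ F,
      {x | POS_D5 a b c d e ∧ conc a b c d e x = 0}).Finite := by
    refine hF.union ?_
    refine hF.biUnion fun a _ => hF.biUnion fun b _ => hF.biUnion fun c _ =>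
      hF.biUnion fun d _ => hF.biUnion fun e _ => ?_
    apply Set.Subsingleton.finite
    intro x hx y hy
    exact POS_sub hx.1 hx.2 hy.2
  obtain ⟨x, hxX, hx⟩ := hX.exists_notMem_finite hB
  rw [Set.mem_union, not_or] at hx
  obtain ⟨hxF, hx2⟩ := hx
  have h5 : ∀ a ∈ F, ∀ b ∈ F, ∀ c ∈ F, ∀ d ∈ F, ∀ e ∈ F, POS_D5 a b c d e →
      conc a b c d e x ≠ 0 := by
    intro a ha b hb c hc d hd e he hD h0
    apply hx2
    simp only [Set.mem_iUnion, Set.mem_ofPred_eq]
    exact ⟨a, ha, b, hb, c, hc, d, hd, e, he, hD, h0⟩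
  refine ⟨x, hxX, hxF, ?_⟩
  intro a ha b hb c hc d hd e he f hf hD haf hbf hcf hdf hef
  obtain ⟨⟨hab, hac, had, hae⟩, ⟨hbc, hbd, hbe⟩, ⟨hcd, hce⟩, hde⟩ := hD
  rw [Set.mem_insert_iff] at ha hb hc hd he hf
  by_cases hfx : f = x
  · subst hfx
    exact h5 a (ha.resolve_left haf) b (hb.resolve_left hbf) c (hc.resolve_left hcf) d
      (hd.resolve_left hdf) e (he.resolve_left hef)
      ⟨⟨hab, hac, had, hae⟩, ⟨hbc, hbd, hbe⟩, ⟨hcd, hce⟩, hde⟩
  have hfF := hf.resolve_left hfx
  by_cases hex : e = x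
  · subst hex
    have : conc a b c d e f = conc a b c d f e := by
      unfold conc
      ring
    rw [this]
    exact h5 a (ha.resolve_left hae) b (hb.resolve_left hbe) c (hc.resolve_left hce) d
      (hd.resolve_left hde) f hfF
      ⟨⟨hab, hac, had, haf⟩, ⟨hbc, hbd, hbf⟩, ⟨hcd, hcf⟩, hdf⟩
  have heF := he.resolve_left hex
  by_cases hdx : d = x
  · subst hdx
    have : conc a b c d e f = -conc a b e f c d := by
      unfold conc
      ring
    rw [this, neg_ne_zero]
    exact h5 a (ha.resolve_left had) b (hb.resolve_left hbd) e heF f hfF c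
      (hc.resolve_left hcd)
      ⟨⟨hab, hae, haf, hac⟩, ⟨hbe, hbf, hbc⟩, ⟨hef, hce.symm⟩, hcf.symm⟩
  have hdF := hd.resolve_left hdx
  by_cases hcx : c = x
  · subst hcx
    have : conc a b c d e f = -conc a b e f d c := by
      unfold conc
      ring
    rw [this, neg_ne_zero]
    exact h5 a (ha.resolve_left hac) b (hb.resolve_left hbc) e heF f hfF d hdF
      ⟨⟨hab, hae, haf, had⟩, ⟨hbe, hbf, hbd⟩, ⟨hef, hde.symm⟩, hdf.symm⟩
  have hcF := hc.resolve_left hcx
  by_cases hbx : b = x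
  · subst hbx
    have : conc a b c d e f = -conc e f c d a b := by
      unfold conc
      ring
    rw [this, neg_ne_zero]
    exact h5 e heF f hfF c hcF d hdF a (ha.resolve_left hab)
      ⟨⟨hef, hce.symm, hde.symm, hae.symm⟩, ⟨hcf.symm, hdf.symm, haf.symm⟩,
        ⟨hcd, hac.symm⟩, had.symm⟩
  have hbF := hb.resolve_left hbx
  by_cases hax : a = x
  · subst hax
    have : conc a b c d e f = -conc e f c d b a := by
      unfold conc
      ring
    rw [this, neg_ne_zero]
    exact h5 e heF f hfF c hcF d hdF b hbF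
      ⟨⟨hef, hce.symm, hde.symm, hbe.symm⟩, ⟨hcf.symm, hdf.symm, hbf.symm⟩,
        ⟨hcd, hbc.symm⟩, hbd.symm⟩
  exact hG a (ha.resolve_left hax) b hbF c hcF d hdF e heF f hfF
    ⟨⟨hab, hac, had, hae⟩, ⟨hbc, hbd, hbe⟩, ⟨hcd, hce⟩, hde⟩ haf hbf hcf hdf hef

private theorem POS_mono {F F' : Set ℝ} (h : F ⊆ F') (hG : POS_Gen F') : POS_Gen F := by
  intro a ha b hb c hc d hd e he f hf
  exact hG a (h ha) b (h hb) c (h hc) d (h hd) e (h he) f (h hf)

private theorem POS_seq (n : ℕ) : ∃ v : ℕ → ℝ, 0 < v 0 ∧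
    (∀ i, i + 1 < n → 4 * v i < v (i + 1)) ∧ POS_Gen (v '' Set.Iio n) := by
  induction n with
  | zero =>
    refine ⟨fun _ => 1, one_pos, fun i hi => absurd hi (by omega), ?_⟩
    intro a ha
    obtain ⟨i, hi, _⟩ := ha
    exact absurd hi (by simp)
  | succ n ih =>
    obtain ⟨v, h1, h2, h3⟩ := ih
    obtain ⟨x, hx, -, hG⟩ := POS_ext (v '' Set.Iio n) ((Set.finite_Iio n).image v) h3
      (Set.Ioi (max 0 (4 * v (n - 1)))) (Set.Ioi_infinite _)
    rw [Set.mem_Ioi, max_lt_iff] at hx
    refine ⟨Function.update v n x, ?_, ?_, POS_mono ?_ hG⟩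
    · by_cases hn : n = 0
      · subst hn
        rw [Function.update_self]
        exact hx.1
      · rw [Function.update_of_ne (fun h => hn h.symm)]
        exact h1
    · intro i hi
      have hin : i ≠ n := by omega
      rw [Function.update_of_ne hin]
      by_cases hi2 : i + 1 = n
      · rw [hi2, Function.update_self]
        have : n - 1 = i := by omega
        rw [this] at hx
        exact hx.2
      · rw [Function.update_of_ne hi2]
        exact h2 i (by omega)
    · rintro y ⟨i, hi, rfl⟩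
      rw [Set.mem_Iio] at hi
      by_cases hin : i = n
      · subst hin
        rw [Function.update_self]
        exact Set.mem_insert _ _
      · rw [Function.update_of_ne hin]
        exact Set.mem_insert_of_mem _ ⟨i, by rw [Set.mem_Iio]; omega, rfl⟩

theorem p_POS : S_POS := by
  intro n
  obtain ⟨v, h1, h2, h3⟩ := POS_seq n
  obtain ⟨y, hy, -, hG⟩ := POS_ext (v '' Set.Iio n) ((Set.finite_Iio n).image v) h3
    (Set.Iio (min 0 (-v (n - 1)))) (Set.Iio_infinite _)
  rw [Set.mem_Iio, lt_min_iff] at hy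
  have hpos : ∀ i, i < n → 0 < v i := by
    intro i
    induction i with
    | zero => intro _; exact h1
    | succ i ih =>
      intro hi
      have := ih (by omega)
      have := h2 i hi
      linarith
  have hlt : ∀ i j, i < j → j < n → v i < v j := by
    intro i j hij
    induction j, hij using Nat.le_induction with
    | base =>
      intro hj
      have := hpos i (by omega)
      have := h2 i hj
      linarith
    | succ j hj ih =>
      intro hjn
      have e1 := ih (by omega)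
      have e2 := hpos j (by omega)
      have e3 := h2 j hjn
      linarith
  set u : ℕ → ℝ := fun i => if i = 0 then y else v (i - 1) with hu
  have hu0 : u 0 = y := by simp [hu]
  have hus : ∀ i, 1 ≤ i → u i = v (i - 1) := by
    intro i hi
    have : i ≠ 0 := by omega
    simp [hu, this]
  have hmem : ∀ i, i ≤ n → u i ∈ insert y (v '' Set.Iio n) := by
    intro i hi
    by_cases h0 : i = 0
    · rw [h0, hu0]
      exact Set.mem_insert _ _
    · rw [hus i (by omega)]
      exact Set.mem_insert_of_mem _ ⟨i - 1, by rw [Set.mem_Iio]; omega, rfl⟩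
  have hlt2 : ∀ i j, i < j → j ≤ n → u i < u j := by
    intro i j hij hj
    rw [hus j (by omega)]
    by_cases h0 : i = 0
    · rw [h0, hu0]
      exact hy.1.trans (hpos (j - 1) (by omega))
    · rw [hus i (by omega)]
      exact hlt (i - 1) (j - 1) (by omega) (by omega)
  have hne : ∀ i j, i ≠ j → i ≤ n → j ≤ n → u i ≠ u j := by
    intro i j hij hi hj
    rcases Nat.lt_or_gt_of_ne hij with h | h
    · exact (hlt2 i j h hj).ne
    · exact (hlt2 j i h hi).ne'
  refine ⟨u, ?_, ?_, ?_, ?_⟩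
  · rw [hus 1 (le_refl _)]
    exact h1
  · intro i hi1 hin
    rw [hus i hi1, hus (i + 1) (by omega)]
    have := h2 (i - 1) (by omega)
    have e : i - 1 + 1 = i + 1 - 1 := by omega
    rw [e] at this
    exact this
  · intro hn
    rw [hu0, hus n hn]
    exact hy.2
  · intro a b c d e f hnd hle
    simp only [List.nodup_cons, List.mem_cons, List.not_mem_nil, or_false, not_or,
      List.nodup_nil, and_true, not_false_eq_true] at hnd
    obtain ⟨⟨hab, hac, had, hae, haf⟩, ⟨hbc, hbd, hbe, hbf⟩, ⟨hcd, hce, hcf⟩, ⟨hde, hdf⟩, hef⟩ :=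
      hnd
    have ha := hle a (by simp)
    have hb := hle b (by simp)
    have hc := hle c (by simp)
    have hd := hle d (by simp)
    have he := hle e (by simp)
    have hf := hle f (by simp)
    exact hG _ (hmem a ha) _ (hmem b hb) _ (hmem c hc) _ (hmem d hd) _ (hmem e he) _ (hmem f hf)
      ⟨⟨hne _ _ hab ha hb, hne _ _ hac ha hc, hne _ _ had ha hd, hne _ _ hae ha he⟩,
        ⟨hne _ _ hbc hb hc, hne _ _ hbd hb hd, hne _ _ hbe hb he⟩,
        ⟨hne _ _ hcd hc hd, hne _ _ hce hc he⟩, hne _ _ hde hd he⟩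
      (hne _ _ haf ha hf) (hne _ _ hbf hb hf) (hne _ _ hcf hc hf) (hne _ _ hdf hd hf)
      (hne _ _ hef he hf)

end Pool.Agent.MPafd87c
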