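import Pool.Agent.Lib.MP_afd87c_lc.BC.Stm

/-! Piece BCN PSI: elementary facts on a projective map. -/

set_option autoImplicit false

namespace Pool.Agent.MPafd87c

private theorem PSI_normSq (t y : ℝ) (hy : 1 + y ≠ 0) :
    ‖psi t y‖ ^ 2 = 1 - 4 * (y - t * t) / (1 + y) ^ 2 := by
  rw [← Complex.normSq_eq_norm_sq, Complex.normSq_apply]
  show (1 - y) / (1 + y) * ((1 - y) / (1 + y)) + 2 * t / (1 + y) * (2 * t / (1 + y)) = _
  field_simp
  ring

private theorem PSI_inj (t y t' y' : ℝ) (h : t * t ≤ y) (h' : t' * t' ≤ y')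
    (he : psi t y = psi t' y') : t = t' ∧ y = y' := by
  have hy : 0 < 1 + y := by nlinarith [mul_self_nonneg t]
  have hy' : 0 < 1 + y' := by nlinarith [mul_self_nonneg t']
  have h1 : (1 - y) / (1 + y) = (1 - y') / (1 + y') := congrArg Complex.re he
  have h2 : 2 * t / (1 + y) = 2 * t' / (1 + y') := congrArg Complex.im he
  rw [div_eq_div_iff hy.ne' hy'.ne'] at h1
  have h3 : y = y' := by linarith
  subst h3
  rw [div_left_inj' hy.ne'] at h2
  exact ⟨by linarith, rfl⟩

/-- the denominator -/
private def PSI_w (a b u : ℝ) : ℝ := 1 + ((a + b) * u - a * b)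

private theorem PSI_w_pos {a b u : ℝ} (h1 : a ≤ u) (h2 : u ≤ b) : 0 < PSI_w a b u := by
  have h3 : PSI_w a b u = 1 + u * u + (u - a) * (b - u) := by
    unfold PSI_w
    ring
  rw [h3]
  have h4 : 0 ≤ (u - a) * (b - u) := mul_nonneg (by linarith) (by linarith)
  nlinarith [mul_self_nonneg u]

private theorem PSI_re {a b u : ℝ} (h : PSI_w a b u ≠ 0) :
    (cp a b u).re = 2 / PSI_w a b u - 1 := by
  show (1 - ((a + b) * u - a * b)) / (1 + ((a + b) * u - a * b)) = _
  have h' : 1 + ((a + b) * u - a * b) ≠ 0 := h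
  unfold PSI_w
  field_simp
  ring

private theorem PSI_im (a b u : ℝ) : (cp a b u).im = 2 * (u / PSI_w a b u) := by
  show 2 * u / (1 + ((a + b) * u - a * b)) = _
  unfold PSI_w
  ring

/-- criterion for a convex combination -/
private theorem PSI_comb {a b s t u P Q α β : ℝ} (hs : PSI_w a b s ≠ 0) (ht : PSI_w a b t ≠ 0)
    (hu : PSI_w a b u ≠ 0) (hαβ : α + β = 1) (hP : P = α / PSI_w a b s)
    (hQ : Q = β / PSI_w a b t) (h1 : 1 / PSI_w a b u = P + Q)
    (h2 : u / PSI_w a b u = P * s + Q * t) :
    α • cp a b s + β • cp a b t = cp a b u := by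
  apply Complex.ext
  · rw [Complex.add_re, Complex.smul_re, Complex.smul_re, PSI_re hs, PSI_re ht, PSI_re hu,
      smul_eq_mul, smul_eq_mul]
    have h3 : 2 / PSI_w a b u = 2 * (1 / PSI_w a b u) := by ring
    rw [h3, h1, hP, hQ]
    have h4 : α * (2 / PSI_w a b s - 1) + β * (2 / PSI_w a b t - 1)
        = 2 * (α / PSI_w a b s + β / PSI_w a b t) - (α + β) := by ring
    rw [h4, hαβ]
  · rw [Complex.add_im, Complex.smul_im, Complex.smul_im, PSI_im, PSI_im, PSI_im, h2, hP, hQ,
      smul_eq_mul, smul_eq_mul]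
    ring

theorem p_PSI : S_PSI := by
  refine ⟨?_, ?_, ?_, PSI_inj, ?_, ?_⟩
  · intro x
    have h := PSI_normSq x (x * x) (by nlinarith [mul_self_nonneg x])
    rw [sub_self, mul_zero, zero_div, sub_zero] at h
    have h2 : ‖pp x‖ ^ 2 = 1 := h
    exact (pow_eq_one_iff_of_nonneg (norm_nonneg _) two_ne_zero).1 h2
  · intro x y h
    exact (PSI_inj x (x * x) y (y * y) le_rfl le_rfl h).1
  · intro t y h
    have hy : 0 < 1 + y := by nlinarith [mul_self_nonneg t]
    have h1 := PSI_normSq t y hy.ne'
    have h2 : 0 < 4 * (y - t * t) / (1 + y) ^ 2 := by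
      apply div_pos
      · linarith
      · positivity
    have h3 : ‖psi t y‖ ^ 2 < 1 := by linarith
    exact (sq_lt_one_iff₀ (norm_nonneg _)).1 h3
  · intro a b
    constructor
    · show psi a ((a + b) * a - a * b) = psi a (a * a)
      congr 1
      ring
    · show psi b ((a + b) * b - a * b) = psi b (b * b)
      congr 1
      ring
  · intro a b _ s t has hst htb
    have hws : 0 < PSI_w a b s := PSI_w_pos has (hst.trans htb)
    have hwt : 0 < PSI_w a b t := PSI_w_pos (has.trans hst) htb
    ext p
    constructor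
    · rintro ⟨u, ⟨hu1, hu2⟩, rfl⟩
      have hwu : 0 < PSI_w a b u := PSI_w_pos (has.trans hu1) (hu2.trans htb)
      rcases eq_or_lt_of_le hst with h | h
      · have h1 : u = s := le_antisymm (by rw [h]; exact hu2) hu1
        rw [h1]
        exact left_mem_segment ℝ _ _
      · have hts : 0 < t - s := by linarith
        have hne := hts.ne'
        have hwu' := hwu.ne'
        have hws' := hws.ne'
        have hwt' := hwt.ne'
        refine ⟨PSI_w a b s * (t - u) / (PSI_w a b u * (t - s)),
          PSI_w a b t * (u - s) / (PSI_w a b u * (t - s)), ?_, ?_, ?_, ?_⟩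
        · exact div_nonneg (mul_nonneg hws.le (by linarith)) (mul_pos hwu hts).le
        · exact div_nonneg (mul_nonneg hwt.le (by linarith)) (mul_pos hwu hts).le
        · rw [← add_div, div_eq_one_iff_eq (mul_ne_zero hwu' hne)]
          unfold PSI_w
          ring
        · refine PSI_comb hws' hwt' hwu' ?_ rfl rfl ?_ ?_
          · rw [← add_div, div_eq_one_iff_eq (mul_ne_zero hwu' hne)]
            unfold PSI_w
            ring
          · field_simp
            ring
          · field_simp
            ring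
    · rintro ⟨α, β, hα, hβ, hαβ, rfl⟩
      set P : ℝ := α / PSI_w a b s with hP
      set Q : ℝ := β / PSI_w a b t with hQ
      have hP0 : 0 ≤ P := div_nonneg hα hws.le
      have hQ0 : 0 ≤ Q := div_nonneg hβ hwt.le
      have hPs : P * PSI_w a b s = α := div_mul_cancel₀ _ hws.ne'
      have hQt : Q * PSI_w a b t = β := div_mul_cancel₀ _ hwt.ne'
      have hPQ : 0 < P + Q := by
        rcases eq_or_lt_of_le hP0 with h | h
        · have h1 : α = 0 := by rw [← hPs, ← h, zero_mul]
          have h2 : β = 1 := by linarith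
          have h3 : 0 < Q := div_pos (by linarith) hwt
          linarith
        · linarith
      have hPQ' := hPQ.ne'
      refine ⟨(P * s + Q * t) / (P + Q), ⟨?_, ?_⟩, ?_⟩
      · rw [le_div_iff₀ hPQ]
        nlinarith
      · rw [div_le_iff₀ hPQ]
        nlinarith
      · have hwu : PSI_w a b ((P * s + Q * t) / (P + Q)) = 1 / (P + Q) := by
          have h1 : PSI_w a b ((P * s + Q * t) / (P + Q)) * (P + Q)
              = P * PSI_w a b s + Q * PSI_w a b t := by
            unfold PSI_w
            field_simp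
            ring
          rw [hPs, hQt, hαβ] at h1
          rw [eq_div_iff hPQ', h1]
        symm
        refine PSI_comb hws.ne' hwt.ne' ?_ hαβ hP hQ ?_ ?_
        · rw [hwu]
          exact one_div_ne_zero hPQ'
        · rw [hwu, one_div_one_div]
        · rw [hwu]
          field_simp

end Pool.Agent.MPafd87c
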