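import Pool.Agent.Lib.MP_afd87c_lc.BC.Stm

/-!
# The edges of a Hamiltonian path (MP_afd87c_lc, BCN PTH)
-/

set_option autoImplicit false

namespace Pool.Agent.MPafd87c

/-- `u` and `v` are consecutive in the list -/
private def PTH_U {T : Type} (l : List T) (u v : T) : Prop :=
  ∃ i : ℕ, (l[i]? = some u ∧ l[i + 1]? = some v) ∨ (l[i]? = some v ∧ l[i + 1]? = some u)

private theorem PTH_symm {T : Type} {l : List T} {u v : T} (h : PTH_U l u v) : PTH_U l v u := by
  obtain ⟨i, h | h⟩ := h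
  · exact ⟨i, Or.inr h⟩
  · exact ⟨i, Or.inl h⟩

private theorem PTH_inj {T : Type} {l : List T} (hl : l.Nodup) {u : T} {i j : ℕ}
    (hi : l[i]? = some u) (hj : l[j]? = some u) : i = j := by
  have h1 : i < l.length := (List.getElem?_eq_some_iff.1 hi).1
  exact (List.getElem?_inj h1 hl).1 (hi.trans hj.symm)

private theorem PTH_pos {T : Type} {l : List T} (hl : l.Nodup) {u v : T} {i j : ℕ}
    (hi : l[i]? = some u) (hj : l[j]? = some v) (h : PTH_U l u v) : i = j + 1 ∨ j = i + 1 := by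
  obtain ⟨k, ⟨h1, h2⟩ | ⟨h1, h2⟩⟩ := h
  · have e1 := PTH_inj hl hi h1
    have e2 := PTH_inj hl hj h2
    omega
  · have e1 := PTH_inj hl hj h1
    have e2 := PTH_inj hl hi h2
    omega

private theorem PTH_mid {T : Type} {l : List T} (hl : l.Nodup) {u : T} {i : ℕ}
    (hi : l[i + 1]? = some u) (hn : i + 2 < l.length) :
    ∃ p q, p ≠ q ∧ ∀ v, PTH_U l u v ↔ v = p ∨ v = q := by
  have h0 : l[i]? = some l[i] := List.getElem?_eq_getElem (by omega)
  have h2 : l[i + 2]? = some l[i + 2] := List.getElem?_eq_getElem hn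
  refine ⟨l[i], l[i + 2], ?_, fun v => ⟨?_, ?_⟩⟩
  · intro h
    rw [← h] at h2
    have := PTH_inj hl h0 h2
    omega
  · rintro ⟨k, ⟨h3, h4⟩ | ⟨h3, h4⟩⟩
    · right
      have e := PTH_inj hl hi h3
      subst e
      rw [h2] at h4
      exact (Option.some_inj.1 h4).symm
    · left
      have e := PTH_inj hl hi h4
      have e' : k = i := by omega
      subst e'
      rw [h0] at h3
      exact (Option.some_inj.1 h3).symm
  · rintro (rfl | rfl)
    · exact ⟨i, Or.inr ⟨h0, hi⟩⟩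
    · exact ⟨i + 1, Or.inl ⟨hi, h2⟩⟩

private theorem PTH_ex {T : Type} {l : List T} {u : T} {i : ℕ} (hi : l[i]? = some u)
    (hn : 2 ≤ l.length) : ∃ a, PTH_U l u a := by
  have h1 : i < l.length := (List.getElem?_eq_some_iff.1 hi).1
  rcases Nat.eq_zero_or_pos i with rfl | h
  · exact ⟨l[1], 0, Or.inl ⟨hi, List.getElem?_eq_getElem _⟩⟩
  · obtain ⟨j, rfl⟩ : ∃ j, i = j + 1 := ⟨i - 1, by omega⟩
    exact ⟨l[j], j, Or.inr ⟨List.getElem?_eq_getElem _, hi⟩⟩

theorem p_PTH : S_PTH := by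
  intro T vs l nb s e hvs hnb hp hc hs he hse hs1 he1
  have hl : l.Nodup := hp.nodup_iff.2 hvs
  have hmem : ∀ {i : ℕ} {u : T}, l[i]? = some u → u ∈ vs := fun h =>
    hp.mem_iff.1 (List.mem_of_getElem? h)
  have hpos : ∀ {u : T}, u ∈ vs → ∃ i, l[i]? = some u := fun h =>
    List.mem_iff_getElem?.1 (hp.mem_iff.2 h)
  have hch : ∀ {i : ℕ} {u v : T}, l[i]? = some u → l[i + 1]? = some v → v ∈ nb u := by
    intro i u v h1 h2
    obtain ⟨h3, rfl⟩ := List.getElem?_eq_some_iff.1 h1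
    obtain ⟨h4, rfl⟩ := List.getElem?_eq_some_iff.1 h2
    exact List.isChain_iff_getElem.1 hc i h4
  have hU : ∀ u v, PTH_U l u v → v ∈ nb u := by
    rintro u v ⟨i, ⟨h1, h2⟩ | ⟨h1, h2⟩⟩
    · exact hch h1 h2
    · exact (hnb v (hmem h1) u (hch h1 h2)).2
  have hend : ∀ (u : T) (i : ℕ), (∃ a, nb u = [a]) → l[i]? = some u → i = 0 ∨ i + 1 = l.length := by
    rintro u i ⟨a, ha⟩ hi
    have h1 : i < l.length := (List.getElem?_eq_some_iff.1 hi).1
    by_contra h2
    obtain ⟨j, rfl⟩ : ∃ j, i = j + 1 := ⟨i - 1, by omega⟩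
    obtain ⟨p, q, hpq, h3⟩ := PTH_mid hl hi (by omega)
    have h4 := hU u p ((h3 p).2 (Or.inl rfl))
    have h5 := hU u q ((h3 q).2 (Or.inr rfl))
    rw [ha, List.mem_singleton] at h4 h5
    exact hpq (h4.trans h5.symm)
  obtain ⟨i, hi⟩ := hpos hs
  obtain ⟨j, hj⟩ := hpos he
  have hij : i ≠ j := by
    rintro rfl
    rw [hi] at hj
    exact hse (Option.some_inj.1 hj)
  have hil : i < l.length := (List.getElem?_eq_some_iff.1 hi).1
  have hjl : j < l.length := (List.getElem?_eq_some_iff.1 hj).1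
  have hi0 := hend s i hs1 hi
  have hj0 := hend e j he1 hj
  refine ⟨PTH_U l, fun u v => PTH_symm, hU, ?_, PTH_ex hi (by omega), PTH_ex hj (by omega), ?_⟩
  · intro u hu hus hue
    obtain ⟨k, hk⟩ := hpos hu
    have hkl : k < l.length := (List.getElem?_eq_some_iff.1 hk).1
    have hki : k ≠ i := by
      rintro rfl
      rw [hi] at hk
      exact hus (Option.some_inj.1 hk).symm
    have hkj : k ≠ j := by
      rintro rfl
      rw [hj] at hk
      exact hue (Option.some_inj.1 hk).symm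
    obtain ⟨k', rfl⟩ : ∃ k', k = k' + 1 := ⟨k - 1, by omega⟩
    exact PTH_mid hl hk (by omega)
  · intro a b c d f g hnd hab hbc hcd hdf hfg hga
    have hv : ∀ {u v : T}, PTH_U l u v → ∃ i : ℕ, l[i]? = some u := by
      rintro u v ⟨i, ⟨h1, h2⟩ | ⟨h1, h2⟩⟩
      · exact ⟨_, h1⟩
      · exact ⟨_, h2⟩
    obtain ⟨ia, ha⟩ := hv hab
    obtain ⟨ib, hb⟩ := hv hbc
    obtain ⟨ic, hc'⟩ := hv hcd
    obtain ⟨id, hd⟩ := hv hdf
    obtain ⟨jf, hf⟩ := hv hfg
    obtain ⟨ig, hg⟩ := hv hga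
    have h1 := PTH_pos hl ha hb hab
    have h2 := PTH_pos hl hb hc' hbc
    have h3 := PTH_pos hl hc' hd hcd
    have h4 := PTH_pos hl hd hf hdf
    have h5 := PTH_pos hl hf hg hfg
    have h6 := PTH_pos hl hg ha hga
    have hne : ∀ {u v : T} {i j : ℕ}, l[i]? = some u → l[j]? = some v → u ≠ v → i ≠ j := by
      rintro u v i _ h1 h2 h3 rfl
      rw [h1] at h2
      exact h3 (Option.some_inj.1 h2)
    simp only [List.nodup_cons, List.mem_cons, List.not_mem_nil, or_false, not_or] at hnd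
    have n1 := hne ha hc' hnd.1.2.1
    have n2 := hne hb hd hnd.2.1.2.1
    have n3 := hne hc' hf hnd.2.2.1.2.1
    have n4 := hne hd hg hnd.2.2.2.1.2
    have n5 := hne ha hf hnd.1.2.2.2.1
    have n6 := hne hb hg hnd.2.1.2.2.2
    omega

end Pool.Agent.MPafd87c
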