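import Pool.Agent.Lib.MP_afd87c_lc.BC.Stm

/-!
# Piece REG: the region of a bundled crossing of one edge with consecutive edges
-/

set_option autoImplicit false

namespace Pool.Agent.MPafd87c

open Metric

private theorem REG_compact (a b : ℂ) : IsCompact (segment ℝ a b) := by
  rw [segment_eq_image ℝ a b]
  apply isCompact_Icc.image
  fun_prop

private theorem REG_straight {V : Type} {G : SimpleGraph V} (D : Layout G) (hD : D.Straight)
    (f : Sym2 V) (hf : f ∈ G.edgeSet) :
    IsCompact (D.cur f) ∧ Convex ℝ (D.cur f) := by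
  induction f using Sym2.ind with
  | _ u v =>
    rw [SimpleGraph.mem_edgeSet] at hf
    rw [hD u v hf]
    exact ⟨REG_compact _ _, convex_segment _ _⟩

theorem p_REG : S_REG := by
  intro V _ G D hD e he p hp q hq hp1 hq1
  set I : Set ℂ := segment ℝ p q with hI
  have hIe : I ⊆ D.cur e := (REG_straight D hD e he).2.segment_subset hp hq
  have hIc : IsCompact I := REG_compact p q
  have hIv : Convex ℝ I := convex_segment p q
  have hpI : p ∈ I := left_mem_segment ℝ p q
  -- the closed set to be avoided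
  set B1 : Set ℂ := ⋃ f ∈ {f : Sym2 V | f ∈ G.edgeSet ∧ ¬ (D.cur f ∩ I).Nonempty}, D.cur f
    with hB1
  set B2 : Set ℂ := {r : ℂ | ∃ f g, D.CrossAt f g r ∧ r ∉ I} with hB2
  have hfin : Finite (Sym2 V) := inferInstance
  have hB1c : IsClosed B1 := by
    rw [hB1]
    apply Set.Finite.isClosed_biUnion (Set.toFinite _)
    rintro f ⟨hf, _⟩
    exact (REG_straight D hD f hf).1.isClosed
  have hB2f : B2.Finite := by
    have h1 : B2 ⊆ ⋃ x : Sym2 V × Sym2 V, {r : ℂ | D.CrossAt x.1 x.2 r} := by
      rintro r ⟨f, g, h, _⟩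
      exact Set.mem_iUnion.mpr ⟨(f, g), h⟩
    refine Set.Finite.subset (Set.finite_iUnion ?_) h1
    rintro ⟨f, g⟩
    apply Set.Subsingleton.finite
    intro r hr s hs
    obtain ⟨h2, h3, h4, h5, h6, h7⟩ := hr
    obtain ⟨_, _, _, k5, k6, k7⟩ := hs
    exact D.once f h2 g h3 h4 ⟨⟨h5, h6⟩, by simpa using h7⟩ ⟨⟨k5, k6⟩, by simpa using k7⟩
  have hBc : IsClosed (B1 ∪ B2) := hB1c.union hB2f.isClosed
  have hdis : Disjoint I (B1 ∪ B2) := by
    rw [Set.disjoint_left]
    intro r hr hrB
    rcases hrB with hrB | hrB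
    · rw [hB1] at hrB
      simp only [Set.mem_iUnion] at hrB
      obtain ⟨f, ⟨_, hf2⟩, hrf⟩ := hrB
      exact hf2 ⟨r, hrf, hr⟩
    · obtain ⟨f, g, _, h⟩ := hrB
      exact h hr
  obtain ⟨ε, hε, hεd⟩ := hdis.exists_cthickenings hIc hBc
  have hR : Disjoint (cthickening ε I) (B1 ∪ B2) :=
    hεd.mono_right (self_subset_cthickening _)
  set R : Set ℂ := cthickening ε I with hRdef
  have hRv : Convex ℝ R := hIv.cthickening ε
  have hRb : Bornology.IsBounded R := hIc.isBounded.cthickening
  have hRi : (interior R).Nonempty := by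
    refine ⟨p, ?_⟩
    rw [mem_interior]
    refine ⟨ball p ε, ?_, isOpen_ball, mem_ball_self hε⟩
    exact (ball_subset_thickening hpI ε).trans (thickening_subset_cthickening ε I)
  refine ⟨R, ?_, ?_, ?_, ?_⟩
  · obtain ⟨h, _, h2, _⟩ :=
      exists_homeomorph_image_interior_closure_frontier_eq_unitBall hRv hRi hRb
    refine ⟨h.symm, ?_⟩
    rw [← h2, hRdef, isClosed_cthickening.closure_eq, ← Set.image_comp]
    simp
  · intro f hf
    exact ((REG_straight D hD f hf).2.inter hRv).isPreconnected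
  · intro f hf hne
    by_contra hno
    obtain ⟨r, hr1, hr2⟩ := hne
    apply Set.disjoint_left.mp hR hr2
    left
    rw [hB1]
    simp only [Set.mem_iUnion]
    exact ⟨f, ⟨hf, hno⟩, hr1⟩
  · intro f g r hr
    constructor
    · intro hrR
      by_contra hno
      exact Set.disjoint_left.mp hR hrR (Or.inr ⟨f, g, hr, hno⟩)
    · intro hrI
      exact self_subset_cthickening _ hrI

end Pool.Agent.MPafd87c
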