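import Pool.Agent.Lib.MP_afd87c_lc.BC.Stm

/-! Piece BCN STR: straight line layouts (helper68). -/

set_option autoImplicit false

namespace Pool.Agent.MPafd87c

open Metric

/-- the affine function of the chord with the ends `A`, `B` -/
private def STR_F (A B : ℝ) (w : ℂ) : ℝ := (1 - A * B) * w.re + (A + B) * w.im - (1 + A * B)

private theorem STR_F_pp (A B C : ℝ) :
    STR_F A B (pp C) * (1 + C * C) = -2 * ((C - A) * (C - B)) := by
  have h : (1 + C * C) ≠ 0 := by nlinarith [mul_self_nonneg C]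
  unfold STR_F
  show ((1 - A * B) * ((1 - C * C) / (1 + C * C)) + (A + B) * (2 * C / (1 + C * C)) -
    (1 + A * B)) * (1 + C * C) = _
  field_simp
  ring

private theorem STR_F_combo (A B : ℝ) (P Q : ℂ) (α β : ℝ) (h : α + β = 1) :
    STR_F A B (α • P + β • Q) = α * STR_F A B P + β * STR_F A B Q := by
  have hβ : β = 1 - α := by linarith
  subst hβ
  unfold STR_F
  rw [Complex.add_re, Complex.add_im, Complex.smul_re, Complex.smul_re, Complex.smul_im,
    Complex.smul_im, smul_eq_mul, smul_eq_mul, smul_eq_mul, smul_eq_mul]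
  ring

private theorem STR_F_end (A B C : ℝ) (h : (C - A) * (C - B) = 0) : STR_F A B (pp C) = 0 := by
  have h1 := STR_F_pp A B C
  rw [h, mul_zero] at h1
  have h2 : (1 + C * C) ≠ 0 := by nlinarith [mul_self_nonneg C]
  exact (mul_eq_zero.1 h1).resolve_right h2

private theorem STR_F_seg (A B : ℝ) (p : ℂ) (hp : p ∈ segment ℝ (pp A) (pp B)) :
    STR_F A B p = 0 := by
  obtain ⟨α, β, _, _, h3, rfl⟩ := hp
  rw [STR_F_combo A B _ _ α β h3, STR_F_end A B A (by ring), STR_F_end A B B (by ring)]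
  ring

/-- the points of the closed disk on the line of the chord are on the chord -/
private theorem STR_line (h1 : S_PSI) (A B : ℝ) (hAB : A < B) (w : ℂ) (hw : ‖w‖ ≤ 1)
    (hF : STR_F A B w = 0) : w ∈ segment ℝ (pp A) (pp B) := by
  obtain ⟨_, _, _, _, q5, q6⟩ := h1
  have hn : w.re * w.re + w.im * w.im ≤ 1 := by
    have h2 : ‖w‖ ^ 2 ≤ 1 := by
      have := norm_nonneg w
      nlinarith
    rwa [← Complex.normSq_eq_norm_sq, Complex.normSq_apply] at h2
  unfold STR_F at hF
  have hX : 0 < 1 + w.re := by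
    have h3 : -1 ≤ w.re := by nlinarith [mul_self_nonneg w.im, mul_self_nonneg (w.re - 1)]
    rcases eq_or_lt_of_le h3 with h4 | h4
    · exfalso
      rw [← h4] at hn hF
      have h5 : w.im = 0 := by
        have : w.im * w.im ≤ 0 := by linarith
        exact mul_self_eq_zero.1 (le_antisymm this (mul_self_nonneg _))
      rw [h5] at hF
      linarith
    · linarith
  set t := w.im / (1 + w.re) with ht
  have him : w.im = t * (1 + w.re) := by
    rw [ht]
    field_simp
  set y := (1 - w.re) / (1 + w.re) with hy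
  have hre : 1 - w.re = y * (1 + w.re) := by
    rw [hy]
    field_simp
  have hy1 : (A + B) * t - A * B = y := by
    have h4 : ((A + B) * t - A * B - y) * (1 + w.re) = 0 := by
      rw [sub_mul, sub_mul, mul_assoc, ← him, ← hre]
      linarith
    linarith [(mul_eq_zero.1 h4).resolve_right hX.ne']
  have hty : t * t ≤ y := by
    have h4 : t * t * ((1 + w.re) * (1 + w.re)) ≤ y * (1 + w.re) * (1 + w.re) := by
      have h5 : t * t * ((1 + w.re) * (1 + w.re)) = w.im * w.im := by
        rw [him]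
        ring
      rw [h5, ← hre]
      nlinarith
    have h6 : 0 < (1 + w.re) * (1 + w.re) := mul_pos hX hX
    nlinarith
  have hmem : w ∈ cp A B '' Set.Icc A B := by
    have h7 : 0 ≤ (t - A) * (B - t) := by nlinarith
    refine ⟨t, ⟨?_, ?_⟩, ?_⟩
    · by_contra h8
      push Not at h8
      nlinarith
    · by_contra h8
      push Not at h8
      nlinarith
    · unfold cp
      rw [hy1]
      have hy2 : 1 + y = 2 / (1 + w.re) := by
        rw [hy]
        field_simp
        ring
      apply Complex.ext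
      · show (1 - y) / (1 + y) = w.re
        rw [hy2, hy]
        field_simp
        ring
      · show 2 * t / (1 + y) = w.im
        rw [hy2, him]
        field_simp
  rw [q6 A B hAB A B le_rfl hAB.le le_rfl, (q5 A B).1, (q5 A B).2] at hmem
  exact hmem

/-- the edges as segments -/
private def STR_cur {V : Type} (x : V → ℝ) : Sym2 V → Set ℂ :=
  Sym2.lift ⟨fun u v => segment ℝ (pp (x u)) (pp (x v)), fun _ _ => segment_symm ℝ _ _⟩

private theorem STR_rep {V : Type} {G : SimpleGraph V} {x : V → ℝ} (hx : Function.Injective x)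
    {e : Sym2 V} (he : e ∈ G.edgeSet) : ∃ a b, e = s(a, b) ∧ x a < x b := by
  induction e using Sym2.ind with
  | _ a b =>
    have h1 : G.Adj a b := he
    rcases lt_or_gt_of_ne (hx.ne h1.ne) with h | h
    · exact ⟨a, b, rfl, h⟩
    · exact ⟨b, a, Sym2.eq_swap, h⟩

private theorem STR_eq {A B C D : ℝ} (hAB : A < B) (hCD : C < D) (h1 : A + B = C + D)
    (h2 : A * B = C * D) : A = C ∧ B = D := by
  have h3 : (A - C) * (A - D) = 0 := by
    have : B = C + D - A := by linarith
    subst this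
    linarith
  rcases mul_eq_zero.1 h3 with h | h
  · exact ⟨by linarith, by linarith⟩
  · exfalso
    linarith

private theorem STR_once {V : Type} {x : V → ℝ} (hx : Function.Injective x) (h2 : S_MT)
    {a b c d : V} (hab : x a < x b) (hcd : x c < x d) (hne : s(a, b) ≠ s(c, d)) :
    (STR_cur x s(a, b) ∩ STR_cur x s(c, d) ∩ ball 0 1).Subsingleton := by
  rintro p ⟨⟨p1, p2⟩, p3⟩ q ⟨⟨q1, q2⟩, q3⟩
  rw [mem_ball_zero_iff] at p3 q3
  obtain ⟨t, _, _, _, _, t5, rfl⟩ := (h2 _ _ _ _ hab hcd p).1 ⟨p1, p2, p3⟩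
  obtain ⟨r, _, _, _, _, r5, rfl⟩ := (h2 _ _ _ _ hab hcd q).1 ⟨q1, q2, q3⟩
  have h : (x a + x b - (x c + x d)) * (t - r) = 0 := by linarith
  rcases mul_eq_zero.1 h with h | h
  · exfalso
    have h3 : x a + x b = x c + x d := by linarith
    have h4 : x a * x b = x c * x d := by
      rw [h3] at t5
      linarith
    obtain ⟨h5, h6⟩ := STR_eq hab hcd h3 h4
    rw [hx h5, hx h6] at hne
    exact hne rfl
  · rw [show t = r by linarith]

private theorem STR_adj {V : Type} {x : V → ℝ} (hx : Function.Injective x) (h2 : S_MT)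
    {a b c d : V} (hab : x a < x b) (hcd : x c < x d) (hne : s(a, b) ≠ s(c, d))
    (hv : ∃ v, v ∈ s(a, b) ∧ v ∈ s(c, d)) :
    STR_cur x s(a, b) ∩ STR_cur x s(c, d) ∩ ball 0 1 = ∅ := by
  rw [Set.eq_empty_iff_forall_notMem]
  rintro p ⟨⟨p1, p2⟩, p3⟩
  rw [mem_ball_zero_iff] at p3
  obtain ⟨t, t1, t2, t3, t4, t5, rfl⟩ := (h2 _ _ _ _ hab hcd p).1 ⟨p1, p2, p3⟩
  obtain ⟨v, hv1, hv2⟩ := hv
  rw [Sym2.mem_iff] at hv1 hv2
  rcases hv1 with rfl | rfl <;> rcases hv2 with h | h
  · subst h
    have h3 : (t - x v) * (x b - x d) = 0 := by linarith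
    rcases mul_eq_zero.1 h3 with h4 | h4
    · linarith
    · rw [hx (show x b = x d by linarith)] at hne
      exact hne rfl
  · subst h
    linarith
  · subst h
    linarith
  · subst h
    have h3 : (x v - t) * (x a - x c) = 0 := by linarith
    rcases mul_eq_zero.1 h3 with h4 | h4
    · linarith
    · rw [hx (show x a = x c by linarith)] at hne
      exact hne rfl

theorem p_STR (h1 : S_PSI) (h2 : S_MT) : S_STR := by
  intro V G x hx hgen
  obtain ⟨q1, q2, q3, q4, q5, q6⟩ := id h1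
  have hadj : ∀ e ∈ G.edgeSet, ∀ f ∈ G.edgeSet, e ≠ f → (∃ v, v ∈ e ∧ v ∈ f) →
      STR_cur x e ∩ STR_cur x f ∩ ball 0 1 = ∅ := by
    intro e he f hf hne hv
    obtain ⟨a, b, rfl, hab⟩ := STR_rep hx he
    obtain ⟨c, d, rfl, hcd⟩ := STR_rep hx hf
    exact STR_adj hx h2 hab hcd hne hv
  refine ⟨⟨fun v => pp (x v), STR_cur x, fun v => q1 _, q2.comp hx, ?_, ?_, hadj, ?_, ?_⟩,
    fun u v _ => rfl, fun v => rfl⟩
  · -- arcs
    intro u v huv
    have hne : pp (x u) ≠ pp (x v) := fun h => huv.ne (hx (q2 h))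
    refine ⟨fun t => AffineMap.lineMap (pp (x u)) (pp (x v)) (t : ℝ), ?_, ?_, ?_, ?_, ?_, ?_⟩
    · exact AffineMap.lineMap_continuous.comp continuous_subtype_val
    · intro s t hst
      exact Subtype.ext (AffineMap.lineMap_injective ℝ hne hst)
    · simp
    · simp
    · show _ = segment ℝ (pp (x u)) (pp (x v))
      rw [segment_eq_image_lineMap]
      ext w
      constructor
      · rintro ⟨t, rfl⟩
        exact ⟨t, t.2, rfl⟩
      · rintro ⟨t, ht, rfl⟩
        exact ⟨⟨t, ht⟩, rfl⟩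
    · intro t ht0 ht1
      have h3 : 0 < (t : ℝ) := lt_of_le_of_ne t.2.1 (fun h => ht0 (Subtype.ext h.symm))
      have h4 : 0 < 1 - (t : ℝ) := by
        have : (t : ℝ) < 1 := lt_of_le_of_ne t.2.2 (fun h => ht1 (Subtype.ext h))
        linarith
      have h5 := norm_combo_lt_of_ne (q1 (x u)).le (q1 (x v)).le hne h4 h3 (by ring)
      show ‖AffineMap.lineMap (pp (x u)) (pp (x v)) (t : ℝ)‖ < 1
      rw [AffineMap.lineMap_apply_module]
      exact h5
  · -- once
    intro e he f hf hne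
    obtain ⟨a, b, rfl, hab⟩ := STR_rep hx he
    obtain ⟨c, d, rfl, hcd⟩ := STR_rep hx hf
    exact STR_once hx h2 hab hcd hne
  · -- crossing
    rintro e he u v huv hne ⟨p, ⟨hp1, hp2⟩, hp3⟩ ⟨K, hK1, hK2, hK3, hK4⟩
    have hno : ¬ ∃ w, w ∈ e ∧ w ∈ s(u, v) := by
      intro hw
      have h3 := hadj e he s(u, v) huv hne hw
      rw [Set.eq_empty_iff_forall_notMem] at h3
      exact h3 p ⟨⟨hp1, hp2⟩, hp3⟩
    obtain ⟨a, b, rfl, hab⟩ := STR_rep hx he
    rw [mem_ball_zero_iff] at hp3
    have hFp := STR_F_seg _ _ p hp1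
    have hFne : ∀ w, w ∈ s(u, v) → STR_F (x a) (x b) (pp (x w)) ≠ 0 := by
      intro w hw h3
      have h4 := STR_F_pp (x a) (x b) (x w)
      rw [h3, zero_mul] at h4
      have h5 : (x w - x a) * (x w - x b) = 0 := by linarith
      rcases mul_eq_zero.1 h5 with h6 | h6
      · have : w = a := hx (by linarith)
        exact hno ⟨w, by rw [this]; exact Sym2.mem_mk_left _ _, hw⟩
      · have : w = b := hx (by linarith)
        exact hno ⟨w, by rw [this]; exact Sym2.mem_mk_right _ _, hw⟩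
    have hFu := hFne u (Sym2.mem_mk_left _ _)
    have hFv := hFne v (Sym2.mem_mk_right _ _)
    obtain ⟨α, β, hα, hβ, hαβ, rfl⟩ := hp2
    rw [STR_F_combo _ _ _ _ α β hαβ] at hFp
    have hα' : 0 < α := by
      rcases eq_or_lt_of_le hα with h3 | h3
      · exfalso
        have h4 : β = 1 := by linarith
        rw [← h3, h4, zero_mul, one_mul, zero_add] at hFp
        exact hFv hFp
      · exact h3
    have hβ' : 0 < β := by
      rcases eq_or_lt_of_le hβ with h3 | h3
      · exfalso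
        have h4 : α = 1 := by linarith
        rw [← h3, h4, zero_mul, one_mul, add_zero] at hFp
        exact hFu hFp
      · exact h3
    have hcont : Continuous (STR_F (x a) (x b)) := by
      unfold STR_F
      fun_prop
    have hzero : ∃ w ∈ K, STR_F (x a) (x b) w = 0 := by
      rcases lt_or_gt_of_ne hFu with h3 | h3
      · have h4 : 0 ≤ STR_F (x a) (x b) (pp (x v)) := by
          by_contra h5
          push Not at h5
          nlinarith
        exact hK2.intermediate_value hK3 hK4 hcont.continuousOn ⟨h3.le, h4⟩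
      · have h4 : STR_F (x a) (x b) (pp (x v)) ≤ 0 := by
          by_contra h5
          push Not at h5
          nlinarith
        exact hK2.intermediate_value hK4 hK3 hcont.continuousOn ⟨h4, h3.le⟩
    obtain ⟨w, hwK, hw0⟩ := hzero
    have h3 := hK1 hwK
    exact h3.2 (STR_line h1 _ _ hab w (by simpa using h3.1) hw0)
  · -- three
    intro e he f hf g hg hef heg hfg
    rw [Set.eq_empty_iff_forall_notMem]
    rintro p ⟨⟨⟨p1, p2⟩, p3⟩, p4⟩
    have n1 : ¬ ∃ w, w ∈ e ∧ w ∈ f := by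
      intro hw
      have h3 := hadj e he f hf hef hw
      rw [Set.eq_empty_iff_forall_notMem] at h3
      exact h3 p ⟨⟨p1, p2⟩, p4⟩
    have n2 : ¬ ∃ w, w ∈ e ∧ w ∈ g := by
      intro hw
      have h3 := hadj e he g hg heg hw
      rw [Set.eq_empty_iff_forall_notMem] at h3
      exact h3 p ⟨⟨p1, p3⟩, p4⟩
    have n3 : ¬ ∃ w, w ∈ f ∧ w ∈ g := by
      intro hw
      have h3 := hadj f hf g hg hfg hw
      rw [Set.eq_empty_iff_forall_notMem] at h3
      exact h3 p ⟨⟨p2, p3⟩, p4⟩
    obtain ⟨a, b, rfl, hab⟩ := STR_rep hx he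
    obtain ⟨c, d, rfl, hcd⟩ := STR_rep hx hf
    obtain ⟨i, j, rfl, hij⟩ := STR_rep hx hg
    rw [mem_ball_zero_iff] at p4
    obtain ⟨t, t1, t2, t3, t4, t5, t6⟩ := (h2 _ _ _ _ hab hcd p).1 ⟨p1, p2, p4⟩
    obtain ⟨r, r1, r2, r3, r4, r5, r6⟩ := (h2 _ _ _ _ hab hij p).1 ⟨p1, p3, p4⟩
    have htr : t = r := by
      refine (q4 t ((x a + x b) * t - x a * x b) r ((x a + x b) * r - x a * x b) ?_ ?_
        (t6.symm.trans r6)).1
      · nlinarith
      · nlinarith
    subst htr
    refine hgen a b c d i j ?_ ?_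
    · have e1 : a ≠ b := fun h => by rw [h] at hab; exact lt_irrefl _ hab
      have e2 : c ≠ d := fun h => by rw [h] at hcd; exact lt_irrefl _ hcd
      have e3 : i ≠ j := fun h => by rw [h] at hij; exact lt_irrefl _ hij
      have k1 : ∀ w ∈ s(a, b), ∀ z ∈ s(c, d), w ≠ z := fun w hw z hz h =>
        n1 ⟨w, hw, by rw [h]; exact hz⟩
      have k2 : ∀ w ∈ s(a, b), ∀ z ∈ s(i, j), w ≠ z := fun w hw z hz h =>
        n2 ⟨w, hw, by rw [h]; exact hz⟩
      have k3 : ∀ w ∈ s(c, d), ∀ z ∈ s(i, j), w ≠ z := fun w hw z hz h =>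
        n3 ⟨w, hw, by rw [h]; exact hz⟩
      have l1 := k1 a (Sym2.mem_mk_left _ _) c (Sym2.mem_mk_left _ _)
      have l2 := k1 a (Sym2.mem_mk_left _ _) d (Sym2.mem_mk_right _ _)
      have l3 := k1 b (Sym2.mem_mk_right _ _) c (Sym2.mem_mk_left _ _)
      have l4 := k1 b (Sym2.mem_mk_right _ _) d (Sym2.mem_mk_right _ _)
      have m1 := k2 a (Sym2.mem_mk_left _ _) i (Sym2.mem_mk_left _ _)
      have m2 := k2 a (Sym2.mem_mk_left _ _) j (Sym2.mem_mk_right _ _)
      have m3 := k2 b (Sym2.mem_mk_right _ _) i (Sym2.mem_mk_left _ _)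
      have m4 := k2 b (Sym2.mem_mk_right _ _) j (Sym2.mem_mk_right _ _)
      have o1 := k3 c (Sym2.mem_mk_left _ _) i (Sym2.mem_mk_left _ _)
      have o2 := k3 c (Sym2.mem_mk_left _ _) j (Sym2.mem_mk_right _ _)
      have o3 := k3 d (Sym2.mem_mk_right _ _) i (Sym2.mem_mk_left _ _)
      have o4 := k3 d (Sym2.mem_mk_right _ _) j (Sym2.mem_mk_right _ _)
      simp only [List.nodup_cons, List.mem_cons, List.not_mem_nil, or_false, not_or,
        not_false_eq_true, List.nodup_nil, and_true]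
      exact ⟨⟨e1, l1, l2, m1, m2⟩, ⟨l3, l4, m3, m4⟩, ⟨e2, o1, o2⟩, ⟨o3, o4⟩, e3⟩
    · unfold conc
      linear_combination (x c + x d - (x a + x b)) * r5 - (x i + x j - (x a + x b)) * t5

end Pool.Agent.MPafd87c
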