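import Pool.Agent.Lib.MP_afd87c_lc.BC.Stm

/-!
# MP_afd87c_lc : two edges of a simple circular layout cross iff their ends alternate (piece TOP)
-/

set_option autoImplicit false

namespace Pool.Agent.MPafd87c

open Metric

/-- different angles give different points -/
private theorem TOP_exp_ne {α θ : ℝ} (h1 : α < θ) (h2 : θ < α + 2 * Real.pi) :
    Complex.exp (α * Complex.I) ≠ Complex.exp (θ * Complex.I) := by
  intro h
  obtain ⟨n, hn⟩ := Complex.exp_eq_exp_iff_exists_int.1 h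
  have h3 : α = θ + n * (2 * Real.pi) := by
    have := congrArg Complex.im hn
    simpa using this
  have hpi := Real.pi_pos
  have h4 : (n : ℝ) * (2 * Real.pi) < 0 := by linarith
  have h5 : -(2 * Real.pi) < (n : ℝ) * (2 * Real.pi) := by linarith
  have h6 : (n : ℝ) < 0 := by
    by_contra hc
    push Not at hc
    have := mul_nonneg hc (by linarith : (0 : ℝ) ≤ 2 * Real.pi)
    linarith
  have h7 : (-1 : ℝ) < n := by
    by_contra hc
    push Not at hc
    nlinarith
  have h8 : n < 0 := by exact_mod_cast h6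
  have h9 : -1 < n := by exact_mod_cast h7
  omega

/-- the positions -/
private theorem TOP_pos {V : Type} {G : SimpleGraph V} (D : Layout G) (z : V) :
    ∃ pos : V → ℝ, (∀ v, -Real.pi ≤ pos v) ∧ (∀ v, pos v < Real.pi) ∧
      (∀ v, v ≠ z → pos z < pos v) ∧
      ∀ v, D.pt v = -D.pt z * Complex.exp (pos v * Complex.I) := by
  classical
  have hz : D.pt z ≠ 0 := by
    intro h
    have := D.norm_pt z
    rw [h, norm_zero] at this
    exact zero_ne_one this
  have hw : ∀ v, ‖-D.pt v / D.pt z‖ = 1 := by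
    intro v
    rw [norm_div, norm_neg, D.norm_pt, D.norm_pt, div_one]
  have hlt : ∀ v, v ≠ z → Complex.arg (-D.pt v / D.pt z) < Real.pi := by
    intro v hv
    refine lt_of_le_of_ne (Complex.arg_le_pi _) ?_
    intro h
    have h1 := Complex.norm_mul_exp_arg_mul_I (-D.pt v / D.pt z)
    rw [hw, h, Complex.exp_pi_mul_I] at h1
    apply hv
    apply D.inj
    have h2 : -D.pt v / D.pt z = -1 := by
      rw [← h1]; simp
    have h3 : -D.pt v = -1 * D.pt z := (div_eq_iff hz).1 h2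
    have h4 : D.pt v = D.pt z := by
      have h5 : -D.pt v = -D.pt z := by rw [h3]; ring
      exact neg_injective h5
    exact h4
  refine ⟨fun v => if v = z then -Real.pi else Complex.arg (-D.pt v / D.pt z), ?_, ?_, ?_, ?_⟩
  · intro v
    dsimp only
    split_ifs
    · exact le_refl _
    · exact (Complex.neg_pi_lt_arg _).le
  · intro v
    dsimp only
    split_ifs with h
    · linarith [Real.pi_pos]
    · exact hlt v h
  · intro v hv
    dsimp only
    rw [if_pos rfl, if_neg hv]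
    exact Complex.neg_pi_lt_arg _
  · intro v
    dsimp only
    split_ifs with h
    · rw [h]
      have : Complex.exp (((-Real.pi : ℝ) : ℂ) * Complex.I) = -1 := by
        rw [Complex.ofReal_neg, neg_mul, Complex.exp_neg, Complex.exp_pi_mul_I]
        norm_num
      rw [this]; ring
    · have h1 := Complex.norm_mul_exp_arg_mul_I (-D.pt v / D.pt z)
      rw [hw, Complex.ofReal_one, one_mul] at h1
      rw [h1]
      field_simp

section

variable {V : Type} {G : SimpleGraph V} (D : Layout G) {z : V} {pos : V → ℝ}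

private theorem TOP_inj (hpt : ∀ v, D.pt v = -D.pt z * Complex.exp (pos v * Complex.I)) :
    Function.Injective pos := by
  intro v w h
  apply D.inj
  rw [hpt v, hpt w, h]

/-- the points of an edge on the circle -/
private theorem TOP_circ {a b : V} (hab : G.Adj a b) {x : ℂ} (hx : x ∈ D.cur s(a, b))
    (hn : 1 ≤ ‖x‖) : x = D.pt a ∨ x = D.pt b := by
  obtain ⟨γ, _, _, h0, h1, hr, hlt⟩ := D.arc a b hab
  rw [← hr] at hx
  obtain ⟨t, rfl⟩ := hx
  by_cases ht0 : t = 0
  · left; rw [ht0, h0]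
  by_cases ht1 : t = 1
  · right; rw [ht1, h1]
  · exact absurd (hlt t ht0 ht1) (not_lt.2 hn)

private theorem TOP_alt (h1 : S_MEET) (hge : ∀ v, -Real.pi ≤ pos v) (hlt : ∀ v, pos v < Real.pi)
    (hpt : ∀ v, D.pt v = -D.pt z * Complex.exp (pos v * Complex.I)) {e f : Sym2 V}
    (he : e ∈ G.edgeSet) (hf : f ∈ G.edgeSet) (h : Alt pos e f) : D.Cross e f := by
  obtain ⟨a, b, c, d, rfl, rfl, hac, hcb, hbd⟩ := h
  have hab : G.Adj a b := he
  have hcd : G.Adj c d := hf
  have hz : D.pt z ≠ 0 := by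
    intro h
    have := D.norm_pt z
    rw [h, norm_zero] at this
    exact zero_ne_one this
  have hz' : -D.pt z ≠ 0 := neg_ne_zero.2 hz
  obtain ⟨γ, γc, γi, γ0, γ1, γr, γl⟩ := D.arc a b hab
  obtain ⟨δ, δc, δi, δ0, δ1, δr, δl⟩ := D.arc c d hcd
  have hle : ∀ (ε : unitInterval → ℂ) (u v : V), ε 0 = D.pt u → ε 1 = D.pt v →
      (∀ t, t ≠ 0 → t ≠ 1 → ‖ε t‖ < 1) → ∀ t, ‖ε t‖ ≤ 1 := by
    intro ε u v e0 e1 el t
    by_cases ht0 : t = 0
    · rw [ht0, e0, D.norm_pt]
    by_cases ht1 : t = 1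
    · rw [ht1, e1, D.norm_pt]
    · exact (el t ht0 ht1).le
  have hnz : ∀ x : ℂ, ‖x / -D.pt z‖ = ‖x‖ := by
    intro x
    rw [norm_div, norm_neg, D.norm_pt, div_one]
  have hend : ∀ v, D.pt v / -D.pt z = Complex.exp (pos v * Complex.I) := by
    intro v
    rw [hpt v, mul_comm, mul_div_assoc, div_self hz', mul_one]
  obtain ⟨t, u, htu⟩ := h1 (pos a) (pos c) (pos b) (pos d) hac hcb hbd
    (by linarith [hge a, hlt d]) (fun t => γ t / -D.pt z) (fun t => δ t / -D.pt z)
    (γc.div_const _) (δc.div_const _)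
    (fun t => by rw [hnz]; exact hle γ a b γ0 γ1 γl t)
    (fun t => by rw [hnz]; exact hle δ c d δ0 δ1 δl t)
    (by show γ 0 / -D.pt z = _; rw [γ0, hend]) (by show γ 1 / -D.pt z = _; rw [γ1, hend])
    (by show δ 0 / -D.pt z = _; rw [δ0, hend]) (by show δ 1 / -D.pt z = _; rw [δ1, hend])
  have htu' : γ t = δ u := by
    have : γ t / -D.pt z = δ u / -D.pt z := htu
    exact (div_left_inj' hz').1 this
  have hγm : γ t ∈ D.cur s(a, b) := by rw [← γr]; exact ⟨t, rfl⟩
  have hδm : γ t ∈ D.cur s(c, d) := by rw [← δr, htu']; exact ⟨u, rfl⟩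
  have hne : ∀ v w : V, pos v ≠ pos w → D.pt v ≠ D.pt w := fun v w h h' =>
    h (congrArg pos (D.inj h'))
  refine ⟨γ t, he, hf, ?_, hγm, hδm, ?_⟩
  · intro h
    rcases Sym2.eq_iff.1 h with ⟨h2, _⟩ | ⟨h2, _⟩
    · rw [h2] at hac; exact lt_irrefl _ hac
    · rw [h2] at hac; linarith
  · by_contra hc
    push Not at hc
    rcases TOP_circ D hab hγm hc with h2 | h2 <;> rcases TOP_circ D hcd hδm hc with h3 | h3
    · exact hne a c hac.ne (h2.symm.trans h3)
    · exact hne a d (by linarith : pos a < pos d).ne (h2.symm.trans h3)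
    · exact hne b c hcb.ne' (h2.symm.trans h3)
    · exact hne b d hbd.ne (h2.symm.trans h3)

/-- an arc of the circle which does not meet an edge -/
private theorem TOP_K (hpt : ∀ v, D.pt v = -D.pt z * Complex.exp (pos v * Complex.I))
    {a b : V} (hab : G.Adj a b) (α β : ℝ)
    (hα : ∀ θ, α < θ → θ < β → Complex.exp (θ * Complex.I) ≠ Complex.exp (pos a * Complex.I))
    (hβ : ∀ θ, α < θ → θ < β → Complex.exp (θ * Complex.I) ≠ Complex.exp (pos b * Complex.I)) :
    ((fun θ : ℝ => -D.pt z * Complex.exp (θ * Complex.I)) '' Set.Ioo α β) ⊆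
      closedBall 0 1 \ D.cur s(a, b) := by
  have hz : D.pt z ≠ 0 := by
    intro h
    have := D.norm_pt z
    rw [h, norm_zero] at this
    exact zero_ne_one this
  have hz' : -D.pt z ≠ 0 := neg_ne_zero.2 hz
  rintro x ⟨θ, ⟨h1, h2⟩, rfl⟩
  have hn : ‖-D.pt z * Complex.exp (θ * Complex.I)‖ = 1 := by
    rw [norm_mul, norm_neg, D.norm_pt, Complex.norm_exp_ofReal_mul_I, mul_one]
  refine ⟨?_, ?_⟩
  · rw [mem_closedBall_zero_iff]
    exact hn.le
  · intro hx
    rcases TOP_circ D hab hx hn.ge with h | h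
    · have h' : -D.pt z * Complex.exp (θ * Complex.I)
          = -D.pt z * Complex.exp (pos a * Complex.I) := h.trans (hpt a)
      exact hα θ h1 h2 (mul_left_cancel₀ hz' h')
    · have h' : -D.pt z * Complex.exp (θ * Complex.I)
          = -D.pt z * Complex.exp (pos b * Complex.I) := h.trans (hpt b)
      exact hβ θ h1 h2 (mul_left_cancel₀ hz' h')

private theorem TOP_pre (α β : ℝ) :
    IsPreconnected ((fun θ : ℝ => -D.pt z * Complex.exp (θ * Complex.I)) '' Set.Ioo α β) := by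
  apply isPreconnected_Ioo.image
  apply Continuous.continuousOn
  fun_prop

/-- ordered version of the converse -/
private theorem TOP_conv (hge : ∀ v, -Real.pi ≤ pos v) (hlt : ∀ v, pos v < Real.pi)
    (hpt : ∀ v, D.pt v = -D.pt z * Complex.exp (pos v * Complex.I)) {a b c d : V}
    (hab : G.Adj a b) (hcd : G.Adj c d) (hpab : pos a < pos b) (hpcd : pos c < pos d)
    (hcr : D.Cross s(a, b) s(c, d)) :
    Alt pos s(a, b) s(c, d) ∨ Alt pos s(c, d) s(a, b) := by
  obtain ⟨p, -, -, hef, hpe, hpf, hp⟩ := hcr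
  have hpb : p ∈ ball (0 : ℂ) 1 := by rw [mem_ball_zero_iff]; exact hp
  have hno : ∀ v, v ∈ s(a, b) → v ∉ s(c, d) := by
    intro v h1 h2
    have h3 := D.adj s(a, b) hab s(c, d) hcd hef ⟨v, h1, h2⟩
    have : p ∈ D.cur s(a, b) ∩ D.cur s(c, d) ∩ ball 0 1 := ⟨⟨hpe, hpf⟩, hpb⟩
    rw [h3] at this
    exact this
  have hinj := TOP_inj D hpt
  have hac : pos a ≠ pos c := fun h => hno a (Sym2.mem_mk_left a b)
    (by rw [hinj h]; exact Sym2.mem_mk_left c d)
  have had : pos a ≠ pos d := fun h => hno a (Sym2.mem_mk_left a b)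
    (by rw [hinj h]; exact Sym2.mem_mk_right c d)
  have hbc : pos b ≠ pos c := fun h => hno b (Sym2.mem_mk_right a b)
    (by rw [hinj h]; exact Sym2.mem_mk_left c d)
  have hbd : pos b ≠ pos d := fun h => hno b (Sym2.mem_mk_right a b)
    (by rw [hinj h]; exact Sym2.mem_mk_right c d)
  have hK := D.cross s(a, b) hab c d hcd hef ⟨p, ⟨hpe, hpf⟩, hpb⟩
  have hpi := Real.pi_pos
  -- both ends inside
  have hin : ¬ (pos a < pos c ∧ pos d < pos b) := by
    rintro ⟨h1, h2⟩
    apply hK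
    refine ⟨_, TOP_K D hpt hab (pos a) (pos b) ?_ ?_, TOP_pre D _ _, ?_, ?_⟩
    · intro θ h3 h4
      exact (TOP_exp_ne h3 (by linarith [hge a, hlt b])).symm
    · intro θ h3 h4
      exact TOP_exp_ne h4 (by linarith [hge a, hlt b])
    · exact ⟨pos c, ⟨h1, by linarith⟩, (hpt c).symm⟩
    · exact ⟨pos d, ⟨by linarith, h2⟩, (hpt d).symm⟩
  have hout : ¬ ((pos c < pos a ∨ pos b < pos c) ∧ (pos d < pos a ∨ pos b < pos d)) := by
    rintro ⟨h1, h2⟩
    apply hK
    have hmem : ∀ v, (pos v < pos a ∨ pos b < pos v) →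
        D.pt v ∈ ((fun θ : ℝ => -D.pt z * Complex.exp (θ * Complex.I)) ''
          Set.Ioo (pos b) (pos a + 2 * Real.pi)) := by
      intro v hv
      rcases hv with hv | hv
      · refine ⟨pos v + 2 * Real.pi, ⟨by linarith [hge v, hlt b], by linarith⟩, ?_⟩
        show -D.pt z * Complex.exp (((pos v + 2 * Real.pi : ℝ) : ℂ) * Complex.I) = D.pt v
        have h5 : Complex.exp (((pos v + 2 * Real.pi : ℝ) : ℂ) * Complex.I)
            = Complex.exp (pos v * Complex.I) := by
          push_cast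
          rw [add_mul, Complex.exp_add, Complex.exp_two_pi_mul_I, mul_one]
        rw [h5, ← hpt v]
      · exact ⟨pos v, ⟨hv, by linarith [hge a, hlt v]⟩, (hpt v).symm⟩
    refine ⟨_, TOP_K D hpt hab (pos b) (pos a + 2 * Real.pi) ?_ ?_, TOP_pre D _ _,
      hmem c h1, hmem d h2⟩
    · intro θ h3 h4
      exact (TOP_exp_ne (by linarith) h4).symm
    · intro θ h3 h4
      exact (TOP_exp_ne h3 (by linarith)).symm
  rcases lt_or_gt_of_ne hac with h1 | h1
  · -- a < c
    rcases lt_or_gt_of_ne hbc with h2 | h2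
    · exact absurd ⟨Or.inr h2, Or.inr (by linarith)⟩ hout
    · rcases lt_or_gt_of_ne hbd with h3 | h3
      · exact Or.inl ⟨a, b, c, d, rfl, rfl, h1, h2, h3⟩
      · exact absurd ⟨h1, h3⟩ hin
  · -- c < a
    rcases lt_or_gt_of_ne had with h2 | h2
    · rcases lt_or_gt_of_ne hbd with h3 | h3
      · exact absurd ⟨Or.inl h1, Or.inr h3⟩ hout
      · exact Or.inr ⟨c, d, a, b, rfl, rfl, h1, h2, h3⟩
    · exact absurd ⟨Or.inl h1, Or.inl h2⟩ hout

end

theorem p_TOP (h1 : S_MEET) : S_TOP := by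
  intro V G D z
  obtain ⟨pos, hge, hlt, hz, hpt⟩ := TOP_pos D z
  have hinj := TOP_inj D hpt
  refine ⟨pos, hinj, hz, ?_⟩
  have hsymm : ∀ e f, D.Cross e f → D.Cross f e := by
    rintro e f ⟨p, h1, h2, h3, h4, h5, h6⟩
    exact ⟨p, h2, h1, h3.symm, h5, h4, h6⟩
  have hord : ∀ e ∈ G.edgeSet, ∃ a b, e = s(a, b) ∧ G.Adj a b ∧ pos a < pos b := by
    intro e
    refine Sym2.ind (fun a b => ?_) e
    intro he
    have hab : G.Adj a b := he
    have hne : pos a ≠ pos b := fun h => hab.ne (hinj h)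
    rcases lt_or_gt_of_ne hne with h | h
    · exact ⟨a, b, rfl, hab, h⟩
    · exact ⟨b, a, Sym2.eq_swap, hab.symm, h⟩
  intro e f
  constructor
  · intro h
    have h' := h
    obtain ⟨p, he, hf, -⟩ := h'
    refine ⟨he, hf, ?_⟩
    obtain ⟨a, b, rfl, hab, hpab⟩ := hord e he
    obtain ⟨c, d, rfl, hcd, hpcd⟩ := hord f hf
    exact TOP_conv D hge hlt hpt hab hcd hpab hpcd h
  · rintro ⟨he, hf, h | h⟩
    · exact TOP_alt D h1 hge hlt hpt he hf h
    · exact hsymm _ _ (TOP_alt D h1 hge hlt hpt hf he h)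

end Pool.Agent.MPafd87c
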