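import Pool.Agent.Lib.MP_afd87c_lc.BC.Stm

/-!
# The piece TRF: from neighbour lists to the coded graph
-/

set_option autoImplicit false

namespace Pool.Agent.MPafd87c

section TRF

variable {T : Type} {vs : List T} {nb : T → List T} {code : T → ℕ}

theorem TRF_mem {e : ℕ × ℕ} : e ∈ lst vs nb code ↔
    ∃ u ∈ vs, e = (0, code u) ∨ ∃ v ∈ nb u, e = (code u, code v) := by
  unfold lst
  simp only [List.mem_flatMap, List.mem_cons, List.mem_map]
  constructor
  · rintro ⟨u, hu, h | ⟨v, hv, h⟩⟩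
    · exact ⟨u, hu, Or.inl h⟩
    · exact ⟨u, hu, Or.inr ⟨v, hv, h.symm⟩⟩
  · rintro ⟨u, hu, h | ⟨v, hv, h⟩⟩
    · exact ⟨u, hu, Or.inl h⟩
    · exact ⟨u, hu, Or.inr ⟨v, hv, h.symm⟩⟩

theorem TRF_zero (h : vs ≠ []) : ∃ e ∈ lst vs nb code, (0 : ℕ) = e.1 ∨ (0 : ℕ) = e.2 := by
  obtain ⟨u, hu⟩ := List.exists_mem_of_ne_nil vs h
  exact ⟨(0, code u), TRF_mem.2 ⟨u, hu, Or.inl rfl⟩, Or.inl rfl⟩

theorem TRF_code {u : T} (hu : u ∈ vs) : ∃ e ∈ lst vs nb code, code u = e.1 ∨ code u = e.2 :=
  ⟨(0, code u), TRF_mem.2 ⟨u, hu, Or.inl rfl⟩, Or.inr rfl⟩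

theorem TRF_card {l : List T} (hl : l.Nodup) : ({x | x ∈ l} : Set T).ncard = l.length := by
  classical
  have h : ({x | x ∈ l} : Set T) = (l.toFinset : Set T) := by
    ext x
    simp
  rw [h, Set.ncard_coe_finset, List.toFinset_card_of_nodup hl]

end TRF

theorem p_TRF : S_TRF := by
  classical
  intro T vs nb code m hL hne hdeg h1 h3
  let W := {v : ℕ // ∃ e ∈ lst vs nb code, v = e.1 ∨ v = e.2}
  let G : SimpleGraph W := gr (lst vs nb code)
  let z : W := ⟨0, TRF_zero hne⟩
  let enc : T → W := fun u => if h : u ∈ vs then ⟨code u, TRF_code h⟩ else z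
  have enc1 : ∀ u ∈ vs, (enc u).1 = code u := by
    intro u hu
    simp only [enc, dif_pos hu]
  have encz : ∀ u ∈ vs, enc u ≠ z := by
    intro u hu h
    have h2 := congrArg Subtype.val h
    rw [enc1 u hu] at h2
    exact hL.pos u hu h2
  have encinj : ∀ u ∈ vs, ∀ v ∈ vs, enc u = enc v → u = v := by
    intro u hu v hv h
    apply hL.inj u hu v hv
    rw [← enc1 u hu, ← enc1 v hv, h]
  have encsurj : ∀ w : W, w ≠ z → ∃ u ∈ vs, enc u = w := by
    rintro ⟨w, hw⟩ hwz
    obtain ⟨e, he, hwe⟩ := id hw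
    have hw0 : w ≠ 0 := fun h => hwz (Subtype.ext h)
    rw [TRF_mem] at he
    obtain ⟨u, hu, rfl | ⟨v, hv, rfl⟩⟩ := he
    · rcases hwe with h | h
      · exact absurd h hw0
      · exact ⟨u, hu, Subtype.ext ((enc1 u hu).trans h.symm)⟩
    · rcases hwe with h | h
      · exact ⟨u, hu, Subtype.ext ((enc1 u hu).trans h.symm)⟩
      · exact ⟨v, hL.sub u hu v hv, Subtype.ext ((enc1 v (hL.sub u hu v hv)).trans h.symm)⟩
  have adjz : ∀ w : W, w ≠ z → G.Adj z w := by
    intro w hw
    obtain ⟨u, hu, rfl⟩ := encsurj w hw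
    refine ⟨fun h => encz u hu h.symm, Or.inl ?_⟩
    change (0, (enc u).1) ∈ lst vs nb code
    rw [enc1 u hu]
    exact TRF_mem.2 ⟨u, hu, Or.inl rfl⟩
  have key : ∀ u ∈ vs, ∀ v ∈ vs, (code u, code v) ∈ lst vs nb code → v ∈ nb u := by
    intro u hu v hv h
    rw [TRF_mem] at h
    obtain ⟨u', hu', h | ⟨v', hv', h⟩⟩ := h
    · exact absurd (congrArg Prod.fst h) (hL.pos u hu)
    · have e1 := hL.inj u hu u' hu' (congrArg Prod.fst h)
      have e2 := hL.inj v hv v' (hL.sub u' hu' v' hv') (congrArg Prod.snd h)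
      rw [e1, e2]
      exact hv'
  have adj : ∀ u ∈ vs, ∀ v ∈ vs, (G.Adj (enc u) (enc v) ↔ v ∈ nb u) := by
    intro u hu v hv
    constructor
    · rintro ⟨-, h | h⟩
      · rw [enc1 u hu, enc1 v hv] at h
        exact key u hu v hv h
      · rw [enc1 u hu, enc1 v hv] at h
        exact hL.symm v hv u (key v hv u hu h)
    · intro h
      refine ⟨?_, Or.inl ?_⟩
      · intro h2
        have h3 := encinj u hu v hv h2
        subst h3
        exact hL.irr u hu h
      · change ((enc u).1, (enc v).1) ∈ lst vs nb code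
        rw [enc1 u hu, enc1 v hv]
        exact TRF_mem.2 ⟨u, hu, Or.inr ⟨v, h, rfl⟩⟩
  have nbs : ∀ u ∈ vs, G.neighborSet (enc u) = insert z (enc '' {v | v ∈ nb u}) := by
    intro u hu
    ext w
    rw [SimpleGraph.mem_neighborSet, Set.mem_insert_iff]
    constructor
    · intro h
      by_cases hw : w = z
      · exact Or.inl hw
      · obtain ⟨v, hv, rfl⟩ := encsurj w hw
        exact Or.inr ⟨v, (adj u hu v hv).1 h, rfl⟩
    · rintro (rfl | ⟨v, hv, rfl⟩)
      · exact (adjz (enc u) (encz u hu)).symm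
      · exact (adj u hu v (hL.sub u hu v hv)).2 hv
  have nc : ∀ u ∈ vs, (G.neighborSet (enc u)).ncard = (nb u).length + 1 := by
    intro u hu
    have hfin : ({v | v ∈ nb u} : Set T).Finite := List.finite_toSet (nb u)
    rw [nbs u hu, Set.ncard_insert_of_notMem _ (hfin.image enc), Set.ncard_image_of_injOn,
      TRF_card (hL.nbd u hu)]
    · intro v hv v' hv' h
      exact encinj v (hL.sub u hu v hv) v' (hL.sub u hu v' hv') h
    · rintro ⟨v, hv, h⟩
      exact encz v (hL.sub u hu v hv) h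
  have cnt : ∀ c : ℕ, {v : W | v ≠ z ∧ (G.neighborSet v).ncard = c + 1}.ncard
      = vs.countP (fun u => (nb u).length = c) := by
    intro c
    have hs : {v : W | v ≠ z ∧ (G.neighborSet v).ncard = c + 1}
        = enc '' {u | u ∈ vs.filter (fun u => (nb u).length = c)} := by
      ext w
      constructor
      · rintro ⟨hw, hc⟩
        obtain ⟨u, hu, rfl⟩ := encsurj w hw
        refine ⟨u, ?_, rfl⟩
        rw [nc u hu] at hc
        change u ∈ vs.filter (fun u => (nb u).length = c)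
        rw [List.mem_filter]
        exact ⟨hu, by simpa using hc⟩
      · rintro ⟨u, hu, rfl⟩
        have hu' : u ∈ vs.filter (fun u => (nb u).length = c) := hu
        rw [List.mem_filter] at hu'
        refine ⟨encz u hu'.1, ?_⟩
        rw [nc u hu'.1]
        simpa using hu'.2
    rw [hs, Set.ncard_image_of_injOn, TRF_card (hL.nodup.filter _), List.countP_eq_length_filter]
    intro u hu v hv h
    exact encinj u (List.mem_filter.1 hu).1 v (List.mem_filter.1 hv).1 h
  refine ⟨z, rfl, ⟨adjz, ?_, ?_, ?_⟩, ?_⟩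
  · intro v hv
    obtain ⟨u, hu, rfl⟩ := encsurj v hv
    have h2 := nc u hu
    have h4 := hdeg u hu
    change 2 ≤ (G.neighborSet (enc u)).ncard ∧ (G.neighborSet (enc u)).ncard ≤ 4
    rw [h2]
    omega
  · exact (cnt 1).trans h1
  · exact (cnt 3).trans h3
  · constructor
    · rintro ⟨l, hl1, hl2, hl3⟩
      obtain ⟨u0, hu0⟩ := List.exists_mem_of_ne_nil vs hne
      have hT : Nonempty T := ⟨u0⟩
      choose! dec hdec1 hdec2 using encsurj
      have hinj : ∀ w ∈ l, ∀ w' ∈ l, dec w = dec w' → w = w' := by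
        intro w hw w' hw' h
        rw [← hdec2 w ((hl2 w).1 hw), ← hdec2 w' ((hl2 w').1 hw'), h]
      refine ⟨l.map dec, ?_, ?_⟩
      · rw [List.perm_ext_iff_of_nodup (hl1.map_on hinj) hL.nodup]
        intro u
        rw [List.mem_map]
        constructor
        · rintro ⟨w, hw, rfl⟩
          exact hdec1 w ((hl2 w).1 hw)
        · intro hu
          have hz := encz u hu
          refine ⟨enc u, (hl2 _).2 hz, ?_⟩
          exact encinj _ (hdec1 _ hz) _ hu (hdec2 _ hz)
      · rw [List.isChain_map]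
        refine List.IsChain.imp_of_mem_imp ?_ hl3
        intro w w' hw hw' h
        have hz := (hl2 w).1 hw
        have hz' := (hl2 w').1 hw'
        rw [← adj _ (hdec1 w hz) _ (hdec1 w' hz'), hdec2 w hz, hdec2 w' hz']
        exact h
    · rintro ⟨l, hl1, hl2⟩
      have hnd : l.Nodup := hl1.nodup_iff.2 hL.nodup
      have hmem : ∀ u, u ∈ l ↔ u ∈ vs := fun u => hl1.mem_iff
      refine ⟨l.map enc, ?_, ?_, ?_⟩
      · exact hnd.map_on fun u hu v hv h => encinj u ((hmem u).1 hu) v ((hmem v).1 hv) h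
      · intro w
        rw [List.mem_map]
        constructor
        · rintro ⟨u, hu, rfl⟩
          exact encz u ((hmem u).1 hu)
        · intro hw
          obtain ⟨u, hu, rfl⟩ := encsurj w hw
          exact ⟨u, (hmem u).2 hu, rfl⟩
      · rw [List.isChain_map]
        refine List.IsChain.imp_of_mem_imp ?_ hl2
        intro u v hu hv h
        exact (adj u ((hmem u).1 hu) v ((hmem v).1 hv)).2 h

end Pool.Agent.MPafd87c
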