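import Pool.Agent.Lib.MP_afd87c_lc.BC.Stm

/-!
# Bundled crossings in simple circular layouts is NP-hard: the upper bound
-/

set_option autoImplicit false

namespace Pool.Agent.MPafd87c

open Metric

/-- the parameter of a crossing -/
private def UPP_par (a b c d t : ℝ) : Prop :=
  a < t ∧ t < b ∧ c < t ∧ t < d ∧ (a + b) * t - a * b = (c + d) * t - c * d

private theorem UPP_symm {a b c d t : ℝ} (h : UPP_par a b c d t) : UPP_par c d a b t :=
  ⟨h.2.2.1, h.2.2.2.1, h.1, h.2.1, h.2.2.2.2.symm⟩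

private theorem UPP_ex {a b c d : ℝ} (h1 : a < c) (h2 : c < b) (h3 : b < d) :
    ∃ t, UPP_par a b c d t := by
  have hp : 0 < c + d - a - b := by linarith
  have e1 : c < (c * d - a * b) / (c + d - a - b) := by
    rw [lt_div_iff₀ hp]
    nlinarith [mul_pos (sub_pos.mpr h1) (sub_pos.mpr h2)]
  have e2 : (c * d - a * b) / (c + d - a - b) < b := by
    rw [div_lt_iff₀ hp]
    nlinarith [mul_pos (sub_pos.mpr h2) (sub_pos.mpr h3)]
  refine ⟨(c * d - a * b) / (c + d - a - b), by linarith, e2, e1, by linarith, ?_⟩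
  have e3 : (c * d - a * b) / (c + d - a - b) * (c + d - a - b) = c * d - a * b :=
    div_mul_cancel₀ _ hp.ne'
  linarith [e3]

private theorem UPP_alt {a b c d t : ℝ} (h : UPP_par a b c d t) (hac : a < c) :
    c < b ∧ b < d := by
  obtain ⟨h1, h2, h3, h4, h5⟩ := h
  refine ⟨by linarith, ?_⟩
  by_contra hbd
  push Not at hbd
  nlinarith [mul_pos (sub_pos.mpr hac) (sub_pos.mpr h2),
    mul_nonneg (sub_nonneg.mpr h3.le) (sub_nonneg.mpr hbd)]

private theorem UPP_eq {a b d t : ℝ} (h : UPP_par a b a d t) : b = d := by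
  obtain ⟨h1, h2, h3, h4, h5⟩ := h
  have : (t - a) * (b - d) = 0 := by linarith
  rcases mul_eq_zero.mp this with h | h
  · linarith
  · linarith

/-- the situation -/
private structure UPP_H {V : Type} (G : SimpleGraph V) (z : V) (n : ℕ) (τ : ℕ → V)
    (u : ℕ → ℝ) (D : Layout G) : Prop where
  t0 : τ 0 = z
  inj : ∀ i ≤ n, ∀ j ≤ n, τ i = τ j → i = j
  sur : ∀ v, ∃ i ≤ n, τ i = v
  mono : ∀ i j, i < j → j ≤ n → u i < u j
  four : ∀ i j, 1 ≤ i → i < j → j ≤ n → 4 * u i < u j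
  pos : ∀ j, 1 ≤ j → j ≤ n → 0 < u j ∧ u 0 ≤ - u j
  str : D.Straight
  pt : ∀ i ≤ n, D.pt (τ i) = pp (u i)

section

variable {V : Type} {G : SimpleGraph V} {z : V} {n : ℕ} {τ : ℕ → V} {u : ℕ → ℝ} {D : Layout G}

private theorem UPP_edge (h : UPP_H G z n τ u D) (e : Sym2 V) (he : e ∈ G.edgeSet) :
    ∃ i j, i < j ∧ j ≤ n ∧ G.Adj (τ i) (τ j) ∧ e = s(τ i, τ j) := by
  induction e using Sym2.ind with
  | _ v w =>
    rw [SimpleGraph.mem_edgeSet] at he
    obtain ⟨i, hi, rfl⟩ := h.sur v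
    obtain ⟨j, hj, rfl⟩ := h.sur w
    rcases lt_trichotomy i j with hij | hij | hij
    · exact ⟨i, j, hij, hj, he, rfl⟩
    · subst hij
      exact absurd he (G.loopless.irrefl _)
    · exact ⟨j, i, hij, hi, he.symm, Sym2.eq_swap⟩

private theorem UPP_Einj (h : UPP_H G z n τ u D) {i j i' j' : ℕ} (h1 : i < j) (h2 : j ≤ n)
    (h3 : i' < j') (h4 : j' ≤ n) (he : s(τ i, τ j) = s(τ i', τ j')) : i = i' ∧ j = j' := by
  rcases Sym2.eq_iff.mp he with ⟨e1, e2⟩ | ⟨e1, e2⟩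
  · exact ⟨h.inj i (by omega) i' (by omega) e1, h.inj j (by omega) j' (by omega) e2⟩
  · have := h.inj i (by omega) j' (by omega) e1
    have := h.inj j (by omega) i' (by omega) e2
    omega

private theorem UPP_cur (h : UPP_H G z n τ u D) {i j : ℕ} (hi : i ≤ n) (hj : j ≤ n)
    (ha : G.Adj (τ i) (τ j)) : D.cur s(τ i, τ j) = segment ℝ (pp (u i)) (pp (u j)) := by
  rw [h.str _ _ ha, h.pt i hi, h.pt j hj]

private theorem UPP_cross (h : UPP_H G z n τ u D) (hMT : S_MT) {i j i' j' : ℕ} (h1 : i < j)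
    (h2 : j ≤ n) (h3 : i' < j') (h4 : j' ≤ n) (ha : G.Adj (τ i) (τ j))
    (ha' : G.Adj (τ i') (τ j')) (p : ℂ) :
    D.CrossAt s(τ i, τ j) s(τ i', τ j') p ↔ ¬ (i = i' ∧ j = j') ∧
      ∃ t, UPP_par (u i) (u j) (u i') (u j') t ∧ p = cp (u i) (u j) t := by
  have key := hMT (u i) (u j) (u i') (u j') (h.mono i j h1 h2) (h.mono i' j' h3 h4) p
  unfold Layout.CrossAt
  rw [UPP_cur h (by omega) h2 ha, UPP_cur h (by omega) h4 ha']
  constructor
  · rintro ⟨_, _, hne, hp1, hp2, hp3⟩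
    refine ⟨?_, ?_⟩
    · rintro ⟨rfl, rfl⟩
      exact hne rfl
    · obtain ⟨t, t1, t2, t3, t4, t5, t6⟩ := key.mp ⟨hp1, hp2, hp3⟩
      exact ⟨t, ⟨t1, t2, t3, t4, t5⟩, t6⟩
  · rintro ⟨hne, t, ⟨t1, t2, t3, t4, t5⟩, t6⟩
    obtain ⟨hp1, hp2, hp3⟩ := key.mpr ⟨t, t1, t2, t3, t4, t5, t6⟩
    exact ⟨ha, ha', fun he => hne (UPP_Einj h h1 h2 h3 h4 he), hp1, hp2, hp3⟩

/-- crossing edges alternate -/
private theorem UPP_alt' (h : UPP_H G z n τ u D) {i j i' j' : ℕ} (h1 : i < j)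
    (h2 : j ≤ n) (h3 : i' < j') (h4 : j' ≤ n) (hne : ¬ (i = i' ∧ j = j')) {t : ℝ}
    (ht : UPP_par (u i) (u j) (u i') (u j') t) :
    (i < i' ∧ i' < j ∧ j < j') ∨ (i' < i ∧ i < j' ∧ j' < j) := by
  have hlt : ∀ a b, a ≤ n → b ≤ n → u a < u b → a < b := by
    intro a b ha hb hab
    rcases lt_trichotomy a b with h5 | h5 | h5
    · exact h5
    · subst h5
      exact absurd hab (lt_irrefl _)
    · exact absurd (h.mono b a h5 ha) (not_lt.mpr hab.le)
  rcases lt_trichotomy i i' with h5 | h5 | h5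
  · obtain ⟨e1, e2⟩ := UPP_alt ht (h.mono i i' h5 (by omega))
    exact Or.inl ⟨h5, hlt _ _ (by omega) (by omega) e1, hlt _ _ (by omega) (by omega) e2⟩
  · subst h5
    have e := UPP_eq ht
    exfalso
    apply hne
    refine ⟨rfl, ?_⟩
    rcases lt_trichotomy j j' with h6 | h6 | h6
    · have := h.mono j j' h6 h4
      linarith
    · exact h6
    · have := h.mono j' j h6 h2
      linarith
  · obtain ⟨e1, e2⟩ := UPP_alt (UPP_symm ht) (h.mono i' i h5 (by omega))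
    exact Or.inr ⟨h5, hlt _ _ (by omega) (by omega) e1, hlt _ _ (by omega) (by omega) e2⟩

/-- the second side of the bundled crossing of the edge `(l, r)` -/
private def UPP_B (l r i j : ℕ) : Prop := (i = 0 ∧ l < j ∧ j < r) ∨ (l < i ∧ i < r ∧ r < j)

private def UPP_Q (G : SimpleGraph V) (n : ℕ) (τ : ℕ → V) (l r : ℕ) : Set (Sym2 V) :=
  {f | ∃ i j, UPP_B l r i j ∧ j ≤ n ∧ G.Adj (τ i) (τ j) ∧ f = s(τ i, τ j)}

private theorem UPP_B_lt {l r i j : ℕ} (h : UPP_B l r i j) : i < j := by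
  rcases h with h | h <;> omega

private theorem UPP_side (h : UPP_H G z n τ u D) (h6 : S_ORD) {l r i j : ℕ} (hl : 1 ≤ l)
    (hlr : l < r) (hr : r ≤ n) (hij : i < j) (hj : j ≤ n) (hne : ¬ (l = i ∧ r = j)) {t : ℝ}
    (ht : UPP_par (u l) (u r) (u i) (u j) t) :
    (UPP_B l r i j → 2 * u l < t) ∧ (2 * u l ≤ t → UPP_B l r i j) := by
  obtain ⟨o1, o2, o3⟩ := h6
  have hul := (h.pos l hl (by omega)).1
  refine ⟨?_, ?_⟩
  · rintro (⟨rfl, h1, h2⟩ | ⟨h1, h2, h3⟩)
    · exact o2 (u l) (u r) (u 0) (u j) t hul (h.four l j hl h1 hj) (h.mono j r h2 hr)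
        (h.pos r (by omega) hr).2 ht.2.2.2.2
    · exact o3 (u l) (u r) (u i) (u j) t hul (h.four l i hl h1 (by omega)) (h.mono i r h2 hr)
        (h.mono r j h3 hj) ht.2.2.2.2
  · intro h2
    rcases UPP_alt' h hlr hr hij hj hne ht with ⟨h3, h4, h5⟩ | ⟨h3, h4, h5⟩
    · exact Or.inr ⟨h3, h4, h5⟩
    · by_cases hi : i = 0
      · exact Or.inl ⟨hi, h4, h5⟩
      · exfalso
        have := o1 (u l) (u r) (u i) (u j) t (h.pos i (by omega) (by omega)).1
          (h.mono i l h3 (by omega)) (h.four l j hl h4 hj) (h.four j r (by omega) h5 hr)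
          ht.2.2.2.2
        linarith

private theorem UPP_T (h : UPP_H G z n τ u D) {l r : ℕ} (hl : 1 ≤ l) (hlr : l < r)
    (hr : r ≤ n) : ∃ T, 2 * u l ≤ T ∧ T < u r ∧ ∀ i j, i < j → j ≤ n → ¬ (l = i ∧ r = j) →
      ∀ t, UPP_par (u l) (u r) (u i) (u j) t → t ≤ T := by
  classical
  set S : Set ℝ := insert (2 * u l) {t | ∃ i j, i < j ∧ j ≤ n ∧ ¬ (l = i ∧ r = j) ∧
    UPP_par (u l) (u r) (u i) (u j) t} with hS
  have hfin : S.Finite := by
    rw [hS]
    apply Set.Finite.insert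
    apply Set.Finite.subset (Set.toFinite ((fun p : ℕ × ℕ =>
      (u l * u r - u p.1 * u p.2) / (u l + u r - u p.1 - u p.2)) ''
        ((Finset.range (n + 1) ×ˢ Finset.range (n + 1) : Finset (ℕ × ℕ)) : Set (ℕ × ℕ))))
    rintro t ⟨i, j, hij, hj, hne, ht⟩
    refine ⟨(i, j), ?_, ?_⟩
    · simp
      omega
    · have hden : u l + u r - u i - u j ≠ 0 := by
        rcases UPP_alt' h hlr hr hij hj hne ht with ⟨h3, h4, h5⟩ | ⟨h3, h4, h5⟩
        · have e1 := h.mono l i h3 (by omega)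
          have e2 := h.mono r j h5 hj
          intro h0
          linarith
        · have e1 := h.mono i l h3 (by omega)
          have e2 := h.mono j r h5 hr
          intro h0
          linarith
      show (u l * u r - u i * u j) / (u l + u r - u i - u j) = t
      rw [div_eq_iff hden]
      have := ht.2.2.2.2
      linarith
  obtain ⟨T, hT1, hT2⟩ := Set.exists_max_image S id hfin ⟨_, Set.mem_insert _ _⟩
  refine ⟨T, hT2 _ (Set.mem_insert _ _), ?_, ?_⟩
  · rcases hT1 with rfl | ⟨i, j, hij, hj, hne, ht⟩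
    · have e1 := h.four l r hl hlr hr
      have e2 := (h.pos l hl (by omega)).1
      linarith
    · exact ht.2.1
  · intro i j hij hj hne t ht
    exact hT2 t (Set.mem_insert_of_mem _ ⟨i, j, hij, hj, hne, ht⟩)

private theorem UPP_reg [Finite V] (h : UPP_H G z n τ u D) (h1 : S_PSI) (h2 : S_MT)
    (h4 : S_REG) (h6 : S_ORD) {l r : ℕ} (hl : 1 ≤ l) (hlr : l < r) (hr : r ≤ n)
    (ha : G.Adj (τ l) (τ r)) :
    ∃ R : Set ℂ, (∃ g : ℂ ≃ₜ ℂ, g '' closedBall 0 1 = R) ∧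
    (∀ e ∈ G.edgeSet, IsPreconnected (D.cur e ∩ R)) ∧
    (∀ e ∈ G.edgeSet, (D.cur e ∩ R).Nonempty → e ∈ {s(τ l, τ r)} ∪ UPP_Q G n τ l r) ∧
    ∀ e f p, D.CrossAt e f p → (p ∈ R ↔ (e ∈ ({s(τ l, τ r)} : Set (Sym2 V)) ∧
      f ∈ UPP_Q G n τ l r) ∨ (f ∈ ({s(τ l, τ r)} : Set (Sym2 V)) ∧ e ∈ UPP_Q G n τ l r)) := by
  obtain ⟨_, _, p3, p4, p5, p6⟩ := h1
  obtain ⟨T, hT1, hT2, hT3⟩ := UPP_T h hl hlr hr
  have hul := (h.pos l hl (by omega)).1
  have hLA := h.mono l r hlr hr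
  have h4L := h.four l r hl hlr hr
  have hnorm : ∀ t, u l < t → t < u r → ‖cp (u l) (u r) t‖ < 1 := by
    intro t t1 t2
    apply p3
    nlinarith [mul_pos (sub_pos.mpr t1) (sub_pos.mpr t2)]
  have hinj : ∀ t t', u l ≤ t → t ≤ u r → u l ≤ t' → t' ≤ u r →
      cp (u l) (u r) t = cp (u l) (u r) t' → t = t' := by
    intro t t' t1 t2 t3 t4 he
    refine (p4 _ _ _ _ ?_ ?_ he).1
    · nlinarith [mul_nonneg (sub_nonneg.mpr t1) (sub_nonneg.mpr t2)]
    · nlinarith [mul_nonneg (sub_nonneg.mpr t3) (sub_nonneg.mpr t4)]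
  have hcur : D.cur s(τ l, τ r) = cp (u l) (u r) '' Set.Icc (u l) (u r) := by
    rw [p6 _ _ hLA (u l) (u r) le_rfl hLA.le le_rfl, (p5 _ _).1, (p5 _ _).2]
    exact UPP_cur h (by omega) hr ha
  have hseg : cp (u l) (u r) '' Set.Icc (2 * u l) T
      = segment ℝ (cp (u l) (u r) (2 * u l)) (cp (u l) (u r) T) :=
    p6 _ _ hLA _ _ (by linarith) hT1 hT2.le
  obtain ⟨R, r1, r2, r3, r4⟩ := h4 D h.str s(τ l, τ r) ha (cp (u l) (u r) (2 * u l))
    (by rw [hcur]; exact ⟨_, ⟨by linarith, by linarith⟩, rfl⟩) (cp (u l) (u r) T)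
    (by rw [hcur]; exact ⟨_, ⟨by linarith, by linarith⟩, rfl⟩)
    (hnorm _ (by linarith) (by linarith)) (hnorm _ (by linarith) hT2)
  rw [← hseg] at r3 r4
  -- points of the segment
  have key2 : ∀ f ∈ G.edgeSet, f ≠ s(τ l, τ r) → ∀ w ∈ D.cur f,
      w ∈ cp (u l) (u r) '' Set.Icc (2 * u l) T → f ∈ UPP_Q G n τ l r := by
    rintro f hf hne w hw ⟨t, ⟨t1, t2⟩, rfl⟩
    obtain ⟨i, j, hij, hj, ha', rfl⟩ := UPP_edge h f hf
    have hne' : ¬ (l = i ∧ r = j) := by
      rintro ⟨rfl, rfl⟩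
      exact hne rfl
    have hcr : D.CrossAt s(τ l, τ r) s(τ i, τ j) (cp (u l) (u r) t) := by
      refine ⟨ha, ha', fun he => hne he.symm, ?_, hw, hnorm t (by linarith) (by linarith)⟩
      rw [hcur]
      exact ⟨t, ⟨by linarith, by linarith⟩, rfl⟩
    obtain ⟨_, t', ht', he⟩ := (UPP_cross h h2 hlr hr hij hj ha ha' _).mp hcr
    have htt := hinj t t' (by linarith) (by linarith) ht'.1.le ht'.2.1.le he
    subst htt
    exact ⟨i, j, (UPP_side h h6 hl hlr hr hij hj hne' ht').2 t1, hj, ha', rfl⟩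
  have key3 : ∀ f ∈ UPP_Q G n τ l r, ∀ w, D.CrossAt s(τ l, τ r) f w →
      w ∈ cp (u l) (u r) '' Set.Icc (2 * u l) T := by
    rintro f ⟨i, j, hB, hj, ha', rfl⟩ w hcr
    have hij := UPP_B_lt hB
    obtain ⟨hne, t, ht, rfl⟩ := (UPP_cross h h2 hlr hr hij hj ha ha' _).mp hcr
    refine ⟨t, ⟨((UPP_side h h6 hl hlr hr hij hj hne ht).1 hB).le, hT3 i j hij hj hne t ht⟩, rfl⟩
  have hsub : ∀ w ∈ cp (u l) (u r) '' Set.Icc (2 * u l) T, w ∈ D.cur s(τ l, τ r) ∧ ‖w‖ < 1 := by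
    rintro w ⟨t, ⟨t1, t2⟩, rfl⟩
    refine ⟨?_, hnorm t (by linarith) (by linarith)⟩
    rw [hcur]
    exact ⟨t, ⟨by linarith, by linarith⟩, rfl⟩
  refine ⟨R, r1, r2, ?_, ?_⟩
  · intro f hf hne
    obtain ⟨w, hw1, hw2⟩ := r3 f hf hne
    by_cases hfe : f = s(τ l, τ r)
    · exact Or.inl hfe
    · exact Or.inr (key2 f hf hfe w hw1 hw2)
  · intro f g w hcr
    rw [r4 f g w hcr]
    have hcr' : D.CrossAt g f w := ⟨hcr.2.1, hcr.1, hcr.2.2.1.symm, hcr.2.2.2.2.1, hcr.2.2.2.1,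
      hcr.2.2.2.2.2⟩
    constructor
    · intro hw
      by_cases hf : f = s(τ l, τ r)
      · left
        exact ⟨hf, key2 g hcr.2.1 (fun hg => hcr.2.2.1 (hf.trans hg.symm)) w hcr.2.2.2.2.1 hw⟩
      · by_cases hg : g = s(τ l, τ r)
        · right
          exact ⟨hg, key2 f hcr.1 hf w hcr.2.2.2.1 hw⟩
        · exfalso
          have := D.three s(τ l, τ r) ha f hcr.1 g hcr.2.1 (Ne.symm hf) (Ne.symm hg) hcr.2.2.1
          have hw' : w ∈ D.cur s(τ l, τ r) ∩ D.cur f ∩ D.cur g ∩ ball 0 1 :=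
            ⟨⟨⟨(hsub w hw).1, hcr.2.2.2.1⟩, hcr.2.2.2.2.1⟩, by simpa using hcr.2.2.2.2.2⟩
          rw [this] at hw'
          exact hw'
    · rintro (⟨hf, hg⟩ | ⟨hg, hf⟩)
      · rw [Set.mem_singleton_iff] at hf
        subst hf
        exact key3 g hg w hcr
      · rw [Set.mem_singleton_iff] at hg
        subst hg
        exact key3 f hf w hcr'

private theorem UPP_crs (h : UPP_H G z n τ u D) (h2 : S_MT) {l r i j : ℕ} (hlr : l < r)
    (hr : r ≤ n) (hj : j ≤ n) (hl : 1 ≤ l) (ha : G.Adj (τ l) (τ r)) (ha' : G.Adj (τ i) (τ j))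
    (hB : UPP_B l r i j) : D.Cross s(τ l, τ r) s(τ i, τ j) := by
  have hij := UPP_B_lt hB
  have hex : ∃ t, UPP_par (u l) (u r) (u i) (u j) t := by
    rcases hB with ⟨rfl, b1, b2⟩ | ⟨b1, b2, b3⟩
    · obtain ⟨t, ht⟩ := UPP_ex (h.mono 0 l (by omega) (by omega)) (h.mono l j b1 hj)
        (h.mono j r b2 hr)
      exact ⟨t, UPP_symm ht⟩
    · exact UPP_ex (h.mono l i b1 (by omega)) (h.mono i r b2 hr) (h.mono r j b3 hj)
  obtain ⟨t, ht⟩ := hex
  refine ⟨cp (u l) (u r) t, (UPP_cross h h2 hlr hr hij hj ha ha' _).mpr ⟨?_, t, ht, rfl⟩⟩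
  rintro ⟨rfl, rfl⟩
  rcases hB with h | h <;> omega

private theorem UPP_bun [Finite V] (h : UPP_H G z n τ u D) (h1 : S_PSI) (h2 : S_MT)
    (h4 : S_REG) (h6 : S_ORD) {l r : ℕ} (hl : 1 ≤ l) (hlr : l < r) (hr : r ≤ n)
    (ha : G.Adj (τ l) (τ r)) : D.IsBundled {s(τ l, τ r)} (UPP_Q G n τ l r) := by
  refine ⟨?_, ?_, ?_, ?_, UPP_reg h h1 h2 h4 h6 hl hlr hr ha⟩
  · intro e he
    rw [Set.mem_singleton_iff] at he
    subst he
    exact ha
  · rintro e ⟨i, j, _, _, ha', rfl⟩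
    exact ha'
  · rw [Set.disjoint_singleton_left]
    rintro ⟨i, j, hB, hj, ha', he⟩
    have hij := UPP_B_lt hB
    obtain ⟨rfl, rfl⟩ := UPP_Einj h hlr hr hij hj he
    rcases hB with h | h <;> omega
  · rintro e he f ⟨i, j, hB, hj, ha', rfl⟩
    rw [Set.mem_singleton_iff] at he
    subst he
    exact UPP_crs h h2 hlr hr hj hl ha ha' hB

/-- the partition -/
private theorem UPP_bc [Finite V] (h : UPP_H G z n τ u D) (h1 : S_PSI) (h2 : S_MT)
    (h4 : S_REG) (h6 : S_ORD) (k : ℕ)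
    (hk : {p : ℕ × ℕ | p.1 + 1 < p.2 ∧ p.2 < n ∧ G.Adj (τ (p.1 + 1)) (τ (p.2 + 1))}.ncard = k) :
    D.BcLe k := by
  classical
  set C : Set (ℕ × ℕ) := {p : ℕ × ℕ | p.1 + 1 < p.2 ∧ p.2 < n ∧
    G.Adj (τ (p.1 + 1)) (τ (p.2 + 1))} with hC
  have hfin : C.Finite := by
    apply Set.Finite.subset (Set.toFinite
      ((Finset.range n ×ˢ Finset.range n : Finset (ℕ × ℕ)) : Set (ℕ × ℕ)))
    rintro ⟨i, j⟩ ⟨c1, c2, _⟩
    simp
    simp only at c1 c2
    omega
  have hcard : Nat.card C = k := hk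
  have : Finite C := hfin
  obtain ⟨eq⟩ : Nonempty (Fin k ≃ C) := ⟨((Finite.equivFin C).trans (finCongr hcard)).symm⟩
  have hq : ∀ b : Fin k, (eq b).1.1 + 1 < (eq b).1.2 ∧ (eq b).1.2 < n ∧
      G.Adj (τ ((eq b).1.1 + 1)) (τ ((eq b).1.2 + 1)) := fun b => (eq b).2
  refine ⟨fun b => {s(τ ((eq b).1.1 + 1), τ ((eq b).1.2 + 1))},
    fun b => UPP_Q G n τ ((eq b).1.1 + 1) ((eq b).1.2 + 1), fun b => ?_, ?_⟩
  · exact UPP_bun h h1 h2 h4 h6 (by omega) (by have := (hq b).1; omega)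
      (by have := (hq b).2.1; omega) (hq b).2.2
  -- the basic case
  have key : ∀ i j i' j' : ℕ, i < i' → i' < j → j < j' → j' ≤ n → G.Adj (τ i) (τ j) →
      G.Adj (τ i') (τ j') → ∃! b : Fin k,
        (s(τ i, τ j) ∈ ({s(τ ((eq b).1.1 + 1), τ ((eq b).1.2 + 1))} : Set (Sym2 V)) ∧
          s(τ i', τ j') ∈ UPP_Q G n τ ((eq b).1.1 + 1) ((eq b).1.2 + 1)) ∨
        (s(τ i', τ j') ∈ ({s(τ ((eq b).1.1 + 1), τ ((eq b).1.2 + 1))} : Set (Sym2 V)) ∧
          s(τ i, τ j) ∈ UPP_Q G n τ ((eq b).1.1 + 1) ((eq b).1.2 + 1)) := by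
    intro i j i' j' hii hij hjj hj' ha ha'
    have hb : ∀ b : Fin k, ∀ x y : ℕ, x < y → y ≤ n →
        s(τ x, τ y) ∈ ({s(τ ((eq b).1.1 + 1), τ ((eq b).1.2 + 1))} : Set (Sym2 V)) →
        x = (eq b).1.1 + 1 ∧ y = (eq b).1.2 + 1 := by
      intro b x y hxy hy hmem
      rw [Set.mem_singleton_iff] at hmem
      have := hq b
      exact UPP_Einj h hxy hy (by omega) (by omega) hmem
    have hQ : ∀ b : Fin k, ∀ x y : ℕ, x < y → y ≤ n →
        s(τ x, τ y) ∈ UPP_Q G n τ ((eq b).1.1 + 1) ((eq b).1.2 + 1) →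
        UPP_B ((eq b).1.1 + 1) ((eq b).1.2 + 1) x y := by
      rintro b x y hxy hy ⟨x', y', hB, hy', _, he⟩
      obtain ⟨rfl, rfl⟩ := UPP_Einj h hxy hy (UPP_B_lt hB) hy' he
      exact hB
    by_cases hi : i = 0
    · subst hi
      obtain ⟨b, hb1⟩ := eq.surjective ⟨(i' - 1, j' - 1), by
        show i' - 1 + 1 < j' - 1 ∧ j' - 1 < n ∧ G.Adj (τ (i' - 1 + 1)) (τ (j' - 1 + 1))
        have e1 : i' - 1 + 1 = i' := by omega
        have e2 : j' - 1 + 1 = j' := by omega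
        rw [e1, e2]
        exact ⟨by omega, by omega, ha'⟩⟩
      have hb2 : (eq b).1.1 + 1 = i' := by rw [hb1]; show i' - 1 + 1 = i'; omega
      have hb3 : (eq b).1.2 + 1 = j' := by rw [hb1]; show j' - 1 + 1 = j'; omega
      refine ⟨b, Or.inr ⟨?_, ?_⟩, ?_⟩
      · simp only [hb2, hb3, Set.mem_singleton_iff]
      · simp only [hb2, hb3]
        exact ⟨0, j, Or.inl ⟨rfl, hij, hjj⟩, by omega, ha, rfl⟩
      · rintro b' (⟨m1, m2⟩ | ⟨m1, m2⟩)
        · have := hb b' 0 j (by omega) (by omega) m1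
          omega
        · have := hb b' i' j' (by omega) hj' m1
          apply eq.injective
          apply Subtype.ext
          apply Prod.ext <;> omega
    · obtain ⟨b, hb1⟩ := eq.surjective ⟨(i - 1, j - 1), by
        show i - 1 + 1 < j - 1 ∧ j - 1 < n ∧ G.Adj (τ (i - 1 + 1)) (τ (j - 1 + 1))
        have e1 : i - 1 + 1 = i := by omega
        have e2 : j - 1 + 1 = j := by omega
        rw [e1, e2]
        exact ⟨by omega, by omega, ha⟩⟩
      have hb2 : (eq b).1.1 + 1 = i := by rw [hb1]; show i - 1 + 1 = i; omega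
      have hb3 : (eq b).1.2 + 1 = j := by rw [hb1]; show j - 1 + 1 = j; omega
      refine ⟨b, Or.inl ⟨?_, ?_⟩, ?_⟩
      · simp only [hb2, hb3, Set.mem_singleton_iff]
      · simp only [hb2, hb3]
        exact ⟨i', j', Or.inr ⟨hii, hij, hjj⟩, hj', ha', rfl⟩
      · rintro b' (⟨m1, m2⟩ | ⟨m1, m2⟩)
        · have := hb b' i j (by omega) (by omega) m1
          apply eq.injective
          apply Subtype.ext
          apply Prod.ext <;> omega
        · have e1 := hb b' i' j' (by omega) hj' m1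
          have e2 := hQ b' i j (by omega) (by omega) m2
          rcases e2 with e2 | e2 <;> omega
  rintro e f ⟨p, hp⟩
  obtain ⟨i, j, hij, hj, ha, rfl⟩ := UPP_edge h e hp.1
  obtain ⟨i', j', hij', hj', ha', rfl⟩ := UPP_edge h f hp.2.1
  obtain ⟨hne, t, ht, _⟩ := (UPP_cross h h2 hij hj hij' hj' ha ha' p).mp hp
  rcases UPP_alt' h hij hj hij' hj' hne ht with ⟨a1, a2, a3⟩ | ⟨a1, a2, a3⟩
  · exact key i j i' j' a1 a2 a3 hj' ha ha'
  · obtain ⟨b, hb1, hb2⟩ := key i' j' i j a1 a2 a3 hj ha' ha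
    exact ⟨b, hb1.symm, fun b' hb' => hb2 b' hb'.symm⟩

end

/-- consequences of the growth of `u` -/
private theorem UPP_u (n : ℕ) (u : ℕ → ℝ) (h1 : 0 < u 1)
    (h2 : ∀ i, 1 ≤ i → i < n → 4 * u i < u (i + 1)) (h3 : 1 ≤ n → u 0 < - u n) :
    (∀ i j, i < j → j ≤ n → u i < u j) ∧ (∀ i j, 1 ≤ i → i < j → j ≤ n → 4 * u i < u j) ∧
    ∀ j, 1 ≤ j → j ≤ n → 0 < u j ∧ u 0 ≤ - u j := by
  have hpos : ∀ j, 1 ≤ j → j ≤ n → 0 < u j := by
    intro j hj
    induction j, hj using Nat.le_induction with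
    | base => intro _; exact h1
    | succ j hj ih =>
      intro hjn
      have := h2 j hj (by omega)
      have := ih (by omega)
      linarith
  have hfour : ∀ i j, 1 ≤ i → i < j → j ≤ n → 4 * u i < u j := by
    intro i j hi hij
    induction j, hij using Nat.le_induction with
    | base => intro hjn; exact h2 i hi (by omega)
    | succ j hj ih =>
      intro hjn
      have e1 := h2 j (by omega) (by omega)
      have e2 := ih (by omega)
      have e3 := hpos j (by omega) (by omega)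
      linarith
  have hle : ∀ j, 1 ≤ j → j ≤ n → u j ≤ u n := by
    intro j hj hjn
    rcases Nat.lt_or_ge j n with h | h
    · have e1 := hfour j n hj h le_rfl
      have e2 := hpos j hj hjn
      linarith
    · have : j = n := by omega
      rw [this]
  refine ⟨?_, hfour, ?_⟩
  · intro i j hij hj
    by_cases hi : i = 0
    · subst hi
      have e1 := h3 (by omega)
      have e2 := hpos n (by omega) le_rfl
      have e3 := hpos j (by omega) hj
      linarith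
    · have e1 := hfour i j (by omega) hij hj
      have e2 := hpos i (by omega) (by omega)
      linarith
  · intro j hj hjn
    refine ⟨hpos j hj hjn, ?_⟩
    have e1 := h3 (by omega)
    have e2 := hle j hj hjn
    linarith

theorem p_UPP (h1 : S_PSI) (h2 : S_MT) (h3 : S_STR) (h4 : S_REG) (h5 : S_POS) (h6 : S_ORD)
    (h7 : S_HSK) : S_UPP := by
  classical
  intro V _ G z k hyp hHP
  obtain ⟨l, hnd, hmem, hch⟩ := hHP
  obtain ⟨u, u1, u2, u3, u4⟩ := h5 l.length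
  obtain ⟨m1, m2, m3⟩ := UPP_u l.length u u1 u2 u3
  have hzl : (z :: l).Nodup := by
    rw [List.nodup_cons]
    exact ⟨fun h => (hmem z).mp h rfl, hnd⟩
  have hall : ∀ v, v ∈ z :: l := by
    intro v
    rw [List.mem_cons, hmem]
    exact em _
  have hlen : (z :: l).length = l.length + 1 := rfl
  have hidx : Function.Injective fun v => (z :: l).idxOf v := by
    intro v w hvw
    exact (List.idxOf_inj (hall v)).mp hvw
  have hidxle : ∀ v, (z :: l).idxOf v ≤ l.length := by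
    intro v
    have := List.idxOf_lt_length_iff.mpr (hall v)
    omega
  have huinj : ∀ i j, i ≤ l.length → j ≤ l.length → u i = u j → i = j := by
    intro i j hi hj hij
    rcases lt_trichotomy i j with h | h | h
    · have := m1 i j h hj
      linarith
    · exact h
    · have := m1 j i h hi
      linarith
  have hxinj : Function.Injective fun v => u ((z :: l).idxOf v) := by
    intro v w hvw
    exact hidx (huinj _ _ (hidxle v) (hidxle w) hvw)
  obtain ⟨D, hD1, hD2⟩ := h3 G (fun v => u ((z :: l).idxOf v)) hxinj (by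
    intro a b c d e f habc
    apply u4
    · have := habc.map hidx
      simpa using this
    · intro i hi
      simp only [List.mem_cons, List.not_mem_nil, or_false] at hi
      rcases hi with rfl | rfl | rfl | rfl | rfl | rfl <;> exact hidxle _)
  set τ : ℕ → V := fun i => (z :: l).getD i z with hτ
  have hτg : ∀ i (hi : i < (z :: l).length), τ i = (z :: l)[i] := by
    intro i hi
    simp only [hτ]
    rw [List.getD_eq_getElem _ _ hi]
  have hτi : ∀ i ≤ l.length, (z :: l).idxOf (τ i) = i := by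
    intro i hi
    rw [hτg i (by omega)]
    exact List.Nodup.idxOf_getElem hzl i _
  have H : UPP_H G z l.length τ u D := by
    refine ⟨rfl, ?_, ?_, m1, m2, m3, hD1, ?_⟩
    · intro i hi j hj hij
      rw [← hτi i hi, ← hτi j hj, hij]
    · intro v
      refine ⟨(z :: l).idxOf v, hidxle v, ?_⟩
      have hlt := List.idxOf_lt_length_iff.mpr (hall v)
      rw [hτg _ hlt]
      exact List.getElem_idxOf hlt
    · intro i hi
      rw [hD2, hτi i hi]
  refine ⟨D, hD1, UPP_bc H h1 h2 h4 h6 k ?_⟩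
  have hz : ∀ i, i < l.length → τ (i + 1) ≠ z := by
    intro i hi h0
    have := H.inj (i + 1) (by omega) 0 (by omega) (by rw [h0, H.t0])
    omega
  have := h7 G z k hyp l.length (fun i => τ (i + 1)) hz ?_ ?_ ?_
  · exact this
  · intro i hi j hj hij
    have := H.inj (i + 1) (by omega) (j + 1) (by omega) hij
    omega
  · intro v hv
    obtain ⟨i, hi, rfl⟩ := H.sur v
    have hi0 : i ≠ 0 := by
      rintro rfl
      exact hv H.t0
    refine ⟨i - 1, by omega, ?_⟩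
    have : i - 1 + 1 = i := by omega
    show τ (i - 1 + 1) = τ i
    rw [this]
  · intro i hi
    rw [List.isChain_iff_getElem] at hch
    have := hch i hi
    show G.Adj (τ (i + 1)) (τ (i + 1 + 1))
    rw [hτg (i + 1) (by omega), hτg (i + 1 + 1) (by omega)]
    exact this

end Pool.Agent.MPafd87c
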