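import Pool.Agent.Lib.MP_afd87c_lc.BC.Stm2

/-!
# Bundled crossings, piece X3F: satisfiability as exactly one in three satisfiability
-/

set_option autoImplicit false

namespace Pool.Agent.MPafd87c

open N68a2faeb CookLevin
open Pool.Agent.Lib.MP_e32f22_lc (wd nv pl)

/-- exactly one of three -/
private def X3F_one (a b c : Prop) : Prop := (a ∧ ¬ b ∧ ¬ c) ∨ (¬ a ∧ b ∧ ¬ c) ∨ (¬ a ∧ ¬ b ∧ c)

private theorem X3F_exu (p : ℕ → Prop) : (∃! r, r < 3 ∧ p r) ↔ X3F_one (p 0) (p 1) (p 2) := by
  constructor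
  · rintro ⟨r, ⟨hr, hp⟩, hu⟩
    have h3 : r = 0 ∨ r = 1 ∨ r = 2 := by omega
    have h0 : p 0 → 0 = r := fun h => hu 0 ⟨by norm_num, h⟩
    have h1 : p 1 → 1 = r := fun h => hu 1 ⟨by norm_num, h⟩
    have h2 : p 2 → 2 = r := fun h => hu 2 ⟨by norm_num, h⟩
    rcases h3 with rfl | rfl | rfl
    · exact Or.inl ⟨hp, fun h => by have := h1 h; omega, fun h => by have := h2 h; omega⟩
    · exact Or.inr (Or.inl ⟨fun h => by have := h0 h; omega, hp, fun h => by
        have := h2 h; omega⟩)
    · exact Or.inr (Or.inr ⟨fun h => by have := h0 h; omega, fun h => by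
        have := h1 h; omega, hp⟩)
  · rintro (⟨h0, h1, h2⟩ | ⟨h0, h1, h2⟩ | ⟨h0, h1, h2⟩)
    · refine ⟨0, ⟨by norm_num, h0⟩, ?_⟩
      rintro r ⟨hr, hp⟩
      have h3 : r = 0 ∨ r = 1 ∨ r = 2 := by omega
      rcases h3 with rfl | rfl | rfl
      · rfl
      · exact absurd hp h1
      · exact absurd hp h2
    · refine ⟨1, ⟨by norm_num, h1⟩, ?_⟩
      rintro r ⟨hr, hp⟩
      have h3 : r = 0 ∨ r = 1 ∨ r = 2 := by omega
      rcases h3 with rfl | rfl | rfl
      · exact absurd hp h0
      · rfl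
      · exact absurd hp h2
    · refine ⟨2, ⟨by norm_num, h2⟩, ?_⟩
      rintro r ⟨hr, hp⟩
      have h3 : r = 0 ∨ r = 1 ∨ r = 2 := by omega
      rcases h3 with rfl | rfl | rfl
      · exact absurd hp h0
      · exact absurd hp h1
      · rfl

private theorem X3F_nvar (φ : Cnf) : nvar φ = nv φ + 1 + 3 * (φ.length * wd φ) := rfl

private theorem X3F_lenB (n : ℕ) : ((List.range n).flatMap
    (fun i => [(i + 1, true), (i + 1, false), (0, true)])).length = n * 3 :=
  HerCo.length_flatMap_range n 3 _ fun i _ => rfl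

private theorem X3F_slot_len (w n : ℕ) (l : ℕ × Bool) (j i : ℕ) : (slot w n l j i).length = 6 :=
  rfl

private theorem X3F_lenC1 (φ : Cnf) (j : ℕ) : ((List.range (wd φ)).flatMap fun i =>
      slot (wd φ) (nv φ) (pl φ j i) j i).length = wd φ * 6 :=
  HerCo.length_flatMap_range (wd φ) 6 _ fun i _ => rfl

private theorem X3F_lenC (φ : Cnf) : ((List.range φ.length).flatMap (fun j =>
      (List.range (wd φ)).flatMap fun i =>
        slot (wd φ) (nv φ) (pl φ j i) j i)).length = φ.length * (wd φ * 6) :=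
  HerCo.length_flatMap_range φ.length (wd φ * 6) _ fun j _ => X3F_lenC1 φ j

private theorem X3F_len (φ : Cnf) : (x3 φ).lit.length = 3 * (x3 φ).M := by
  unfold x3
  rw [List.length_append, List.length_append, X3F_lenB, X3F_lenC, X3F_nvar]
  have h1 : φ.length * (wd φ * 6) = 6 * (φ.length * wd φ) := by ring
  rw [h1]
  simp only [List.length_cons, List.length_nil]
  omega

private theorem X3F_at0 (φ : Cnf) : (x3 φ).at' 0 = (0, false) := rfl
private theorem X3F_at1 (φ : Cnf) : (x3 φ).at' 1 = (0, true) := rfl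
private theorem X3F_at2 (φ : Cnf) : (x3 φ).at' 2 = (0, true) := rfl

private theorem X3F_atB (φ : Cnf) (i r : ℕ) (hi : i < nvar φ - 1) (hr : r < 3) :
    (x3 φ).at' (3 * (i + 1) + r)
      = ([(i + 1, true), (i + 1, false), (0, true)] : List (ℕ × Bool)).getD r (0, true) := by
  unfold X3.at' x3
  simp only
  rw [List.getD_append _ _ _ _ (by
      rw [List.length_append, X3F_lenB]
      simp only [List.length_cons, List.length_nil]
      omega),
    List.getD_append_right _ _ _ _ (by
      simp only [List.length_cons, List.length_nil]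
      omega)]
  have h1 : 3 * (i + 1) + r - [(0, false), (0, true), (0, true)].length = i * 3 + r := by
    simp only [List.length_cons, List.length_nil]
    omega
  rw [h1]
  exact HerCo.getD_flatMap_range (nvar φ - 1) 3 _ (fun _ _ => rfl) i r hi hr _

private theorem X3F_atC (φ : Cnf) (j i r : ℕ) (hj : j < φ.length) (hi : i < wd φ) (hr : r < 6) :
    (x3 φ).at' (3 * nvar φ + 6 * (j * wd φ + i) + r)
      = (slot (wd φ) (nv φ) (pl φ j i) j i).getD r (0, true) := by
  unfold X3.at' x3
  simp only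
  have hl : ([(0, false), (0, true), (0, true)] ++ (List.range (nvar φ - 1)).flatMap
      (fun i => [(i + 1, true), (i + 1, false), (0, true)])).length = 3 * nvar φ := by
    rw [List.length_append, X3F_lenB, X3F_nvar]
    simp only [List.length_cons, List.length_nil]
    omega
  rw [List.getD_append_right _ _ _ _ (by rw [hl]; omega), hl]
  have h1 : 3 * nvar φ + 6 * (j * wd φ + i) + r - 3 * nvar φ = j * (wd φ * 6) + (i * 6 + r) := by
    have h2 : 6 * (j * wd φ + i) = j * (wd φ * 6) + i * 6 := by ring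
    omega
  rw [h1, HerCo.getD_flatMap_range φ.length (wd φ * 6) _ (fun j _ => X3F_lenC1 φ j) j
    (i * 6 + r) hj (by
      have h3 : (i + 1) * 6 ≤ wd φ * 6 := Nat.mul_le_mul_right _ hi
      omega)]
  exact HerCo.getD_flatMap_range (wd φ) 6 _ (fun _ _ => rfl) i r hi hr _

/-- the entry `r` of the slot is true -/
private def X3F_h (φ : Cnf) (v : ℕ → Bool) (j i r : ℕ) : Prop :=
  v ((slot (wd φ) (nv φ) (pl φ j i) j i).getD r (0, true)).1
    = ((slot (wd φ) (nv φ) (pl φ j i) j i).getD r (0, true)).2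

private theorem X3F_idx {w m s : ℕ} (hs : s < m * w) :
    s / w < m ∧ s % w < w ∧ s / w * w + s % w = s := by
  have hw : 0 < w := by
    rcases Nat.eq_zero_or_pos w with rfl | h
    · simp at hs
    · exact h
  refine ⟨Nat.div_lt_of_lt_mul (by rwa [Nat.mul_comm]), Nat.mod_lt _ hw, ?_⟩
  rw [Nat.mul_comm]
  exact Nat.div_add_mod _ _

private theorem X3F_slt {w m j i : ℕ} (hj : j < m) (hi : i < w) : j * w + i < m * w := by
  have h1 : (j + 1) * w ≤ m * w := Nat.mul_le_mul_right _ hj
  have h2 : (j + 1) * w = j * w + w := by ring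
  omega

private theorem X3F_sol (φ : Cnf) (v : ℕ → Bool) : (x3 φ).Sol v ↔ v 0 = false ∧
    ∀ j < φ.length, ∀ i < wd φ,
      X3F_one (X3F_h φ v j i 0) (X3F_h φ v j i 1) (X3F_h φ v j i 2) ∧
      X3F_one (X3F_h φ v j i 3) (X3F_h φ v j i 4) (X3F_h φ v j i 5) := by
  have hC : ∀ j < φ.length, ∀ i < wd φ, ∀ r < 6,
      (v ((x3 φ).at' (3 * nvar φ + 6 * (j * wd φ + i) + r)).1
        = ((x3 φ).at' (3 * nvar φ + 6 * (j * wd φ + i) + r)).2) = X3F_h φ v j i r := by
    intro j hj i hi r hr
    rw [X3F_atC φ j i r hj hi hr]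
    rfl
  unfold X3.Sol
  simp only [X3F_exu (fun r => v ((x3 φ).at' (3 * _ + r)).1 = ((x3 φ).at' (3 * _ + r)).2)]
  constructor
  · intro h
    refine ⟨?_, ?_⟩
    · have h0 := h 0 (by show 0 < nvar φ + _; rw [X3F_nvar]; omega)
      rw [Nat.mul_zero, Nat.zero_add, Nat.zero_add, Nat.zero_add, X3F_at0, X3F_at1, X3F_at2] at h0
      rcases h0 with h1 | h1 | h1
      · exact h1.1
      · exact absurd h1.2.1 h1.2.2
      · exact absurd h1.2.2 h1.2.1
    · intro j hj i hi
      have hs := X3F_slt hj hi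
      have hM : (x3 φ).M = nvar φ + 2 * (φ.length * wd φ) := rfl
      refine ⟨?_, ?_⟩
      · have h1 := h (nvar φ + 2 * (j * wd φ + i)) (by omega)
        have e : 3 * (nvar φ + 2 * (j * wd φ + i)) = 3 * nvar φ + 6 * (j * wd φ + i) := by ring
        rw [e, hC j hj i hi 0 (by omega), hC j hj i hi 1 (by omega),
          hC j hj i hi 2 (by omega)] at h1
        exact h1
      · have h1 := h (nvar φ + 2 * (j * wd φ + i) + 1) (by omega)
        have e0 : 3 * (nvar φ + 2 * (j * wd φ + i) + 1) + 0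
          = 3 * nvar φ + 6 * (j * wd φ + i) + 3 := by ring
        have e1 : 3 * (nvar φ + 2 * (j * wd φ + i) + 1) + 1
          = 3 * nvar φ + 6 * (j * wd φ + i) + 4 := by ring
        have e2 : 3 * (nvar φ + 2 * (j * wd φ + i) + 1) + 2
          = 3 * nvar φ + 6 * (j * wd φ + i) + 5 := by ring
        rw [e0, e1, e2, hC j hj i hi 3 (by omega), hC j hj i hi 4 (by omega),
          hC j hj i hi 5 (by omega)] at h1
        exact h1
  · rintro ⟨h0, h⟩ j hj
    have hM : (x3 φ).M = nvar φ + 2 * (φ.length * wd φ) := rfl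
    rcases Nat.lt_or_ge j (nvar φ) with hjn | hjn
    · rcases Nat.eq_zero_or_pos j with rfl | hjp
      · rw [Nat.mul_zero, Nat.zero_add, Nat.zero_add, Nat.zero_add, X3F_at0, X3F_at1, X3F_at2]
        left
        simp only
        rw [h0]
        simp
      · obtain ⟨i, rfl⟩ : ∃ i, j = i + 1 := ⟨j - 1, by omega⟩
        rw [X3F_atB φ i 0 (by omega) (by omega), X3F_atB φ i 1 (by omega) (by omega),
          X3F_atB φ i 2 (by omega) (by omega)]
        simp only [List.getD_cons_zero, List.getD_cons_succ, h0]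
        unfold X3F_one
        cases v (i + 1) <;> simp
    · obtain ⟨c, rfl⟩ : ∃ c, j = nvar φ + c := ⟨j - nvar φ, by omega⟩
      have hs : c / 2 < φ.length * wd φ := by omega
      obtain ⟨k1, k2, k3⟩ := X3F_idx hs
      have hh := h _ k1 _ k2
      rcases Nat.mod_two_eq_zero_or_one c with hc | hc
      · have e : 3 * (nvar φ + c)
            = 3 * nvar φ + 6 * (c / 2 / wd φ * wd φ + c / 2 % wd φ) := by
          rw [k3]; omega
        rw [e, hC _ k1 _ k2 0 (by omega), hC _ k1 _ k2 1 (by omega), hC _ k1 _ k2 2 (by omega)]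
        exact hh.1
      · have e0 : 3 * (nvar φ + c) + 0
            = 3 * nvar φ + 6 * (c / 2 / wd φ * wd φ + c / 2 % wd φ) + 3 := by
          rw [k3]; omega
        have e1 : 3 * (nvar φ + c) + 1
            = 3 * nvar φ + 6 * (c / 2 / wd φ * wd φ + c / 2 % wd φ) + 4 := by
          rw [k3]; omega
        have e2 : 3 * (nvar φ + c) + 2
            = 3 * nvar φ + 6 * (c / 2 / wd φ * wd φ + c / 2 % wd φ) + 5 := by
          rw [k3]; omega
        rw [e0, e1, e2, hC _ k1 _ k2 3 (by omega), hC _ k1 _ k2 4 (by omega),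
          hC _ k1 _ k2 5 (by omega)]
        exact hh.2

private theorem X3F_lit_lt (φ : Cnf) (hne : ∀ cl ∈ φ, cl ≠ []) {j : ℕ} (hj : j < φ.length)
    (i : ℕ) : (pl φ j i).1 < nv φ := by
  have h1 := Pool.Agent.Lib.MP_e32f22_lc.pl_mem hne hj i
  have h2 : φ.getD j [] ∈ φ := by
    rw [List.getD_eq_getElem _ _ hj]
    exact List.getElem_mem hj
  exact Pool.Agent.Lib.MP_e32f22_lc.lt_nv h2 h1

private theorem X3F_six {r : ℕ} (hr : r < 6) :
    r = 0 ∨ r = 1 ∨ r = 2 ∨ r = 3 ∨ r = 4 ∨ r = 5 := by omega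

private theorem X3F_ok (φ : Cnf) (hne : ∀ cl ∈ φ, cl ≠ []) : (x3 φ).Ok where
  N_pos := by
    show 0 < nvar φ
    rw [X3F_nvar]; omega
  M_pos := by
    show 0 < nvar φ + _
    rw [X3F_nvar]; omega
  len := X3F_len φ
  lt := by
    intro t ht
    show _ < nvar φ
    have hM : (x3 φ).M = nvar φ + 2 * (φ.length * wd φ) := rfl
    have hn : nvar φ = nv φ + 1 + 3 * (φ.length * wd φ) := rfl
    rcases Nat.lt_or_ge t 3 with h3 | h3
    · have h4 : t = 0 ∨ t = 1 ∨ t = 2 := by omega
      rcases h4 with rfl | rfl | rfl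
      · rw [X3F_at0]; simp only; omega
      · rw [X3F_at1]; simp only; omega
      · rw [X3F_at2]; simp only; omega
    · rcases Nat.lt_or_ge t (3 * nvar φ) with h4 | h4
      · obtain ⟨i, r, rfl, hr⟩ : ∃ i r, t = 3 * (i + 1) + r ∧ r < 3 :=
          ⟨t / 3 - 1, t % 3, by omega, by omega⟩
        rw [X3F_atB φ i r (by omega) hr]
        have h5 : r = 0 ∨ r = 1 ∨ r = 2 := by omega
        rcases h5 with rfl | rfl | rfl <;>
          simp only [List.getD_cons_zero, List.getD_cons_succ] <;> omega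
      · obtain ⟨s, r, rfl, hr⟩ : ∃ s r, t = 3 * nvar φ + 6 * s + r ∧ r < 6 :=
          ⟨(t - 3 * nvar φ) / 6, (t - 3 * nvar φ) % 6, by omega, by omega⟩
        have hs : s < φ.length * wd φ := by omega
        obtain ⟨k1, k2, k3⟩ := X3F_idx hs
        have hl := X3F_lit_lt φ hne k1 (s % wd φ)
        rw [← k3, X3F_atC φ _ _ r k1 k2 hr]
        unfold slot
        rw [k3]
        rcases X3F_six hr with rfl | rfl | rfl | rfl | rfl | rfl <;>
          simp only [List.getD_cons_zero, List.getD_cons_succ]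
        · split_ifs
          · omega
          · simp only; omega
        · omega
        · split_ifs
          · omega
          · simp only; omega
        · omega
        · omega
        · omega
  occ := by
    intro i hi b
    have hM : (x3 φ).M = nvar φ + 2 * (φ.length * wd φ) := rfl
    have hi' : i < nvar φ := hi
    rcases Nat.eq_zero_or_pos i with rfl | hp
    · cases b
      · exact ⟨0, by omega, X3F_at0 φ⟩
      · exact ⟨1, by omega, X3F_at1 φ⟩
    · obtain ⟨k, rfl⟩ : ∃ k, i = k + 1 := ⟨i - 1, by omega⟩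
      cases b
      · exact ⟨3 * (k + 1) + 1, by omega, X3F_atB φ k 1 (by omega) (by omega)⟩
      · exact ⟨3 * (k + 1) + 0, by omega, X3F_atB φ k 0 (by omega) (by omega)⟩

private theorem X3F_to (φ : Cnf) (hne : ∀ cl ∈ φ, cl ≠ []) (v : ℕ → Bool)
    (hv : (x3 φ).Sol v) : Sat φ := by
  rw [X3F_sol] at hv
  obtain ⟨h0, h⟩ := hv
  refine ⟨fun x => v (1 + x), ?_⟩
  intro cl hcl
  obtain ⟨j, hj, rfl⟩ := List.getElem_of_mem hcl
  by_contra hcon
  have hw : 2 ≤ wd φ := by unfold wd; omega
  -- no `y` is true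
  have hy : ∀ i < wd φ, v (nv φ + 1 + 3 * (j * wd φ + i)) = false := by
    intro i hi
    by_contra hy
    have hy' : v (nv φ + 1 + 3 * (j * wd φ + i)) = true := by simpa using hy
    apply hcon
    have h1 := (h j hj i hi).2
    refine ⟨pl φ j i, ?_, ?_⟩
    · have h2 := Pool.Agent.Lib.MP_e32f22_lc.pl_mem hne hj i
      rwa [List.getD_eq_getElem _ _ hj] at h2
    · have h3 : X3F_h φ v j i 3 := hy'
      have h4 : ¬ X3F_h φ v j i 4 := by
        rcases h1 with h1 | h1 | h1
        · exact h1.2.1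
        · exact absurd h3 h1.1
        · exact absurd h3 h1.1
      have h5 : ¬ (v (1 + (pl φ j i).1) = !(pl φ j i).2) := h4
      cases h6 : (pl φ j i).2 <;> cases h7 : v (1 + (pl φ j i).1) <;> simp_all
  -- all `t` are true
  have ht : ∀ i, i + 1 < wd φ → v (nv φ + 2 + 3 * (j * wd φ + i)) = true := by
    intro i
    induction i with
    | zero =>
      intro hi
      have h1 := (h j hj 0 (by omega)).1
      have h2 : ¬ X3F_h φ v j 0 0 := by
        show ¬ (v 0 = true)
        rw [h0]; simp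
      have h3 : ¬ X3F_h φ v j 0 1 := by
        show ¬ (v (nv φ + 1 + 3 * (j * wd φ + 0)) = true)
        rw [hy 0 (by omega)]; simp
      have h4 : X3F_h φ v j 0 2 := by
        rcases h1 with h1 | h1 | h1
        · exact absurd h1.1 h2
        · exact absurd h1.2.1 h3
        · exact h1.2.2
      have h5 : slot (wd φ) (nv φ) (pl φ j 0) j 0
        = [(0, true), (nv φ + 1 + 3 * (j * wd φ + 0), true),
          (nv φ + 2 + 3 * (j * wd φ + 0), true), (nv φ + 1 + 3 * (j * wd φ + 0), true),
          (1 + (pl φ j 0).1, !(pl φ j 0).2), (nv φ + 3 + 3 * (j * wd φ + 0), true)] := by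
        unfold slot
        rw [if_pos rfl, if_neg (by omega)]
      unfold X3F_h at h4
      rw [h5] at h4
      exact h4
    | succ i ih =>
      intro hi
      have h1 := (h j hj (i + 1) (by omega)).1
      have h5 : slot (wd φ) (nv φ) (pl φ j (i + 1)) j (i + 1)
        = [(nv φ + 2 + 3 * (j * wd φ + (i + 1) - 1), false),
          (nv φ + 1 + 3 * (j * wd φ + (i + 1)), true),
          (nv φ + 2 + 3 * (j * wd φ + (i + 1)), true),
          (nv φ + 1 + 3 * (j * wd φ + (i + 1)), true),
          (1 + (pl φ j (i + 1)).1, !(pl φ j (i + 1)).2),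
          (nv φ + 3 + 3 * (j * wd φ + (i + 1)), true)] := by
        unfold slot
        rw [if_neg (by omega), if_neg (by omega)]
      have e : j * wd φ + (i + 1) - 1 = j * wd φ + i := by omega
      unfold X3F_h at h1
      rw [h5, e] at h1
      simp only [List.getD_cons_zero, List.getD_cons_succ] at h1
      rcases h1 with h1 | h1 | h1
      · rw [ih (by omega)] at h1
        simp at h1
      · rw [hy (i + 1) (by omega)] at h1
        simp at h1
      · exact h1.2.2
  -- the last slot
  have h1 := (h j hj (wd φ - 1) (by omega)).1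
  have h5 : slot (wd φ) (nv φ) (pl φ j (wd φ - 1)) j (wd φ - 1)
    = [(nv φ + 2 + 3 * (j * wd φ + (wd φ - 1) - 1), false),
      (nv φ + 1 + 3 * (j * wd φ + (wd φ - 1)), true),
      (0, true),
      (nv φ + 1 + 3 * (j * wd φ + (wd φ - 1)), true),
      (1 + (pl φ j (wd φ - 1)).1, !(pl φ j (wd φ - 1)).2),
      (nv φ + 3 + 3 * (j * wd φ + (wd φ - 1)), true)] := by
    unfold slot
    rw [if_neg (by omega), if_pos (by omega)]
  have e : j * wd φ + (wd φ - 1) - 1 = j * wd φ + (wd φ - 2) := by omega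
  unfold X3F_h at h1
  rw [h5, e] at h1
  simp only [List.getD_cons_zero, List.getD_cons_succ] at h1
  rcases h1 with h1 | h1 | h1
  · rw [ht (wd φ - 2) (by omega)] at h1
    simp at h1
  · rw [hy (wd φ - 1) (by omega)] at h1
    simp at h1
  · rw [h0] at h1
    simp at h1

private theorem X3F_from (φ : Cnf) (hne : ∀ cl ∈ φ, cl ≠ []) (hs : Sat φ) :
    ∃ v, (x3 φ).Sol v := by
  classical
  obtain ⟨τ, hτ⟩ := hs
  have hw : 2 ≤ wd φ := by unfold wd; omega
  have hgs : ∀ j < φ.length, ∃ i < wd φ, τ (pl φ j i).1 = (pl φ j i).2 := by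
    intro j hj
    obtain ⟨l, hl, h1⟩ := hτ _ (List.getElem_mem hj)
    obtain ⟨t, ht, rfl⟩ := List.getElem_of_mem hl
    have htw : t < wd φ :=
      ht.trans (Pool.Agent.Lib.MP_e32f22_lc.length_le_wd (List.getElem_mem hj))
    refine ⟨t, htw, ?_⟩
    have h2 : pl φ j t = φ[j][t] := by
      unfold pl
      rw [List.getD_eq_getElem _ _ hj, List.getD_eq_getElem _ _ ht]
    rw [h2]
    exact h1
  -- the values
  let g : ℕ → ℕ → Prop := fun j i => τ (pl φ j i).1 = (pl φ j i).2
  let Y : ℕ → ℕ → Prop := fun j i => g j i ∧ ∀ i' < i, ¬ g j i'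
  let T : ℕ → ℕ → Prop := fun j i => ∀ i' ≤ i, ¬ g j i'
  let Z : ℕ → ℕ → Prop := fun j i => ¬ Y j i ∧ g j i
  let v : ℕ → Bool := fun m =>
    if m = 0 then false
    else if m ≤ nv φ then τ (m - 1)
    else if (m - (nv φ + 1)) % 3 = 0 then
      decide (Y ((m - (nv φ + 1)) / 3 / wd φ) ((m - (nv φ + 1)) / 3 % wd φ))
    else if (m - (nv φ + 1)) % 3 = 1 then
      decide (T ((m - (nv φ + 1)) / 3 / wd φ) ((m - (nv φ + 1)) / 3 % wd φ))
    else decide (Z ((m - (nv φ + 1)) / 3 / wd φ) ((m - (nv φ + 1)) / 3 % wd φ))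
  have hdiv : ∀ j i, i < wd φ → (j * wd φ + i) / wd φ = j ∧ (j * wd φ + i) % wd φ = i := by
    intro j i hi
    constructor
    · rw [Nat.mul_comm, Nat.mul_add_div (by omega), Nat.div_eq_of_lt hi]
      rfl
    · rw [Nat.mul_comm, Nat.mul_add_mod]
      exact Nat.mod_eq_of_lt hi
  have v0 : v 0 = false := by simp [v]
  have vl : ∀ x < nv φ, v (1 + x) = τ x := by
    intro x hx
    show (if 1 + x = 0 then false else if 1 + x ≤ nv φ then τ (1 + x - 1) else _) = τ x
    rw [if_neg (by omega), if_pos (by omega)]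
    congr 1
    omega
  have vY : ∀ j i, i < wd φ → v (nv φ + 1 + 3 * (j * wd φ + i)) = decide (Y j i) := by
    intro j i hi
    obtain ⟨d1, d2⟩ := hdiv j i hi
    have e : nv φ + 1 + 3 * (j * wd φ + i) - (nv φ + 1) = 3 * (j * wd φ + i) := by omega
    have e2 : 3 * (j * wd φ + i) / 3 = j * wd φ + i := by omega
    have e3 : 3 * (j * wd φ + i) % 3 = 0 := by omega
    simp only [v]
    rw [if_neg (by omega), if_neg (by omega), e, if_pos e3, e2, d1, d2]
  have vT : ∀ j i, i < wd φ → v (nv φ + 2 + 3 * (j * wd φ + i)) = decide (T j i) := by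
    intro j i hi
    obtain ⟨d1, d2⟩ := hdiv j i hi
    have e : nv φ + 2 + 3 * (j * wd φ + i) - (nv φ + 1) = 3 * (j * wd φ + i) + 1 := by omega
    have e2 : (3 * (j * wd φ + i) + 1) / 3 = j * wd φ + i := by omega
    have e3 : (3 * (j * wd φ + i) + 1) % 3 = 1 := by omega
    simp only [v]
    rw [if_neg (by omega), if_neg (by omega), e, if_neg (by omega), if_pos e3, e2, d1, d2]
  have vZ : ∀ j i, i < wd φ → v (nv φ + 3 + 3 * (j * wd φ + i)) = decide (Z j i) := by
    intro j i hi
    obtain ⟨d1, d2⟩ := hdiv j i hi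
    have e : nv φ + 3 + 3 * (j * wd φ + i) - (nv φ + 1) = 3 * (j * wd φ + i) + 2 := by omega
    have e2 : (3 * (j * wd φ + i) + 2) / 3 = j * wd φ + i := by omega
    simp only [v]
    rw [if_neg (by omega), if_neg (by omega), e, if_neg (by omega), if_neg (by omega), e2, d1, d2]
  refine ⟨v, ?_⟩
  rw [X3F_sol]
  refine ⟨v0, ?_⟩
  intro j hj i hi
  constructor
  · -- the first triple
    have h1 : X3F_h φ v j i 1 ↔ Y j i := by
      show v (nv φ + 1 + 3 * (j * wd φ + i)) = true ↔ _
      rw [vY j i hi]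
      simp
    have h0 : X3F_h φ v j i 0 ↔ i ≠ 0 ∧ ¬ T j (i - 1) := by
      unfold X3F_h slot
      simp only [List.getD_cons_zero]
      by_cases hi0 : i = 0
      · rw [if_pos hi0]
        simp only
        rw [v0]
        simp [hi0]
      · rw [if_neg hi0]
        simp only
        have e : j * wd φ + i - 1 = j * wd φ + (i - 1) := by omega
        rw [e, vT j (i - 1) (by omega)]
        simp [hi0]
    have h2 : X3F_h φ v j i 2 ↔ i + 1 ≠ wd φ ∧ T j i := by
      unfold X3F_h slot
      simp only [List.getD_cons_zero, List.getD_cons_succ]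
      by_cases hi0 : i + 1 = wd φ
      · rw [if_pos hi0]
        simp only
        rw [v0]
        simp [hi0]
      · rw [if_neg hi0]
        simp only
        rw [vT j i hi]
        simp [hi0]
    unfold X3F_one
    rw [h0, h1, h2]
    by_cases hex : ∃ i' < i, g j i'
    · -- an earlier literal is true
      obtain ⟨i', hi', hg⟩ := hex
      left
      refine ⟨⟨by omega, fun hT => hT i' (by omega) hg⟩, fun hY => hY.2 i' hi' hg,
        fun hT => hT.2 i' (by omega) hg⟩
    · push Not at hex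
      have hA : ¬ (i ≠ 0 ∧ ¬ T j (i - 1)) := by
        rintro ⟨k1, k2⟩
        exact k2 fun i' hi' => hex i' (by omega)
      by_cases hg : g j i
      · right
        left
        exact ⟨hA, ⟨hg, hex⟩, fun hT => hT.2 i le_rfl hg⟩
      · right
        right
        refine ⟨hA, fun hY => hg hY.1, ?_, ?_⟩
        · intro hl
          obtain ⟨i', hi', hg'⟩ := hgs j hj
          rcases Nat.lt_or_ge i' i with h | h
          · exact hex i' h hg'
          · have : i' = i := by omega
            subst this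
            exact hg hg'
        · intro i' hi'
          rcases Nat.lt_or_ge i' i with h | h
          · exact hex i' h
          · have : i' = i := by omega
            subst this
            exact hg
  · -- the second triple
    have h3 : X3F_h φ v j i 3 ↔ Y j i := by
      show v (nv φ + 1 + 3 * (j * wd φ + i)) = true ↔ _
      rw [vY j i hi]
      simp
    have h4 : X3F_h φ v j i 4 ↔ ¬ g j i := by
      show v (1 + (pl φ j i).1) = !(pl φ j i).2 ↔ _
      rw [vl _ (X3F_lit_lt φ hne hj i)]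
      show _ ↔ ¬ (τ (pl φ j i).1 = (pl φ j i).2)
      cases (pl φ j i).2 <;> cases τ (pl φ j i).1 <;> simp
    have h5 : X3F_h φ v j i 5 ↔ Z j i := by
      show v (nv φ + 3 + 3 * (j * wd φ + i)) = true ↔ _
      rw [vZ j i hi]
      simp
    unfold X3F_one
    rw [h3, h4, h5]
    by_cases hY : Y j i
    · left
      exact ⟨hY, fun h => h hY.1, fun h => h.1 hY⟩
    · by_cases hg : g j i
      · right
        right
        exact ⟨hY, fun h => h hg, hY, hg⟩
      · right
        left
        exact ⟨hY, hg, fun h => hg h.2⟩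

theorem p_X3F : S_X3F := by
  intro φ _ hne
  exact ⟨X3F_ok φ hne, fun ⟨v, hv⟩ => X3F_to φ hne v hv, X3F_from φ hne⟩

end Pool.Agent.MPafd87c
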