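import Pool.Agent.Lib.MP_afd87c_lc.BC.Stm

set_option autoImplicit false

namespace Pool.Agent.MPafd87c

/-- `l` is a chain from `a` to `b`. -/
private def YESC_C {T : Type} (R : T → T → Prop) (l : List T) (a b : T) : Prop :=
  l.IsChain R ∧ l.head? = some a ∧ l.getLast? = some b

private theorem YESC_ne {T : Type} {R : T → T → Prop} {l : List T} {a b : T}
    (h : YESC_C R l a b) : l ≠ [] := by
  intro h0
  rw [h0] at h
  simp [YESC_C] at h

private theorem YESC_app {T : Type} {R : T → T → Prop} {l₁ l₂ : List T} {a b c d : T}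
    (h1 : YESC_C R l₁ a b) (h2 : YESC_C R l₂ c d) (h : R b c) : YESC_C R (l₁ ++ l₂) a d := by
  refine ⟨?_, ?_, ?_⟩
  · rw [List.isChain_append]
    refine ⟨h1.1, h2.1, ?_⟩
    intro x hx y hy
    rw [h1.2.2] at hx
    rw [h2.2.1] at hy
    rw [Option.mem_some_iff] at hx hy
    subst hx
    subst hy
    exact h
  · rw [List.head?_append_of_ne_nil _ (YESC_ne h1)]
    exact h1.2.1
  · rw [List.getLast?_append_of_ne_nil _ (YESC_ne h2)]
    exact h2.2.2

private theorem YESC_flat {T : Type} {R : T → T → Prop} (f : ℕ → List T) (a b : ℕ → T) :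
    ∀ (L : List ℕ) (t t' : ℕ), L.head? = some t → L.getLast? = some t' →
      (∀ u ∈ L, YESC_C R (f u) (a u) (b u)) → L.IsChain (fun u w => R (b u) (a w)) →
      YESC_C R (L.flatMap f) (a t) (b t') := by
  intro L
  induction L with
  | nil => intro t t' h; simp at h
  | cons u L ih =>
    intro t t' ht ht' hf hc
    rw [List.head?_cons, Option.some_inj] at ht
    subst ht
    cases L with
    | nil =>
      rw [List.getLast?_singleton, Option.some_inj] at ht'
      subst ht'
      simpa using hf u (by simp)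
    | cons u' L =>
      rw [List.getLast?_cons_cons] at ht'
      rw [List.isChain_cons_cons] at hc
      have h1 := ih u' t' rfl ht' (fun w hw => hf w (List.mem_cons_of_mem _ hw)) hc.2
      rw [List.flatMap_cons]
      exact YESC_app (hf u (by simp)) h1 hc.1

private theorem YESC_filter (n : ℕ) (p : ℕ → Bool) (l₁ l₂ : List ℕ) (t : ℕ)
    (h : (List.range n).filter p = l₁ ++ t :: l₂) :
    (List.range n).filter (fun u => decide (t < u) && p u) = l₂ := by
  have hs : ((List.range n).filter p).Pairwise (· < ·) :=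
    List.Pairwise.filter _ List.pairwise_lt_range
  rw [← List.filter_filter, h, List.filter_append, List.filter_cons]
  rw [h, List.pairwise_append] at hs
  obtain ⟨_, h2, h3⟩ := hs
  rw [List.pairwise_cons] at h2
  have e1 : l₁.filter (fun u => decide (t < u)) = [] := by
    rw [List.filter_eq_nil_iff]
    intro u hu
    have := h3 u hu t (by simp)
    simp
    omega
  have e2 : l₂.filter (fun u => decide (t < u)) = l₂ := by
    rw [List.filter_eq_self]
    intro u hu
    simpa using h2.1 u hu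
  rw [e1, e2]
  simp

private theorem YESC_oa (I : X3) (l : ℕ × Bool) (t : ℕ) (l₁ l₂ : List ℕ)
    (h : I.oc (3 * I.M) l = l₁ ++ t :: l₂) : I.at' t = l ∧ I.oa t = l₂ := by
  have ht : I.at' t = l := by
    have h1 : t ∈ I.oc (3 * I.M) l := by rw [h]; simp
    unfold X3.oc at h1
    rw [List.mem_filter] at h1
    simpa using h1.2
  refine ⟨ht, ?_⟩
  have h2 := YESC_filter (3 * I.M) (fun t => decide (I.at' t = l)) l₁ l₂ t h
  rw [← h2]
  unfold X3.oa
  rw [ht]
  congr 1
  funext u
  simp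

private theorem YESC_trx (I : X3) (t : ℕ) :
    YESC_C (fun u w => w ∈ I.nb u) (trx t) (.x t 0) (.x t 3) := by
  refine ⟨?_, rfl, rfl⟩
  simp [trx, X3.nb]

private theorem YESC_try (I : X3) (t : ℕ) :
    YESC_C (fun u w => w ∈ I.nb u) (try' t) (.y t 0) (.y t 3) := by
  refine ⟨?_, rfl, rfl⟩
  simp [try', X3.nb]

private theorem YESC_tryr (I : X3) (t : ℕ) :
    YESC_C (fun u w => w ∈ I.nb u) (try' t).reverse (.y t 3) (.y t 0) := by
  refine ⟨?_, rfl, rfl⟩
  simp [try', X3.nb]

private theorem YESC_route (I : X3) (hI : I.Ok) (i : ℕ) (hi : i < I.N) (b : Bool) :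
    YESC_C (fun u w => w ∈ I.nb u)
      ([.A i] ++ (I.oc (3 * I.M) (i, b)).flatMap trx ++ [.B i, .m i]) (.A i) (.m i) := by
  obtain ⟨t₀, ht₀, hat⟩ := hI.occ i hi b
  have hne : I.oc (3 * I.M) (i, b) ≠ [] := by
    apply List.ne_nil_of_mem (a := t₀)
    unfold X3.oc
    rw [List.mem_filter]
    exact ⟨List.mem_range.mpr ht₀, by simpa using hat⟩
  have hhead : (I.oc (3 * I.M) (i, b)).head? = some (I.fst (i, b)) := by
    unfold X3.fst
    cases h : I.oc (3 * I.M) (i, b) with
    | nil => exact absurd h hne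
    | cons u L => simp
  have hlast : (I.oc (3 * I.M) (i, b)).getLast? = some (X3.lst I (i, b)) := by
    unfold X3.lst
    rw [List.getLast?_eq_getElem?]
    have hl : (I.oc (3 * I.M) (i, b)).length - 1 < (I.oc (3 * I.M) (i, b)).length := by
      have := List.length_pos_iff.mpr hne
      omega
    rw [List.getElem?_eq_getElem hl, List.getD_eq_getElem _ _ hl]
  have hmid : YESC_C (fun u w => w ∈ I.nb u) ((I.oc (3 * I.M) (i, b)).flatMap trx)
      (.x (I.fst (i, b)) 0) (.x (X3.lst I (i, b)) 3) := by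
    apply YESC_flat trx (fun t => .x t 0) (fun t => .x t 3) _ _ _ hhead hlast
    · intro u _
      exact YESC_trx I u
    · rw [List.isChain_iff_getElem]
      intro k hk
      have h1 : I.oc (3 * I.M) (i, b)
          = (I.oc (3 * I.M) (i, b)).take k ++ (I.oc (3 * I.M) (i, b))[k] ::
            ((I.oc (3 * I.M) (i, b)).drop (k + 1)) := by
        rw [List.getElem_cons_drop, List.take_append_drop]
      have h2 := (YESC_oa I (i, b) _ _ _ h1).2
      have h3 : (I.oc (3 * I.M) (i, b)).drop (k + 1)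
          = (I.oc (3 * I.M) (i, b))[k + 1] :: (I.oc (3 * I.M) (i, b)).drop (k + 1 + 1) :=
        (List.getElem_cons_drop _).symm
      rw [h3] at h2
      have h5 : I.nxt (I.oc (3 * I.M) (i, b))[k] = .x (I.oc (3 * I.M) (i, b))[k + 1] 0 := by
        unfold X3.nxt
        rw [h2, List.length_cons, if_neg (Nat.succ_ne_zero _), List.getD_cons_zero]
      have h6 : I.nxt (I.oc (3 * I.M) (i, b))[k] ∈ I.nb (.x (I.oc (3 * I.M) (i, b))[k] 3) := by
        simp [X3.nb]
      rw [h5] at h6
      exact h6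
  have h4 : YESC_C (fun u w => w ∈ I.nb u) [Tk.A i] (.A i) (.A i) := ⟨by simp, rfl, rfl⟩
  have h5 : YESC_C (fun u w => w ∈ I.nb u) [Tk.B i, .m i] (.B i) (.m i) :=
    ⟨by simp [X3.nb], rfl, rfl⟩
  refine YESC_app (YESC_app h4 hmid ?_) h5 ?_
  · cases b <;> simp [X3.nb]
  · have h6 : I.oc (3 * I.M) (i, b)
        = (I.oc (3 * I.M) (i, b)).dropLast ++ (X3.lst I (i, b)) :: [] :=
      (List.dropLast_append_getLast? _ hlast).symm
    have h7 := YESC_oa I (i, b) _ _ _ h6
    simp [X3.nb, X3.nxt, h7.1, h7.2]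

private theorem YESC_seg (I : X3) (j r : ℕ) :
    YESC_C (fun u w => w ∈ I.nb u) (seg j r ++ [Tk.w j]) (.X j) (Tk.w j) := by
  have hw : YESC_C (fun u w => w ∈ I.nb u) [Tk.w j] (Tk.w j) (Tk.w j) := ⟨by simp, rfl, rfl⟩
  have hc : YESC_C (fun u w => w ∈ I.nb u) [Tk.c j] (.c j) (.c j) := ⟨by simp, rfl, rfl⟩
  have d0 : 3 * j / 3 = j := by omega
  have d1 : (3 * j + 1) / 3 = j := by omega
  have d2 : (3 * j + 2) / 3 = j := by omega
  have m0 : 3 * j % 3 = 0 := by omega
  have m1 : (3 * j + 1) % 3 = 1 := by omega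
  have m2 : (3 * j + 2) % 3 = 2 := by omega
  refine YESC_app (b := .Y j) ?_ hw (by simp [X3.nb])
  unfold seg
  by_cases h0 : r = 0
  · rw [if_pos h0]
    have ha : YESC_C (fun u w => w ∈ I.nb u) [Tk.X j, .d j, .b j] (.X j) (.b j) :=
      ⟨by simp [X3.nb], rfl, rfl⟩
    have hb : YESC_C (fun u w => w ∈ I.nb u) [Tk.a j, .Y j] (.a j) (.Y j) :=
      ⟨by simp [X3.nb], rfl, rfl⟩
    refine YESC_app (YESC_app (YESC_app (YESC_app ha (YESC_tryr I _) ?_) hc ?_)
      (YESC_try I _) ?_) hb ?_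
    · simp [X3.nb]
    · simp [X3.nb, d2]
    · simp [X3.nb]
    · simp [X3.nb, d1, m1]
  · rw [if_neg h0]
    by_cases h1 : r = 1
    · rw [if_pos h1]
      have ha : YESC_C (fun u w => w ∈ I.nb u) [Tk.X j] (.X j) (.X j) := ⟨by simp, rfl, rfl⟩
      have hb : YESC_C (fun u w => w ∈ I.nb u) [Tk.b j, .d j, .a j, .Y j] (.b j) (.Y j) :=
        ⟨by simp [X3.nb], rfl, rfl⟩
      refine YESC_app (YESC_app (YESC_app (YESC_app ha (YESC_tryr I _) ?_) hc ?_)
        (YESC_try I _) ?_) hb ?_
      · simp [X3.nb]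
      · simp [X3.nb, d0]
      · simp [X3.nb]
      · simp [X3.nb, d2, m2]
    · rw [if_neg h1]
      have ha : YESC_C (fun u w => w ∈ I.nb u) [Tk.X j] (.X j) (.X j) := ⟨by simp, rfl, rfl⟩
      have hb : YESC_C (fun u w => w ∈ I.nb u) [Tk.a j, .d j, .b j, .Y j] (.a j) (.Y j) :=
        ⟨by simp [X3.nb], rfl, rfl⟩
      refine YESC_app (YESC_app (YESC_app (YESC_app ha (YESC_tryr I _) ?_) hc ?_)
        (YESC_try I _) ?_) hb ?_
      · simp [X3.nb]
      · simp [X3.nb, d0]
      · simp [X3.nb]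
      · simp [X3.nb, d1, m1]

private theorem YESC_range {n : ℕ} (hn : 0 < n) :
    (List.range n).head? = some 0 ∧ (List.range n).getLast? = some (n - 1) := by
  obtain ⟨m, rfl⟩ : ∃ m, n = m + 1 := ⟨n - 1, by omega⟩
  constructor
  · rw [List.range_succ_eq_map]; rfl
  · rw [List.range_succ]; simp

theorem p_YESC : S_YESC := by
  intro I hI v _
  have hN := YESC_range hI.N_pos
  have hM := YESC_range hI.M_pos
  have h1 : YESC_C (fun u w => w ∈ I.nb u) ((List.range I.N).flatMap (fun i =>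
      [.A i] ++ (I.oc (3 * I.M) (i, v i)).flatMap trx ++ [.B i, .m i])) (.A 0)
      (.m (I.N - 1)) := by
    apply YESC_flat _ (fun i => Tk.A i) (fun i => Tk.m i) _ _ _ hN.1 hN.2
    · intro i hi
      exact YESC_route I hI i (List.mem_range.mp hi) (v i)
    · rw [List.isChain_iff_getElem]
      intro k hk
      rw [List.length_range] at hk
      rw [List.getElem_range, List.getElem_range]
      simp [X3.nb, hk]
  have h2 : YESC_C (fun u w => w ∈ I.nb u) ((List.range I.M).flatMap (fun j =>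
      seg j (trv I v j) ++ [Tk.w j])) (.X 0) (Tk.w (I.M - 1)) := by
    apply YESC_flat _ (fun j => Tk.X j) (fun j => Tk.w j) _ _ _ hM.1 hM.2
    · intro j _
      exact YESC_seg I j _
    · rw [List.isChain_iff_getElem]
      intro k hk
      rw [List.length_range] at hk
      rw [List.getElem_range, List.getElem_range]
      simp [X3.nb, hk]
  have h0 : YESC_C (fun u w => w ∈ I.nb u) [Tk.s] .s .s := ⟨by simp, rfl, rfl⟩
  have h3 : YESC_C (fun u w => w ∈ I.nb u) [Tk.e] .e .e := ⟨by simp, rfl, rfl⟩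
  have hNp := hI.N_pos
  have hMp := hI.M_pos
  have h4 := YESC_app (YESC_app (YESC_app h0 h1 (by simp [X3.nb])) h2 (by
    have : ¬ (I.N - 1 + 1 < I.N) := by omega
    simp [X3.nb, this])) h3 (by
    have : ¬ (I.M - 1 + 1 < I.M) := by omega
    simp [X3.nb, this])
  exact h4.1

end Pool.Agent.MPafd87c
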