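import Pool.Agent.Lib.MP_afd87c_lc.BC.Stm

/-!
# Piece YESP: the path given by a solution is a permutation of the vertices
-/

set_option autoImplicit false

namespace Pool.Agent.MPafd87c

/-- the vertices of the ladder `t` -/
private def YESP_L (t : ℕ) : Multiset Tk :=
  (((List.range 4).flatMap fun k => [Tk.r t k, Tk.x t k, Tk.y t k] : List Tk) : Multiset Tk)

private def YESP_g (t : ℕ) : ℕ × ℕ → Tk
  | (0, k) => .r t k
  | (1, k) => .x t k
  | (_, k) => .y t k

private theorem YESP_L_eq (t : ℕ) : YESP_L t =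
    ((([(0, 0), (1, 0), (2, 0), (0, 1), (1, 1), (2, 1), (0, 2), (1, 2), (2, 2), (0, 3), (1, 3),
      (2, 3)] : List (ℕ × ℕ)).map (YESP_g t) : List Tk) : Multiset Tk) := rfl

private theorem YESP_trx (t : ℕ) : ((trx t : List Tk) : Multiset Tk) = YESP_L t := by
  have h : trx t = ([(1, 0), (0, 0), (2, 0), (2, 1), (0, 1), (1, 1), (1, 2), (0, 2), (2, 2),
      (2, 3), (0, 3), (1, 3)] : List (ℕ × ℕ)).map (YESP_g t) := rfl
  rw [h, YESP_L_eq, Multiset.coe_eq_coe]
  exact List.Perm.map _ (by decide)

private theorem YESP_try (t : ℕ) : ((try' t : List Tk) : Multiset Tk) = YESP_L t := by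
  have h : try' t = ([(2, 0), (0, 0), (1, 0), (1, 1), (0, 1), (2, 1), (2, 2), (0, 2), (1, 2),
      (1, 3), (0, 3), (2, 3)] : List (ℕ × ℕ)).map (YESP_g t) := rfl
  rw [h, YESP_L_eq, Multiset.coe_eq_coe]
  exact List.Perm.map _ (by decide)

private theorem YESP_fm {α : Type} (n : ℕ) (f : ℕ → List α) :
    (((List.range n).flatMap f : List α) : Multiset α)
      = ∑ i ∈ Finset.range n, (f i : Multiset α) := by
  induction n with
  | zero => simp
  | succ n ih =>
    rw [List.range_succ, List.flatMap_append, ← Multiset.coe_add, ih, Finset.sum_range_succ]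
    simp

private theorem YESP_ff {α : Type} (n : ℕ) (p : ℕ → Bool) (f : ℕ → List α) :
    ((((List.range n).filter p).flatMap f : List α) : Multiset α)
      = ∑ i ∈ Finset.range n, if p i then (f i : Multiset α) else 0 := by
  induction n with
  | zero => simp
  | succ n ih =>
    rw [List.range_succ, List.filter_append, List.flatMap_append, ← Multiset.coe_add, ih,
      Finset.sum_range_succ]
    by_cases h : p n <;> simp [h]

private theorem YESP_cons {α : Type} (a : α) (l : List α) :
    ((a :: l : List α) : Multiset α) = {a} + (l : Multiset α) := by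
  rw [Multiset.singleton_add, Multiset.cons_coe]

private theorem YESP_three {α : Type} [AddCommMonoid α] (n : ℕ) (f : ℕ → α) :
    ∑ t ∈ Finset.range (3 * n), f t
      = ∑ j ∈ Finset.range n, (f (3 * j) + f (3 * j + 1) + f (3 * j + 2)) := by
  induction n with
  | zero => simp
  | succ n ih =>
    rw [Finset.sum_range_succ, ← ih, show 3 * (n + 1) = 3 * n + 1 + 1 + 1 by ring,
      Finset.sum_range_succ, Finset.sum_range_succ, Finset.sum_range_succ]
    simp only [add_assoc]

/-- the truth value of the literal at a slot -/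
private def YESP_T (I : X3) (v : ℕ → Bool) (t : ℕ) : Prop := v (I.at' t).1 = (I.at' t).2

private instance (I : X3) (v : ℕ → Bool) (t : ℕ) : Decidable (YESP_T I v t) := by
  unfold YESP_T
  infer_instance

private theorem YESP_route (I : X3) (hI : I.Ok) (v : ℕ → Bool) :
    ∑ i ∈ Finset.range I.N, ∑ t ∈ Finset.range (3 * I.M),
        (if I.at' t = (i, v i) then YESP_L t else 0)
      = ∑ t ∈ Finset.range (3 * I.M), (if YESP_T I v t then YESP_L t else 0) := by
  rw [Finset.sum_comm]
  refine Finset.sum_congr rfl fun t ht => ?_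
  rw [Finset.mem_range] at ht
  have hlt := hI.lt t ht
  rw [Finset.sum_eq_single (I.at' t).1]
  · by_cases h : YESP_T I v t
    · have h' : I.at' t = ((I.at' t).1, v (I.at' t).1) := by
        unfold YESP_T at h
        rw [h]
      rw [if_pos h, if_pos h']
    · have h' : I.at' t ≠ ((I.at' t).1, v (I.at' t).1) := by
        intro h'
        apply h
        unfold YESP_T
        exact (congrArg Prod.snd h').symm
      rw [if_neg h, if_neg h']
  · intro i _ hi
    rw [if_neg]
    intro h
    apply hi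
    rw [h]
  · intro h
    exact absurd (Finset.mem_range.2 hlt) h

private theorem YESP_seg (I : X3) (v : ℕ → Bool) (hv : I.Sol v) (j : ℕ) (hj : j < I.M) :
    ((seg j (trv I v j) ++ [Tk.w j] : List Tk) : Multiset Tk) +
        ((if YESP_T I v (3 * j) then YESP_L (3 * j) else 0) +
          (if YESP_T I v (3 * j + 1) then YESP_L (3 * j + 1) else 0) +
          (if YESP_T I v (3 * j + 2) then YESP_L (3 * j + 2) else 0))
      = (([Tk.X j, .Y j, .w j, .a j, .b j, .c j, .d j] : List Tk) : Multiset Tk) +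
        (YESP_L (3 * j) + YESP_L (3 * j + 1) + YESP_L (3 * j + 2)) := by
  obtain ⟨r, ⟨hr3, hr⟩, hu⟩ := hv j hj
  have hT : ∀ q, q < 3 → (YESP_T I v (3 * j + q) ↔ q = r) := by
    intro q hq
    constructor
    · intro h
      exact hu q ⟨hq, h⟩
    · intro h
      rw [h]
      exact hr
  have h0 := hT 0 (by norm_num)
  have h1 := hT 1 (by norm_num)
  have h2 := hT 2 (by norm_num)
  rw [add_zero] at h0
  have htr : trv I v j = r := by
    unfold trv
    have e0 : (v (I.at' (3 * j)).1 = (I.at' (3 * j)).2) ↔ 0 = r := h0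
    have e1 : (v (I.at' (3 * j + 1)).1 = (I.at' (3 * j + 1)).2) ↔ 1 = r := h1
    rw [if_congr e0 rfl (if_congr e1 rfl rfl)]
    split_ifs <;> omega
  rw [htr]
  have hr' : r = 0 ∨ r = 1 ∨ r = 2 := by omega
  rcases hr' with h | h | h
  · subst h
    rw [if_pos (h0.2 rfl), if_neg (fun h => absurd (h1.1 h) (by norm_num)),
      if_neg (fun h => absurd (h2.1 h) (by norm_num))]
    have e : seg j 0 = [Tk.X j, .d j, .b j] ++ (try' (3 * j + 2)).reverse ++ [.c j] ++
      try' (3 * j + 1) ++ [.a j, .Y j] := rfl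
    rw [e]
    simp only [← Multiset.coe_add, Multiset.coe_reverse, YESP_try, YESP_cons, Multiset.coe_nil]
    abel
  · subst h
    rw [if_pos (h1.2 rfl), if_neg (fun h => absurd (h0.1 h) (by norm_num)),
      if_neg (fun h => absurd (h2.1 h) (by norm_num))]
    have e : seg j 1 = [Tk.X j] ++ (try' (3 * j)).reverse ++ [.c j] ++ try' (3 * j + 2) ++
      [.b j, .d j, .a j, .Y j] := rfl
    rw [e]
    simp only [← Multiset.coe_add, Multiset.coe_reverse, YESP_try, YESP_cons, Multiset.coe_nil]
    abel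
  · subst h
    rw [if_pos (h2.2 rfl), if_neg (fun h => absurd (h0.1 h) (by norm_num)),
      if_neg (fun h => absurd (h1.1 h) (by norm_num))]
    have e : seg j 2 = [Tk.X j] ++ (try' (3 * j)).reverse ++ [.c j] ++ try' (3 * j + 1) ++
      [.a j, .d j, .b j, .Y j] := rfl
    rw [e]
    simp only [← Multiset.coe_add, Multiset.coe_reverse, YESP_try, YESP_cons, Multiset.coe_nil]
    abel

/-- **(YESP)** -/
theorem p_YESP : S_YESP := by
  intro I hI v hv
  rw [← Multiset.coe_eq_coe]
  have hoc : ∀ i, (((I.oc (3 * I.M) (i, v i)).flatMap trx : List Tk) : Multiset Tk)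
      = ∑ t ∈ Finset.range (3 * I.M), if I.at' t = (i, v i) then YESP_L t else 0 := by
    intro i
    unfold X3.oc
    rw [YESP_ff]
    refine Finset.sum_congr rfl fun t _ => ?_
    by_cases h : I.at' t = (i, v i)
    · rw [if_pos h, if_pos (by simpa using h), YESP_trx]
    · rw [if_neg h, if_neg (by simpa using h)]
  have e1 : ((pth I v : List Tk) : Multiset Tk) = {Tk.s} +
      (∑ i ∈ Finset.range I.N, (({Tk.A i} : Multiset Tk) + ({Tk.B i} + {Tk.m i})) +
        ∑ t ∈ Finset.range (3 * I.M), (if YESP_T I v t then YESP_L t else 0)) +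
      ∑ j ∈ Finset.range I.M, ((seg j (trv I v j) ++ [Tk.w j] : List Tk) : Multiset Tk) +
      {Tk.e} := by
    unfold pth
    rw [← Multiset.coe_add, ← Multiset.coe_add, ← Multiset.coe_add, YESP_fm, YESP_fm,
      ← YESP_route I hI v, ← Finset.sum_add_distrib]
    have e2 : ∀ i, (([Tk.A i] ++ (I.oc (3 * I.M) (i, v i)).flatMap trx ++ [Tk.B i, .m i] :
        List Tk) : Multiset Tk) = (({Tk.A i} : Multiset Tk) + ({Tk.B i} + {Tk.m i})) +
        ∑ t ∈ Finset.range (3 * I.M), if I.at' t = (i, v i) then YESP_L t else 0 := by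
      intro i
      rw [← Multiset.coe_add, ← Multiset.coe_add, hoc]
      simp only [YESP_cons, Multiset.coe_nil]
      abel
    simp only [e2]
    rfl
  have e3 : ((I.vs : List Tk) : Multiset Tk) = {Tk.s} +
      ∑ i ∈ Finset.range I.N, (({Tk.A i} : Multiset Tk) + ({Tk.B i} + {Tk.m i})) +
      ∑ j ∈ Finset.range I.M, (([Tk.X j, .Y j, .w j, .a j, .b j, .c j, .d j] : List Tk) :
        Multiset Tk) +
      ∑ t ∈ Finset.range (3 * I.M), YESP_L t + {Tk.e} := by
    unfold X3.vs
    rw [← Multiset.coe_add, ← Multiset.coe_add, ← Multiset.coe_add, ← Multiset.coe_add, YESP_fm,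
      YESP_fm, YESP_fm]
    have e4 : ∀ i, (([Tk.A i, .B i, .m i] : List Tk) : Multiset Tk)
        = ({Tk.A i} : Multiset Tk) + ({Tk.B i} + {Tk.m i}) := by
      intro i
      simp only [YESP_cons, Multiset.coe_nil, add_zero]
    simp only [e4]
    rfl
  have e5 : ∑ j ∈ Finset.range I.M, ((seg j (trv I v j) ++ [Tk.w j] : List Tk) : Multiset Tk) +
      ∑ t ∈ Finset.range (3 * I.M), (if YESP_T I v t then YESP_L t else 0)
      = ∑ j ∈ Finset.range I.M, (([Tk.X j, .Y j, .w j, .a j, .b j, .c j, .d j] : List Tk) :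
        Multiset Tk) + ∑ t ∈ Finset.range (3 * I.M), YESP_L t := by
    rw [YESP_three, YESP_three, ← Finset.sum_add_distrib, ← Finset.sum_add_distrib]
    exact Finset.sum_congr rfl fun j hj => YESP_seg I v hv j (Finset.mem_range.1 hj)
  rw [e1, e3]
  calc _ = {Tk.s} + ∑ i ∈ Finset.range I.N, (({Tk.A i} : Multiset Tk) + ({Tk.B i} + {Tk.m i})) +
      (∑ j ∈ Finset.range I.M, ((seg j (trv I v j) ++ [Tk.w j] : List Tk) : Multiset Tk) +
      ∑ t ∈ Finset.range (3 * I.M), (if YESP_T I v t then YESP_L t else 0)) + {Tk.e} := by abel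
    _ = _ := by
      rw [e5]
      abel

end Pool.Agent.MPafd87c
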